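import Pool.Agent.Y806.LL.StRep

/-! # Admissibility -/

open WithZero Topology

namespace Pool.Agent.Y806.LL

noncomputable section

lemma mul_ij {A : Type} [CommRing A] (g h : GL (Fin 2) A) (i j : Fin 2) :
    (g * h) i j = g i 0 * h 0 j + g i 1 * h 1 j := by
  simp [Matrix.mul_apply, Fin.sum_univ_two]

lemma conj_low_entry {A : Type} [CommRing A] (k : GL (Fin 2) A) (x : A) (i j : Fin 2) :
    (k * lowA x * k⁻¹) i j = (1 : Matrix (Fin 2) (Fin 2) A) i j + x * (k i 1 * (k⁻¹) 0 j) := by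
  have h1 : k i 0 * (k⁻¹) 0 j + k i 1 * (k⁻¹) 1 j = (1 : Matrix (Fin 2) (Fin 2) A) i j := by
    rw [← mul_ij, mul_inv_cancel]; rfl
  rw [mul_ij, mul_ij, mul_ij]
  simp only [lowA_00, lowA_01, lowA_10, lowA_11]
  linear_combination h1

lemma exists_low {N : Subgroup GF} (hN : IsOpen (N : Set GF)) :
    ∃ n₀ : ℕ, ∀ n : ℕ, n₀ ≤ n → ∀ k ∈ K0, k * lowA (((tu ^ (-(n : ℤ)) : Fˣ) : F)) * k⁻¹ ∈ N := by
  obtain ⟨m, hm⟩ := exists_congruence (hN.mem_nhds (one_mem N))
  have key : ∀ n : ℕ, m.natAbs + 1 ≤ n → ∀ k ∈ K0, ∀ x : F, Valued.v x = exp (-(n : ℤ)) →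
      ∀ i j, Valued.v ((k * lowA x * k⁻¹) i j - (1 : Matrix (Fin 2) (Fin 2) F) i j) < exp m := by
    intro n hn k hk x hx i j
    rw [conj_low_entry, add_sub_cancel_left, map_mul, hx]
    calc exp (-(n : ℤ)) * Valued.v (k i 1 * (k⁻¹) 0 j) ≤ exp (-(n : ℤ)) * 1 := by
          gcongr; rw [map_mul]; exact mul_le_one' (hk.1 _ _) (hk.2 _ _)
      _ < exp m := by rw [mul_one, exp_lt_exp]; omega
  refine ⟨m.natAbs + 1, fun n hn k hk => hm _ (key n hn k hk _ (v_tu_zpow _)) ?_⟩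
  have e : (k * lowA (((tu ^ (-(n : ℤ)) : Fˣ) : F)) * k⁻¹)⁻¹ =
      k * lowA (-(((tu ^ (-(n : ℤ)) : Fˣ) : F))) * k⁻¹ := by
    rw [mul_inv_rev, mul_inv_rev, lowA_inv]; group
  rw [e]
  exact key n hn k hk _ (by rw [Valuation.map_neg]; exact v_tu_zpow _)

/-- Finitely many cosets cover `K0`. -/
lemma exists_cosets {N : Subgroup GF} (hN : IsOpen (N : Set GF)) :
    ∃ S : Finset GF, (∀ s ∈ S, s ∈ K0) ∧ ∀ k ∈ K0, ∃ s ∈ S, ∃ n ∈ N, k = n * s := by
  have h := isCompact_K0.elim_nhds_subcover (fun k => {g : GF | g * k⁻¹ ∈ N}) (fun k _ => by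
    refine IsOpen.mem_nhds ?_ ?_
    · exact hN.preimage (continuous_mul_const k⁻¹)
    · show k * k⁻¹ ∈ N
      rw [mul_inv_cancel]; exact one_mem N)
  obtain ⟨S, hS, hc⟩ := h
  refine ⟨S, hS, fun k hk => ?_⟩
  have h1 := hc hk
  simp only [Set.mem_iUnion] at h1
  obtain ⟨s, hs, h2⟩ := h1
  exact ⟨s, hs, k * s⁻¹, h2, by group⟩

/-- Left `N`-invariant harmonic functions are determined by finitely many values. -/
lemma exists_det {N : Subgroup GF} (hN : IsOpen (N : Set GF)) :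
    ∃ S : Finset GF, ∀ f : GF → ℂ, Harm 0 f → (∀ n ∈ N, ∀ g, f (n * g) = f g) →
      (∀ s ∈ S, f s = 0) → ∀ g, f g = 0 := by
  classical
  obtain ⟨n₀, hn₀⟩ := exists_low hN
  obtain ⟨S, hSK, hS⟩ := exists_cosets hN
  refine ⟨(S ×ˢ Finset.range (n₀ + 1)).image fun p => p.1 * dg (p.2 : ℤ), fun f hf hl h0 => ?_⟩
  have h1 : ∀ n : ℕ, ∀ k ∈ K0, f (k * dg n) = 0 := by
    intro n
    induction n with
    | zero =>
      intro k hk
      obtain ⟨s, hs, u, hu, rfl⟩ := hS k hk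
      rw [mul_assoc, hl u hu]
      exact h0 _ (Finset.mem_image.mpr ⟨(s, 0), by simp [hs], rfl⟩)
    | succ n ih =>
      intro k hk
      by_cases hn : n + 1 ≤ n₀
      · obtain ⟨s, hs, u, hu, rfl⟩ := hS k hk
        rw [mul_assoc, hl u hu]
        exact h0 _ (Finset.mem_image.mpr ⟨(s, n + 1), by simp [hs]; omega, rfl⟩)
      · have hs := hf.step (k := k) (n := ((n + 1 : ℕ) : ℤ)) (fun g => hl _
          (hn₀ _ (by omega) k hk) g)
        have h1 : (((n + 1 : ℕ) : ℤ) - 1) = (n : ℤ) := by push_cast; ring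
        rw [h1, ih k hk] at hs
        linear_combination hs / 2
  intro g
  obtain ⟨k, hk, n, i, hi, m, e⟩ := decomp g
  rw [e, hf.om_zpow, hf.iw _ hi, h1 n k hk, mul_zero]

/-- The space of pairs `(f, c)`. -/
def HH (N : Subgroup GF) : Submodule ℂ ((GF → ℂ) × ℂ) where
  carrier := {p | Harm p.2 p.1 ∧ ∀ n ∈ N, ∀ g, p.1 (n * g) = p.1 g}
  add_mem' := by
    rintro ⟨f, c⟩ ⟨f', c'⟩ ⟨h, hl⟩ ⟨h', hl'⟩
    change Harm c f at h
    change Harm c' f' at h'
    refine ⟨⟨fun i hi g => ?_, fun g => ?_, fun g => ?_⟩, fun n hn g => ?_⟩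
    · show f _ + f' _ = f _ + f' _
      rw [h.iw i hi, h'.iw i hi]
    · show f _ + f' _ = -(f _ + f' _)
      rw [h.om, h'.om]; ring
    · show (f _ + f' _) + (f _ + f' _) + (f _ + f' _) = c + c'
      have e1 := h.sum g
      have e2 := h'.sum g
      linear_combination e1 + e2
    · show f _ + f' _ = f _ + f' _
      have e1 := hl n hn g
      have e2 := hl' n hn g
      simp only at e1 e2
      rw [e1, e2]
  zero_mem' := by
    refine ⟨⟨fun i hi g => rfl, fun g => ?_, fun g => ?_⟩, fun n hn g => rfl⟩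
    · show (0 : ℂ) = -0
      ring
    · show (0 : ℂ) + 0 + 0 = 0
      ring
  smul_mem' := by
    rintro a ⟨f, c⟩ ⟨h, hl⟩
    change Harm c f at h
    refine ⟨⟨fun i hi g => ?_, fun g => ?_, fun g => ?_⟩, fun n hn g => ?_⟩
    · show a * f _ = a * f _
      rw [h.iw i hi]
    · show a * f _ = -(a * f _)
      rw [h.om]; ring
    · show (a * f _) + (a * f _) + (a * f _) = a * c
      have e1 := h.sum g
      linear_combination a * e1
    · show a * f _ = a * f _
      have e1 := hl n hn g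
      simp only at e1
      rw [e1]

/-- Universal coefficients. -/
lemma exists_coeff {N : Subgroup GF} (hN : IsOpen (N : Set GF)) :
    ∃ S : Finset GF, ∀ g : GF, ∃ (a : S → ℂ) (b : ℂ), ∀ (c : ℂ) (f : GF → ℂ), Harm c f →
      (∀ n ∈ N, ∀ g, f (n * g) = f g) → f g = (∑ s, a s * f s) + b * c := by
  classical
  obtain ⟨S, hS⟩ := exists_det hN
  refine ⟨S, fun g => ?_⟩
  let ev : GF → (HH N →ₗ[ℂ] ℂ) := fun g => LinearMap.proj g ∘ₗ LinearMap.fst ℂ _ _ ∘ₗ (HH N).subtype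
  let L : Option S → (HH N →ₗ[ℂ] ℂ) := fun s =>
    match s with
    | none => LinearMap.snd ℂ _ _ ∘ₗ (HH N).subtype
    | some s => ev s
  have hk : ⨅ i, LinearMap.ker (L i) ≤ LinearMap.ker (ev g) := by
    rintro ⟨⟨f, c⟩, hf, hl⟩ hp
    simp only [Submodule.mem_iInf, LinearMap.mem_ker] at hp
    have hc : c = 0 := hp none
    subst hc
    have h1 : ∀ s ∈ S, f s = 0 := fun s hs => hp (some ⟨s, hs⟩)
    show f g = 0
    exact hS f hf hl h1 g
  have hmem := mem_span_of_iInf_ker_le_ker hk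
  obtain ⟨a, ha⟩ := (Submodule.mem_span_range_iff_exists_fun ℂ).mp hmem
  refine ⟨fun s => a (some s), a none, fun c f hf hl => ?_⟩
  have h2 := congrArg (fun l : HH N →ₗ[ℂ] ℂ => l ⟨(f, c), hf, hl⟩) ha
  simp only [Fintype.sum_option, LinearMap.add_apply, LinearMap.smul_apply,
    LinearMap.sum_apply, smul_eq_mul] at h2
  have h3 : f g = a none * c + ∑ s : S, a (some s) * f s := h2.symm
  rw [h3]; ring

/-! ### Admissibility of functions on `GL₂(𝔸)` -/

lemma compactSpace_of_le {N : Subgroup GF} (hN : IsOpen (N : Set GF)) (h : N ≤ K0) :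
    CompactSpace N := isCompact_iff_compactSpace.mp (isCompact_of_le_K0 hN h)

/-- The average of the right translate by `g`. -/
def av (N : Subgroup GF) [CompactSpace N] (φ : GA → ℂ) (g : GF) (x : GA) : ℂ :=
  mean N fun n => φ (x * (1, (n : GF)⁻¹ * g))

lemma inr_cont : Continuous fun g : GF => ((1, g) : GA) := continuous_const.prodMk continuous_id

lemma Sm_infty {φ : GA → ℂ} (hφ : φ ∈ Sm GA) (x : GA) : (fun g : GF => φ (x * (1, g))) ∈ Sm GF := by
  obtain ⟨U, hU, h⟩ := hφ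
  refine ⟨U.comap (MonoidHom.inr GAf GF), hU.preimage inr_cont, fun u hu g => ?_⟩
  have := h _ hu (x * (1, g))
  rw [mul_assoc] at this
  simpa using this

lemma av_cont {φ : GA → ℂ} (hφ : φ ∈ Sm GA) (N : Subgroup GF) (g : GF) (x : GA) :
    Continuous fun n : N => φ (x * (1, (n : GF)⁻¹ * g)) := by
  have := continuous_trans N (Sm_continuous (Sm_infty hφ x)) 1 g
  simpa using this

/-- Uniformly admissible functions. -/
def UA : Submodule ℂ (GA → ℂ) where
  carrier := {φ | φ ∈ Sm GA ∧ ∀ (N : Subgroup GF) [CompactSpace N], IsOpen (N : Set GF) → N ≤ K0 →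
    ∃ E : Submodule ℂ (GA → ℂ), FiniteDimensional ℂ E ∧ ∀ g, av N φ g ∈ E}
  add_mem' := by
    rintro φ ψ ⟨h1, h1'⟩ ⟨h2, h2'⟩
    refine ⟨Submodule.add_mem _ h1 h2, fun N _ hN hNK => ?_⟩
    obtain ⟨E, hE, h⟩ := h1' N hN hNK
    obtain ⟨E', hE', h'⟩ := h2' N hN hNK
    refine ⟨E ⊔ E', inferInstance, fun g => ?_⟩
    have : av N (φ + ψ) g = av N φ g + av N ψ g := by
      ext x
      exact mean_add (av_cont h1 N g x) (av_cont h2 N g x)
    rw [this]
    exact Submodule.add_mem_sup (h g) (h' g)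
  zero_mem' := by
    refine ⟨Submodule.zero_mem _, fun N _ _ _ => ⟨⊥, inferInstance, fun g => ?_⟩⟩
    rw [Submodule.mem_bot]
    ext x
    exact mean_const 0
  smul_mem' := by
    rintro a φ ⟨h1, h1'⟩
    refine ⟨Submodule.smul_mem _ a h1, fun N _ hN hNK => ?_⟩
    obtain ⟨E, hE, h⟩ := h1' N hN hNK
    refine ⟨E, hE, fun g => ?_⟩
    have : av N (a • φ) g = a • av N φ g := by
      ext x
      exact mean_smul a _
    rw [this]
    exact Submodule.smul_mem _ a (h g)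

lemma UA_rt {φ : GA → ℂ} (hφ : φ ∈ UA) (h : GA) : rt h φ ∈ UA := by
  obtain ⟨h1, h2⟩ := hφ
  refine ⟨rt_mem_Sm h h1, fun N _ hN hNK => ?_⟩
  obtain ⟨E, hE, hE'⟩ := h2 N hN hNK
  refine ⟨E.map (rt ((h.1, 1) : GA)), inferInstance, fun g => ?_⟩
  have : av N (rt h φ) g = rt ((h.1, 1) : GA) (av N φ (g * h.2)) := by
    ext x
    rw [rt_apply, av, av]
    congr 1; ext n
    rw [rt_apply]
    congr 1
    ext <;> simp [mul_assoc]
  rw [this]
  exact Submodule.mem_map_of_mem (hE' _)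

lemma UA_const (a : ℂ) : (fun _ => a) ∈ UA := by
  refine ⟨const_mem_Sm a, fun N _ hN hNK => ?_⟩
  refine ⟨Submodule.span ℂ {fun _ => a}, inferInstance, fun g => ?_⟩
  have : av N (fun _ => a) g = fun _ => a := by
    ext x
    exact mean_const a
  rw [this]
  exact Submodule.mem_span_singleton_self _

/-- Functions which are harmonic at infinity are admissible. -/
lemma UA_of_harm {φ : GA → ℂ} (hφ : φ ∈ Sm GA) {c : ℂ} (h : ∀ x, Harm c fun g => φ (x * (1, g))) :
    φ ∈ UA := by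
  refine ⟨hφ, fun N _ hN hNK => ?_⟩
  obtain ⟨S, hS⟩ := exists_coeff hN
  refine ⟨Submodule.span ℂ (Set.range fun s : Option S =>
    match s with
    | none => (fun _ => 1 : GA → ℂ)
    | some s => av N φ s), FiniteDimensional.span_of_finite ℂ (Set.finite_range _), fun g => ?_⟩
  obtain ⟨a, b, hab⟩ := hS g
  have key : av N φ g = (∑ s, a s • av N φ s) + (b * c) • (fun _ => 1 : GA → ℂ) := by
    ext x
    have h1 : Harm c fun g => av N φ g x := by
      have := (h x).mean (C := N) 1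
      simpa [av] using this
    have h2 : ∀ n ∈ N, ∀ g, av N φ (n * g) x = av N φ g x := by
      intro n hn g
      refine Eq.trans ?_ (mean_mul_left (⟨n, hn⟩ : N)⁻¹ fun i : N => φ (x * (1, (i : GF)⁻¹ * g)))
      show (mean N fun i => φ (x * (1, (i : GF)⁻¹ * (n * g)))) = _
      congr 1; ext i
      congr 1
      simp [mul_assoc]
    rw [hab c _ h1 h2]
    simp
  rw [key]
  refine Submodule.add_mem _ (Submodule.sum_mem _ fun s _ => Submodule.smul_mem _ _ ?_)
    (Submodule.smul_mem _ _ ?_)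
  · exact Submodule.subset_span ⟨some s, rfl⟩
  · exact Submodule.subset_span ⟨none, rfl⟩

/-- Uniformly admissible functions are admissible. -/
lemma UA_admissible {φ : GA → ℂ} (hφ : φ ∈ UA) (U : Subgroup GF) (hU : IsOpen (U : Set GF)) :
    ∃ E : Submodule ℂ (GA → ℂ), FiniteDimensional ℂ E ∧
      ∀ ψ ∈ Submodule.span ℂ (Set.range fun g : GF => rt ((1, g) : GA) φ),
        (∀ u ∈ U, rt ((1, u) : GA) ψ = ψ) → ψ ∈ E := by
  have hN : IsOpen ((U ⊓ K0 : Subgroup GF) : Set GF) := hU.inter isOpen_K0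
  have := compactSpace_of_le hN inf_le_right
  obtain ⟨E, hE, h⟩ := hφ.2 (U ⊓ K0) hN inf_le_right
  refine ⟨E, hE, fun ψ hψ hfix => ?_⟩
  have h1 : ψ ∈ Sm GA ∧ av (U ⊓ K0) ψ 1 ∈ E := by
    clear hfix
    induction hψ using Submodule.span_induction with
    | mem x hx =>
      obtain ⟨g, rfl⟩ := hx
      refine ⟨rt_mem_Sm _ hφ.1, ?_⟩
      have e : av (U ⊓ K0) (rt ((1, g) : GA) φ) 1 = av (U ⊓ K0) φ g := by
        ext x
        rw [av, av]
        congr 1; ext n
        rw [rt_apply]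
        congr 1
        ext <;> simp [mul_assoc]
      rw [e]; exact h g
    | zero =>
      refine ⟨Submodule.zero_mem _, ?_⟩
      have e : av (U ⊓ K0) 0 1 = 0 := by ext x; exact mean_const 0
      rw [e]; exact Submodule.zero_mem _
    | add x y _ _ hx hy =>
      refine ⟨Submodule.add_mem _ hx.1 hy.1, ?_⟩
      have e : av (U ⊓ K0) (x + y) 1 = av (U ⊓ K0) x 1 + av (U ⊓ K0) y 1 := by
        ext z
        exact mean_add (av_cont hx.1 _ _ z) (av_cont hy.1 _ _ z)
      rw [e]; exact Submodule.add_mem _ hx.2 hy.2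
    | smul a x _ hx =>
      refine ⟨Submodule.smul_mem _ a hx.1, ?_⟩
      have e : av (U ⊓ K0) (a • x) 1 = a • av (U ⊓ K0) x 1 := by
        ext z
        exact mean_smul a _
      rw [e]; exact Submodule.smul_mem _ _ hx.2
  have h2 : av (U ⊓ K0) ψ 1 = ψ := by
    ext x
    have e : (fun n : (U ⊓ K0 : Subgroup GF) => ψ (x * (1, (n : GF)⁻¹ * 1))) = fun _ => ψ x := by
      ext n
      rw [mul_one]
      exact congrFun (hfix _ (inv_mem n.2.1)) x
    rw [av, e, mean_const]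
  rw [← h2]; exact h1.2

end

end Pool.Agent.Y806.LL
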