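import Pool.Agent.Y806.LL.Defs

/-! # Averages over compact subgroups; smooth functions -/

open Topology MeasureTheory

namespace Pool.Agent.Y806.LL

noncomputable section

/-- The Haar probability measure. -/
def prob (C : Type) [Group C] [TopologicalSpace C] [IsTopologicalGroup C] [CompactSpace C] :
    @Measure C (borel C) :=
  letI : MeasurableSpace C := borel C
  haveI : BorelSpace C := ⟨rfl⟩
  Measure.haarMeasure ⊤

/-- The mean value of `f` on the compact group `C`. -/
def mean (C : Type) [Group C] [TopologicalSpace C] [IsTopologicalGroup C] [CompactSpace C]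
    (f : C → ℂ) : ℂ :=
  letI : MeasurableSpace C := borel C
  ∫ x, f x ∂(prob C)

section

variable {C : Type} [Group C] [TopologicalSpace C] [IsTopologicalGroup C] [CompactSpace C]

lemma mean_const (a : ℂ) : mean C (fun _ => a) = a := by
  let : MeasurableSpace C := borel C
  have : BorelSpace C := ⟨rfl⟩
  have h : (Measure.haarMeasure (⊤ : TopologicalSpace.PositiveCompacts C)) Set.univ = 1 := by
    have := Measure.haarMeasure_self (K₀ := (⊤ : TopologicalSpace.PositiveCompacts C))
    simpa using this
  show ∫ _ : C, a ∂(Measure.haarMeasure ⊤) = a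
  rw [integral_const, measureReal_def, h]
  simp

lemma mean_smul (a : ℂ) (f : C → ℂ) : mean C (fun x => a * f x) = a * mean C f := by
  let : MeasurableSpace C := borel C
  exact integral_const_mul a f

lemma mean_add {f g : C → ℂ} (hf : Continuous f) (hg : Continuous g) :
    mean C (fun x => f x + g x) = mean C f + mean C g := by
  let : MeasurableSpace C := borel C
  have : BorelSpace C := ⟨rfl⟩
  have key : ∀ f : C → ℂ, Continuous f →
      Integrable f (Measure.haarMeasure (⊤ : TopologicalSpace.PositiveCompacts C)) := fun f hf =>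
    hf.integrable_of_hasCompactSupport (HasCompactSupport.of_compactSpace f)
  exact integral_add (key f hf) (key g hg)

lemma mean_add3 {f g h : C → ℂ} (hf : Continuous f) (hg : Continuous g) (hh : Continuous h) :
    mean C (fun x => f x + g x + h x) = mean C f + mean C g + mean C h := by
  have e := mean_add (f := fun x => f x + g x) (hf.add hg) hh
  rw [mean_add hf hg] at e
  exact e

lemma mean_mul_left (k : C) (f : C → ℂ) : mean C (fun x => f (k * x)) = mean C f := by
  let : MeasurableSpace C := borel C
  have : BorelSpace C := ⟨rfl⟩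
  exact integral_mul_left_eq_self (μ := Measure.haarMeasure (⊤ : TopologicalSpace.PositiveCompacts C))
    f k

end

section

variable {G : Type} [Group G] [TopologicalSpace G] [IsTopologicalGroup G]

/-- A function which is right invariant under an open subgroup is continuous. -/
lemma continuous_of_right {U : Subgroup G} (hU : IsOpen (U : Set G)) {f : G → ℂ}
    (hf : ∀ u ∈ U, ∀ x, f (x * u) = f x) : Continuous f := by
  refine IsLocallyConstant.continuous ?_
  rw [IsLocallyConstant.iff_eventually_eq]
  intro x
  have h : (fun y => x⁻¹ * y) ⁻¹' (U : Set G) ∈ 𝓝 x := by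
    refine (continuous_const_mul x⁻¹).continuousAt.preimage_mem_nhds ?_
    rw [inv_mul_cancel]
    exact hU.mem_nhds (one_mem U)
  filter_upwards [h] with y hy
  have := hf _ hy x
  rw [mul_inv_cancel_left] at this
  exact this

/-- A function which is left invariant under an open subgroup is continuous. -/
lemma continuous_of_left {U : Subgroup G} (hU : IsOpen (U : Set G)) {f : G → ℂ}
    (hf : ∀ u ∈ U, ∀ x, f (u * x) = f x) : Continuous f := by
  have h : Continuous fun x => f x⁻¹ := by
    refine continuous_of_right hU fun u hu x => ?_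
    rw [mul_inv_rev]
    exact hf _ (inv_mem hu) _
  have h' := h.comp continuous_inv
  simpa [Function.comp_def] using h'

/-- Functions on `G` which are right invariant under some open subgroup. -/
def Sm (G : Type) [Group G] [TopologicalSpace G] : Submodule ℂ (G → ℂ) where
  carrier := {f | ∃ U : Subgroup G, IsOpen (U : Set G) ∧ ∀ u ∈ U, ∀ x, f (x * u) = f x}
  add_mem' := by
    rintro f g ⟨U, hU, hf⟩ ⟨V, hV, hg⟩
    refine ⟨U ⊓ V, hU.inter hV, fun u hu x => ?_⟩
    rw [Pi.add_apply, Pi.add_apply, hf u hu.1, hg u hu.2]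
  zero_mem' := ⟨⊤, isOpen_univ, fun _ _ _ => rfl⟩
  smul_mem' := by
    rintro a f ⟨U, hU, hf⟩
    refine ⟨U, hU, fun u hu x => ?_⟩
    rw [Pi.smul_apply, Pi.smul_apply, hf u hu]

omit [IsTopologicalGroup G] in
lemma mem_Sm {f : G → ℂ} : f ∈ Sm G ↔
    ∃ U : Subgroup G, IsOpen (U : Set G) ∧ ∀ u ∈ U, ∀ x, f (x * u) = f x := Iff.rfl

omit [TopologicalSpace G] [IsTopologicalGroup G] in
lemma rt_apply (h : G) (f : G → ℂ) (x : G) : rt h f x = f (x * h) := rfl

lemma rt_mem_Sm (h : G) {f : G → ℂ} (hf : f ∈ Sm G) : rt h f ∈ Sm G := by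
  obtain ⟨U, hU, hf⟩ := hf
  refine ⟨U.comap (MulAut.conj h⁻¹).toMonoidHom, ?_, fun u hu x => ?_⟩
  · refine hU.preimage (f := fun u => h⁻¹ * u * h⁻¹⁻¹) ?_
    fun_prop
  · have h1 : h⁻¹ * u * h⁻¹⁻¹ ∈ U := hu
    have h2 := hf _ h1 (x * h)
    rw [rt_apply, rt_apply, ← h2]
    congr 1
    group

lemma Sm_continuous {f : G → ℂ} (hf : f ∈ Sm G) : Continuous f := by
  obtain ⟨U, hU, hf⟩ := hf
  exact continuous_of_right hU hf

lemma continuous_trans (C : Subgroup G) {f : G → ℂ} (hf : Continuous f) (h g : G) :
    Continuous fun i : C => f (h * (i : G)⁻¹ * g) :=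
  hf.comp ((continuous_const.mul continuous_subtype_val.inv).mul continuous_const)

omit [IsTopologicalGroup G] in
lemma const_mem_Sm (a : ℂ) : (fun _ => a) ∈ Sm G := ⟨⊤, isOpen_univ, fun _ _ _ => rfl⟩

/-- The vectors `f` in `Sm` have open stabilisers. -/
lemma isOpen_stab {f : G → ℂ} (hf : f ∈ Sm G) : IsOpen {g : G | rt g f = f} := by
  obtain ⟨U, hU, hf⟩ := hf
  let S : Subgroup G :=
    { carrier := {g : G | rt g f = f}
      one_mem' := by simp
      mul_mem' := by
        intro a b ha hb
        show rt (a * b) f = f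
        rw [map_mul, Module.End.mul_apply, hb, ha]
      inv_mem' := by
        intro a ha
        show rt a⁻¹ f = f
        have h : rt a⁻¹ (rt a f) = f := by
          rw [← Module.End.mul_apply, ← map_mul]; simp
        rwa [ha] at h }
  have : IsOpen (S : Set G) := Subgroup.isOpen_mono (H₁ := U) (fun u hu => by
    show rt u f = f
    ext x; exact hf u hu x) hU
  exact this

end

end

end Pool.Agent.Y806.LL
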