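import Mathlib

/-!
# Irreducible smooth representations; `GL₂` of the adeles of `K = 𝔽₂(t)`

`K = 𝔽₂(t)`, `F = K_∞ = 𝔽₂((1/t))`, `GL₂(𝔸_K) = GL₂(𝔸_K^{fin}) × GL₂(K_∞)`.
-/

open IsDedekindDomain WithZero

noncomputable section

namespace Pool.Agent.Y806.LL

/-! ### Smooth irreducible representations -/

/-- A representation of a topological group is smooth if all stabilisers are open. -/
def IsSmooth {G V : Type} [Group G] [TopologicalSpace G] [AddCommGroup V] [Module ℂ V]
    (ρ : Representation ℂ G V) : Prop :=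
  ∀ x : V, IsOpen {g : G | ρ g x = x}

/-- An irreducible smooth complex representation of the topological group `G`. -/
structure SmoothIrrep (G : Type) [Group G] [TopologicalSpace G] where
  V : Type
  [acg : AddCommGroup V]
  [mod : Module ℂ V]
  ρ : Representation ℂ G V
  smooth : IsSmooth ρ
  irreducible : ρ.IsIrreducible

attribute [instance] SmoothIrrep.acg SmoothIrrep.mod

/-- Isomorphism of irreducible smooth representations. -/
def SmoothIrrep.Iso {G : Type} [Group G] [TopologicalSpace G] (σ τ : SmoothIrrep G) : Prop :=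
  ∃ e : σ.V ≃ₗ[ℂ] τ.V, ∀ g x, e (σ.ρ g x) = τ.ρ g (e x)

instance SmoothIrrep.setoid (G : Type) [Group G] [TopologicalSpace G] :
    Setoid (SmoothIrrep G) where
  r := SmoothIrrep.Iso
  iseqv :=
    ⟨fun σ => ⟨LinearEquiv.refl ℂ σ.V, fun _ _ => rfl⟩,
     fun {σ τ} ⟨e, he⟩ => ⟨e.symm, fun g x => by
       apply e.injective; rw [he]; simp⟩,
     fun ⟨e, he⟩ ⟨f, hf⟩ => ⟨e.trans f, fun g x => by simp [he, hf]⟩⟩

/-- `Irr(G)`: the isomorphism classes of irreducible smooth complex representations of `G`. -/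
def Irr (G : Type) [Group G] [TopologicalSpace G] : Type 1 := Quotient (SmoothIrrep.setoid G)

/-- The isomorphism class of an irreducible smooth representation. -/
def SmoothIrrep.cls {G : Type} [Group G] [TopologicalSpace G] (σ : SmoothIrrep G) : Irr G :=
  Quotient.mk (SmoothIrrep.setoid G) σ

/-! ### The groups -/

/-- The matrix `(a, b; 0, d)` in `GL₂(A)`. -/
def upper {A : Type} [CommRing A] (a d : Aˣ) (b : A) : GL (Fin 2) A where
  val := !![(a : A), b; 0, (d : A)]
  inv := !![((a⁻¹ : Aˣ) : A), -((a⁻¹ : Aˣ) : A) * b * ((d⁻¹ : Aˣ) : A); 0, ((d⁻¹ : Aˣ) : A)]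
  val_inv := by
    ext i j; fin_cases i <;> fin_cases j <;> simp [Matrix.mul_apply, Fin.sum_univ_two, mul_assoc]
  inv_val := by
    ext i j; fin_cases i <;> fin_cases j <;> simp [Matrix.mul_apply, Fin.sum_univ_two, mul_assoc]

/-- `R = 𝔽₂[t]`; its nonzero primes are the finite places of `K`. -/
abbrev R : Type := Polynomial (ZMod 2)

/-- `K = 𝔽₂(t)`. -/
abbrev K : Type := RatFunc (ZMod 2)

instance : DecidableEq K := Classical.decEq K

/-- `F = K_∞ = 𝔽₂((1/t))`, the completion of `K` at the place at infinity. -/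
abbrev F : Type := RatFunc.CompletionAtInfty (ZMod 2)

/-- The finite adeles of `K`. -/
abbrev Af : Type := FiniteAdeleRing R K

/-- `GL₂(F)`. -/
abbrev GF : Type := GL (Fin 2) F

/-- `GL₂` of the finite adeles. -/
abbrev GAf : Type := GL (Fin 2) Af

/-- `GL₂(𝔸_K)`. -/
abbrev GA : Type := GAf × GF

/-- The diagonal embedding of `K` in the adeles. -/
def diag (x : K) : Af × F := (algebraMap K Af x, algebraMap K F x)

/-- `K`, diagonally embedded in the adeles. -/
def ratAdd : AddSubgroup (Af × F) := AddSubgroup.closure (Set.range diag)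

/-- The compact group `𝔸_K / K`. -/
abbrev AmodK : Type := (Af × F) ⧸ ratAdd

instance : MeasurableSpace AmodK := borel AmodK

end Pool.Agent.Y806.LL

end
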