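import Pool.Agent.Y806.LL.Basic

/-!
# Automorphic representations of `GL₂` over `K = 𝔽₂(t)`: definitions

`K = 𝔽₂(t)`, `F = K_∞ = 𝔽₂((1/t))`, `GL₂(𝔸_K) = GL₂(𝔸_K^{fin}) × GL₂(K_∞)`.
-/

open IsDedekindDomain WithZero

noncomputable section

namespace Pool.Agent.Y806.LL.Aut

/-! ### Representations -/

section

variable {G H : Type} [Group G] [TopologicalSpace G] [Group H] [TopologicalSpace H]

/-- `π` is isomorphic to a subquotient of the space of the functions on `G` with property `P`, on
which `G` acts by right translation: there is a representation `X` of `G`, an embedding `j` of `X`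
in the space of these functions and a surjective homomorphism `q` from `X` to `π`. -/
def IsSubquotient (P : (G → ℂ) → Prop) (π : SmoothIrrep G) : Prop :=
  ∃ (X : Type) (_ : AddCommGroup X) (_ : Module ℂ X) (ρ : Representation ℂ G X)
    (j : X →ₗ[ℂ] (G → ℂ)) (q : X →ₗ[ℂ] π.V),
    (∀ z, P (j z)) ∧ Function.Injective j ∧ (∀ g z x, j (ρ g z) x = j z (x * g)) ∧
      Function.Surjective q ∧ ∀ g z, q (ρ g z) = π.ρ g (q z)

/-- `π` is isomorphic to a subrepresentation of the space of the functions on `G` with property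
`P`. -/
def IsSub (P : (G → ℂ) → Prop) (π : SmoothIrrep G) : Prop :=
  ∃ T : π.V →ₗ[ℂ] (G → ℂ), T ≠ 0 ∧ (∀ g z x, T (π.ρ g z) x = T z (x * g)) ∧ ∀ z, P (T z)

/-- There is a nonzero linear map from `σ` to `π` which commutes with the action of `H`, where
`r h g` says that `g` is the image of `h` in `G`. -/
def IsComponent (r : H → G → Prop) (σ : SmoothIrrep H) (π : SmoothIrrep G) : Prop :=
  ∃ T : σ.V →ₗ[ℂ] π.V, T ≠ 0 ∧ ∀ h g, r h g → ∀ z, T (σ.ρ h z) = π.ρ g (T z)

/-- `σ` has a nonzero vector which is fixed by all elements with property `C`. -/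
def HasFixed (C : H → Prop) (σ : SmoothIrrep H) : Prop :=
  ∃ z : σ.V, z ≠ 0 ∧ ∀ h, C h → σ.ρ h z = z

end

/-- The homomorphism `GL₂(A) → GL₂(B)` given by a ring homomorphism `A → B`. -/
def mapGL {A B : Type} [CommRing A] [CommRing B] (f : A →+* B) (g : GL (Fin 2) A) : GL (Fin 2) B :=
  Matrix.GeneralLinearGroup.map f g

/-- `g` is in `GL₂` of the ring of integers. -/
def IsIntegral {L : Type} [Field L] [Valued L ℤᵐ⁰] (g : GL (Fin 2) L) : Prop :=
  (∀ i j, Valued.v (g.1 i j) ≤ 1) ∧ ∀ i j, Valued.v (g⁻¹.1 i j) ≤ 1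

/-! ### The rings and groups; names for the instances found by Lean -/

instance : Field K := inferInstance
instance : Field F := inferInstance
instance : CommRing K := inferInstance
instance : CommRing F := inferInstance
instance : CommRing Af := inferInstance
instance : Algebra K F := inferInstance
instance : Algebra K Af := inferInstance
instance : TopologicalSpace F := inferInstance
instance : TopologicalSpace Af := inferInstance

/-- Finite places of `K`. -/
abbrev Pl : Type := HeightOneSpectrum R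

/-- The completion of `K` at a finite place. -/
abbrev Kv (v : Pl) : Type := v.adicCompletion K

/-- `GL₂(K)`. -/
abbrev GK : Type := GL (Fin 2) K

/-- `GL₂(K_v)`. -/
abbrev Gv (v : Pl) : Type := GL (Fin 2) (Kv v)

instance : Group GF := inferInstance
instance : TopologicalSpace GF := inferInstance
instance : Group GAf := inferInstance
instance : TopologicalSpace GAf := inferInstance
instance : Group GA := inferInstance
instance : TopologicalSpace GA := inferInstance
instance (v : Pl) : Field (Kv v) := inferInstance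
instance (v : Pl) : TopologicalSpace (Kv v) := inferInstance
instance (v : Pl) : Group (Gv v) := inferInstance
instance (v : Pl) : TopologicalSpace (Gv v) := inferInstance

/-- The adeles of `K`. -/
abbrev AA : Type := Af × F

instance : AddCommGroup AA := inferInstance
instance : TopologicalSpace AA := inferInstance

/-- The ideles of `K`. -/
abbrev Id : Type := Afˣ × Fˣ

instance : Mul Id := inferInstance
instance : TopologicalSpace Id := inferInstance

/-- Functions on `GL₂(𝔸_K)`. -/
abbrev Fn : Type := GA → ℂ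

instance : AddCommGroup Fn := inferInstance
instance : Module ℂ Fn := inferInstance

/-- The diagonal embedding of `Kˣ` in the ideles. -/
def diagU (x : Kˣ) : Id :=
  (Units.map (algebraMap K Af).toMonoidHom x, Units.map (algebraMap K F).toMonoidHom x)

/-- The diagonal embedding of `GL₂(K)` in `GL₂(𝔸_K)`. -/
def rat (γ : GK) : GA := (mapGL (algebraMap K Af) γ, mapGL (algebraMap K F) γ)

/-- `g` has component `h` at the finite place `v` and component `1` at all other places. -/
def IsAt (v : Pl) (h : Gv v) (g : GA) : Prop :=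
  (∀ i j, (g.1.1 i j) v = h.1 i j) ∧
    (∀ w, w ≠ v → ∀ i j, (g.1.1 i j) w = (1 : Matrix (Fin 2) (Fin 2) (Kv w)) i j) ∧ g.2 = 1

/-- The matrix `(a, b; 0, d)` in `GL₂(𝔸_K)`. -/
def up (a d : Id) (b : AA) : GA := (upper a.1 d.1 b.1, upper a.2 d.2 b.2)

/-- Right invariance under an open subgroup of `GL₂(𝔸_K)`. -/
def IsLocConst (φ : Fn) : Prop :=
  ∃ U : Subgroup GA, IsOpen (U : Set GA) ∧ ∀ u ∈ U, ∀ x, φ (x * u) = φ x

/-! ### Automorphic forms -/

/-- The right translates of `φ` under `GL₂(K_∞)` span an admissible representation: for every open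
subgroup `U` of `GL₂(K_∞)` the `U`-invariant elements of the span are in a finite dimensional
space. -/
def IsAdmissible (φ : Fn) : Prop :=
  ∀ U : Subgroup GF, IsOpen (U : Set GF) → ∃ E : Submodule ℂ Fn, FiniteDimensional ℂ E ∧
    ∀ ψ ∈ Submodule.span ℂ (Set.range fun (g : GF) (x : GA) => φ (x * (1, g))),
      (∀ u ∈ U, ∀ x, ψ (x * (1, u)) = ψ x) → ψ ∈ E

/-- Automorphic forms on `GL₂(𝔸_K)`: left `GL₂(K)`-invariant functions, right invariant under an
open subgroup, whose right translates under `GL₂(K_∞)` span an admissible representation. -/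
def IsAutomorphicForm (φ : Fn) : Prop :=
  (∀ γ x, φ (rat γ * x) = φ x) ∧ IsLocConst φ ∧ IsAdmissible φ

instance : AddCommGroup AmodK := inferInstance
instance : TopologicalSpace AmodK := inferInstance

/-- Cusp forms: automorphic forms all of whose constant terms `∫_{𝔸/K} φ(n(x)g) dx` vanish. -/
def IsCuspForm (φ : Fn) : Prop :=
  IsAutomorphicForm φ ∧ ∀ μ : MeasureTheory.Measure AmodK, μ.IsAddHaarMeasure → ∀ g : GA,
    ∫ x : AmodK, φ (up 1 1 x.out * g) ∂μ = 0

/-- Automorphic representations of `GL₂(𝔸_K)`. -/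
def IsAutomorphic (π : SmoothIrrep GA) : Prop := IsSubquotient IsAutomorphicForm π

/-- Cuspidal automorphic representations of `GL₂(𝔸_K)`. -/
def IsCuspidal (π : SmoothIrrep GA) : Prop := IsSubquotient IsCuspForm π

/-! ### Isobaric representations -/

/-- The norm of an idele. -/
def ideleNorm (a : Id) : ℝ :=
  (∏ᶠ v : Pl, (Nat.card (R ⧸ v.asIdeal) : ℝ) ^ (log (Valued.v (a.1.1 v)))) *
    2 ^ (log (Valued.v a.2.1))

/-- Quasi-characters of the idele class group. -/
def IsHeckeCharacter (μ : Id → ℂˣ) : Prop :=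
  Continuous μ ∧ (∀ a b, μ (a * b) = μ a * μ b) ∧ ∀ x, μ (diagU x) = 1

/-- The (not normalised) induced representation of `μ₁ ⊗ μ₂` to `GL₂(𝔸_K)`. -/
def IsInduced (μ₁ μ₂ : Id → ℂˣ) (f : Fn) : Prop :=
  IsLocConst f ∧ ∀ a d b x, f (up a d b * x) = (μ₁ a).1 * (μ₂ d).1 * f x

/-- Isobaric automorphic representations of `GL₂(𝔸_K)`: the cuspidal ones, and the isobaric sums
`χ₁ ⊞ χ₂` of two Hecke characters. With `μ₁ = χ₁ |·|^{1/2}` and `μ₂ = χ₂ |·|^{-1/2}` and the order
such that `|χ₁ / χ₂| = |·|^{r - 1}` with `r ≤ 1`, the latter is the irreducible subrepresentation of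
the induced representation of `χ₁ ⊗ χ₂`. -/
def IsIsobaric (π : SmoothIrrep GA) : Prop :=
  IsCuspidal π ∨ IsAutomorphic π ∧ ∃ μ₁ μ₂, IsHeckeCharacter μ₁ ∧ IsHeckeCharacter μ₂ ∧
    (∃ r : ℝ, r ≤ 1 ∧ ∀ a, ‖(μ₁ a).1‖ = ideleNorm a ^ r * ‖(μ₂ a).1‖) ∧ IsSub (IsInduced μ₁ μ₂) π

/-! ### Local components and liftings -/

/-- `σ` is the component of `π` at the finite place `v`. -/
def IsComponentAt (v : Pl) (σ : SmoothIrrep (Gv v)) (π : SmoothIrrep GA) : Prop :=
  IsComponent (IsAt v) σ π

/-- `σ` is the component of `π` at infinity. -/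
def IsComponentAtInfty (σ : SmoothIrrep GF) (π : SmoothIrrep GA) : Prop :=
  IsComponent (fun h g => g = (1, h)) σ π

/-- `P` is a global lifting of `π` for the identity representation of the dual group `GL₂(ℂ)`:
`P_v = π_v` at every place `v` at which `π_v` has a nonzero `GL₂(O_v)`-fixed vector. -/
def IsGlobalLifting (π P : SmoothIrrep GA) : Prop :=
  (∀ v (σ : SmoothIrrep (Gv v)), IsComponentAt v σ π → HasFixed IsIntegral σ →
    IsComponentAt v σ P) ∧
  ∀ σ : SmoothIrrep GF, IsComponentAtInfty σ π → HasFixed IsIntegral σ → IsComponentAtInfty σ P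

end Pool.Agent.Y806.LL.Aut

end
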