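import Pool.Agent.Y806.LL.Unique
import Pool.Agent.Y806.LL.Stmt

/-! # The main theorem, for the definitions of `Stmt.lean` -/

open WithZero Topology

namespace Pool.Agent.Y806.LL

noncomputable section

lemma aut_form {φ : GA → ℂ} (h : IsAutomorphicForm φ) : Aut.IsAutomorphicForm φ := by
  refine ⟨h.left_inv, h.smooth, fun U hU => ?_⟩
  obtain ⟨E, hE, hE'⟩ := h.admissible U hU
  exact ⟨E, hE, fun ψ hψ hfix => hE' ψ hψ fun u hu => funext fun x => hfix u hu x⟩

lemma aut_cusp {φ : GA → ℂ} (h : IsCuspForm φ) : Aut.IsCuspForm φ :=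
  ⟨aut_form h.toIsAutomorphicForm, fun μ hμ g => h.cusp μ hμ g⟩

lemma aut_subquotient {P Q : (GA → ℂ) → Prop} (hPQ : ∀ φ, P φ → Q φ) {π : SmoothIrrep GA}
    (h : IsSubquotient P π) : Aut.IsSubquotient Q π := by
  obtain ⟨W, hW, hinv, T, hT, hT'⟩ := h
  let ρ : Representation ℂ GA W :=
    (⟨W, fun g φ hφ => hinv g φ hφ⟩ : Subrepresentation (rt : Representation ℂ GA (GA → ℂ))).toRepresentation
  exact ⟨W, inferInstance, inferInstance, ρ, W.subtype, T, fun z => hPQ _ (hW _ z.2),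
    Subtype.val_injective, fun g z x => rfl, hT, fun g z => hT' g z⟩

lemma aut_comp {σ : SmoothIrrep GF} {π : SmoothIrrep GA} (h : IsComponentAtInfty σ π) :
    Aut.IsComponentAtInfty σ π := by
  obtain ⟨T, hT, hT'⟩ := h
  refine ⟨T, hT, fun h g hg z => ?_⟩
  subst hg
  exact hT' h z

lemma comp_of_aut {σ : SmoothIrrep GF} {π : SmoothIrrep GA} (h : Aut.IsComponentAtInfty σ π) :
    IsComponentAtInfty σ π := by
  obtain ⟨T, hT, hT'⟩ := h
  exact ⟨T, hT, fun g z => hT' g (1, g) rfl z⟩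

lemma aut_triv_isobaric : Aut.IsIsobaric (triv GA) := by
  obtain ⟨T, hT, hT1, hT2⟩ := triv_aux2
  refine Or.inr ⟨aut_subquotient (fun φ h => aut_form h) triv_automorphic, fun _ => 1, fun _ => 1,
    ⟨continuous_const, fun _ _ => (mul_one _).symm, fun _ => rfl⟩,
    ⟨continuous_const, fun _ _ => (mul_one _).symm, fun _ => rfl⟩, ⟨0, zero_le_one, fun a => ?_⟩,
    T, hT, fun g z x => ?_, fun z => ⟨(hT2 z).1, fun a d b x => (hT2 z).2 a d b x⟩⟩
  · rw [Real.rpow_zero, one_mul]
  · exact congrFun (hT1 g z) x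

lemma isAt_of {v : Pl} {g : GAf} (hg : ∀ w, w ≠ v → comp w g = 1) : Aut.IsAt v (comp v g) (g, 1) := by
  refine ⟨fun i j => rfl, fun w hw i j => ?_, rfl⟩
  have h := hg w hw
  have h1 : (comp w g).1 i j = (1 : Matrix (Fin 2) (Fin 2) (Kv w)) i j := by rw [h]; rfl
  exact h1

lemma aut_lifting : Aut.IsGlobalLifting Pi1 (triv GA) := by
  refine ⟨fun v σ hσ _ => ?_, fun σ hσ hu => ?_⟩
  · obtain ⟨T, hT, h⟩ := hσ
    have hinv : ∀ (g : GL (Fin 2) (Kv v)) (x : σ.V), T (σ.ρ g x) = T x := by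
      intro g x
      obtain ⟨g', hg', rfl⟩ := exists_supp v g
      have h1 := h (comp v g') (g', 1) (isAt_of hg') x
      have h2 : Pi1.ρ (g', 1) (T x) = T x := by
        show StR 1 (T x) = T x
        rw [map_one]; rfl
      exact h1.trans h2
    have hinj : Function.Injective T := inj_of σ T hT fun g x hx => by
      rw [← hx]; exact hinv g x
    have htr : ∀ (g : GL (Fin 2) (Kv v)) (x : σ.V), σ.ρ g x = x := fun g x => hinj (hinv g x)
    obtain ⟨x, hx⟩ := irr_ne σ.irreducible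
    obtain ⟨l, hl⟩ := exists_functional σ.V hx
    refine ⟨l, fun h0 => hl (by rw [h0]; rfl), fun h g _ z => ?_⟩
    exact congrArg l (htr h z)
  · exfalso
    obtain ⟨T, hT, h⟩ := comp_of_aut hσ
    obtain ⟨x, hx, hfix⟩ := hu
    have hinj : Function.Injective T := inj_of σ T hT fun g x hx => by rw [h, hx, map_zero]
    apply hx
    apply hinj
    rw [map_zero]
    refine StR_no_fixed fun k hk => ?_
    have h1 := h k x
    have h2 : σ.ρ k x = x := hfix k ⟨hk.1, hk.2⟩
    rw [h2] at h1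
    exact h1.symm

/-- No map of isomorphism classes of representations of `GL₂(F)` predicts the components at
infinity of global liftings. -/
theorem aut_no_local_lifting : ¬ ∃ l : Irr GF → Irr GF, ∀ π P : SmoothIrrep GA,
    Aut.IsAutomorphic π → Aut.IsIsobaric P → Aut.IsGlobalLifting π P →
      ∀ σ τ : SmoothIrrep GF, Aut.IsComponentAtInfty σ π → Aut.IsComponentAtInfty τ P →
        l σ.cls = τ.cls := by
  rintro ⟨l, hl⟩
  obtain ⟨π, hcusp, haut, hcomp⟩ := exists_cuspidal
  have h1 := hl Pi1 (triv GA) (aut_subquotient (fun φ h => aut_form h) Pi1_automorphic)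
    aut_triv_isobaric aut_lifting StI (triv GF) (aut_comp Pi1_component) (aut_comp triv_component)
  have h2 := hl π π (aut_subquotient (fun φ h => aut_form h) haut)
    (Or.inl (aut_subquotient (fun φ h => aut_cusp h) hcusp))
    ⟨fun _ _ h _ => h, fun _ h _ => h⟩ StI StI (aut_comp hcomp) (aut_comp hcomp)
  exact StI_ne (h2.symm.trans h1)

end

end Pool.Agent.Y806.LL
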