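import Pool.Agent.Y806.LL.Poinc

/-! # The Poincaré series is a nonzero cusp form -/

open WithZero Topology MeasureTheory

namespace Pool.Agent.Y806.LL

noncomputable section

/-! ### The value at `1` -/

lemma iA_om_gR (γ : GL (Fin 2) R) : iA (om⁻¹ * gR γ) = 0 := by
  by_contra h
  obtain ⟨k, hk, m, e⟩ := iA_ne h
  have e1 : gR γ = om * (k * zF ^ m) := by rw [← e]; group
  have h1 := v_det_gR γ
  rw [e1, map_mul, Units.val_mul, map_mul, v_det_om, v_det_K0 (Iw_le hk), ← exp_add, ← exp_zero,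
    exp_inj] at h1
  omega

lemma th_gR (γ : GL (Fin 2) R) : th (gR γ) = iA (gR γ) := by
  rw [th, iA_om_gR, sub_zero]

lemma nR_mem : gR nR = n1 := by
  apply gl_ext <;> simp [gR_apply, nR, n1]

lemma eq_of_Iw {γ : GL (Fin 2) R} (h : gR γ ∈ Iw) : γ = 1 ∨ γ = nR := by
  have h00 := eq_zero_or_one_of_le (h.1.1 0 0)
  have h01 := eq_zero_or_one_of_le (h.1.1 0 1)
  have h10 : γ 1 0 = 0 := pF_eq_zero_of_lt h.2
  have h11 := eq_zero_or_one_of_le (h.1.1 1 1)
  have hd := det2 γ
  rw [h10, mul_zero, sub_zero] at hd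
  have hne : γ 0 0 * γ 1 1 ≠ 0 := by rw [← hd]; exact γ.det.ne_zero
  have e00 : γ 0 0 = 1 := h00.resolve_left (left_ne_zero_of_mul hne)
  have e11 : γ 1 1 = 1 := h11.resolve_left (right_ne_zero_of_mul hne)
  rcases h01 with e01 | e01
  · left; apply gl_ext <;> simp [e00, e01, h10, e11]
  · right; apply gl_ext <;> simp [e00, e01, h10, e11, nR]

lemma ph_one : ph 1 = 2 := by
  classical
  have hsupp : (Function.support fun γ : GL (Fin 2) K =>
      SS (rf γ * (1 : GA).1) * th (ri γ * (1 : GA).2)) ⊆ (({1, rK nR} : Finset (GL (Fin 2) K)) : Set _) := by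
    intro γ hγ
    have hγ' : SS (rf γ * 1) * th (ri γ * 1) ≠ 0 := hγ
    rw [mul_one, mul_one] at hγ'
    obtain ⟨γ', h1⟩ := exists_of_Kf (SS_mem (left_ne_zero_of_mul hγ'))
    have h1' : rK γ' = γ := h1
    subst h1'
    have h2 := right_ne_zero_of_mul hγ'
    rw [ri_rK, th_gR] at h2
    obtain ⟨k, hk, m, e⟩ := iA_ne h2
    have h3 := v_det_gR γ'
    rw [e, v_det_K0 (Iw_le hk), ← exp_zero, exp_inj] at h3
    have hm : m = 0 := by omega
    rw [hm, zpow_zero, mul_one] at e
    rw [← e] at hk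
    rcases eq_of_Iw hk with rfl | rfl
    · simp
    · simp
  rw [ph, PP, finsum_eq_sum_of_support_subset _ hsupp]
  have hne : (1 : GL (Fin 2) K) ≠ rK nR := by
    intro h
    have h1 : (1 : GL (Fin 2) K) 0 1 = rK nR 0 1 := by rw [← h]
    have h2 : rK nR 0 1 = 1 := by
      show algebraMap R K (nR 0 1) = 1
      simp [nR]
    rw [h2] at h1
    simp at h1
  rw [Finset.sum_pair hne]
  show SS (rf 1 * 1) * th (ri 1 * 1) + SS (rf (rK nR) * 1) * th (ri (rK nR) * 1) = 2
  have t1 : th (ri 1 * 1) = 1 := by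
    have : ri 1 * 1 = gR 1 := by rw [map_one, map_one, mul_one]
    rw [this, th_gR, map_one, iA_K0 (one_mem _)]
    simp
  have t2 : th (ri (rK nR) * 1) = 1 := by
    rw [mul_one, ri_rK, th_gR, nR_mem, iA_K0 (Iw_le n1_mem)]
    simp [n1]
  have s1 : SS (rf 1 * 1) = 1 := by rw [map_one, mul_one, SS_one]
  have s2 : SS (rf (rK nR) * 1) = 1 := by rw [SS_nR, SS_one]
  rw [t1, t2, s1, s2]
  norm_num

/-! ### Constant terms -/

lemma nA_add (x y : Af × F) : nA (x + y) = nA x * nA y := by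
  ext1
  · show upper 1 1 (x.1 + y.1) = upper 1 1 x.1 * upper 1 1 y.1
    rw [upper_mul]; simp [add_comm]
  · show upper 1 1 (x.2 + y.2) = upper 1 1 x.2 * upper 1 1 y.2
    rw [upper_mul]; simp [add_comm]

lemma nA_rat {x : Af × F} (hx : x ∈ ratAdd) : ∃ γ, nA x = rat γ := by
  obtain ⟨κ, rfl⟩ := mem_ratAdd_iff.mp hx
  refine ⟨upper 1 1 κ, ?_⟩
  ext1
  · show upper 1 1 (algebraMap K Af κ) = Matrix.GeneralLinearGroup.map (algebraMap K Af) _
    rw [map_upper, map_one]
  · show upper 1 1 (algebraMap K F κ) = Matrix.GeneralLinearGroup.map (algebraMap K F) _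
    rw [map_upper, map_one]

lemma ct_mk {φ : GA → ℂ} (hφ : φ ∈ LI) (g : GA) (x : Af × F) :
    φ (nA (QuotientAddGroup.mk x : AmodK).out * g) = φ (nA x * g) := by
  have h : (QuotientAddGroup.mk x : AmodK).out - x ∈ ratAdd := by
    have h1 : (QuotientAddGroup.mk (QuotientAddGroup.mk x : AmodK).out : AmodK) =
      QuotientAddGroup.mk x := Quotient.out_eq' _
    have h2 := QuotientAddGroup.eq.mp h1.symm
    have : (QuotientAddGroup.mk x : AmodK).out - x = -x + (QuotientAddGroup.mk x : AmodK).out := by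
      abel
    rw [this]; exact h2
  obtain ⟨γ, hγ⟩ := nA_rat h
  have e : nA (QuotientAddGroup.mk x : AmodK).out = rat γ * nA x := by
    rw [← hγ, ← nA_add]; congr 1; abel
  rw [e, mul_assoc]; exact hφ γ _

lemma continuous_upper {A : Type} [CommRing A] [TopologicalSpace A] [IsTopologicalRing A] :
    Continuous fun x : A => upper 1 1 x := by
  rw [Units.continuous_iff]
  constructor
  · refine continuous_pi fun i => continuous_pi fun j => ?_
    fin_cases i <;> fin_cases j
    · exact continuous_const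
    · exact continuous_id
    · exact continuous_const
    · exact continuous_const
  · refine continuous_pi fun i => continuous_pi fun j => ?_
    fin_cases i <;> fin_cases j
    · exact continuous_const
    · exact (continuous_const.mul continuous_id).mul continuous_const
    · exact continuous_const
    · exact continuous_const

lemma continuous_nA : Continuous nA :=
  (continuous_upper.comp continuous_fst).prodMk (continuous_upper.comp continuous_snd)

lemma ct_cont {φ : GA → ℂ} (h1 : φ ∈ LI) (h2 : φ ∈ Sm GA) (g : GA) :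
    Continuous fun x : AmodK => φ (nA x.out * g) := by
  have h : Continuous ((fun x : AmodK => φ (nA x.out * g)) ∘ (QuotientAddGroup.mk : Af × F → AmodK)) := by
    have e : ((fun x : AmodK => φ (nA x.out * g)) ∘ (QuotientAddGroup.mk : Af × F → AmodK)) =
        fun x => φ (nA x * g) := by
      ext x; exact ct_mk h1 g x
    rw [e]
    exact (Sm_continuous h2).comp (continuous_nA.mul continuous_const)
  exact (QuotientAddGroup.isQuotientMap_mk (N := ratAdd)).continuous_iff.mpr h

lemma ct_int {φ : GA → ℂ} (h1 : φ ∈ LI) (h2 : φ ∈ Sm GA) (g : GA) (μ : Measure AmodK)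
    [μ.IsAddHaarMeasure] : Integrable (fun x : AmodK => φ (nA x.out * g)) μ :=
  (ct_cont h1 h2 g).integrable_of_hasCompactSupport (HasCompactSupport.of_compactSpace _)

lemma ct_inv {φ : GA → ℂ} (h1 : φ ∈ LI) (g : GA) (μ : Measure AmodK)
    [μ.IsAddHaarMeasure] (y : Af × F) :
    ∫ x : AmodK, φ (nA x.out * (nA y * g)) ∂μ = ∫ x : AmodK, φ (nA x.out * g) ∂μ := by
  have h := integral_add_left_eq_self (μ := μ) (fun x : AmodK => φ (nA x.out * g))
    (QuotientAddGroup.mk y)
  rw [← h]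
  congr 1
  ext x
  induction x using QuotientAddGroup.induction_on with
  | H x =>
    rw [ct_mk h1, ← QuotientAddGroup.mk_add, ct_mk h1, add_comm, nA_add, mul_assoc]

/-! ### Vanishing near the cusp -/

lemma Red_upper {a d : Fˣ} {A D : ℤ} (ha : Valued.v (a : F) = exp A) (hd : Valued.v (d : F) = exp D)
    {N : ℕ} (hN : A - D = N) (b : F) : Red N (upper a d b) := by
  obtain ⟨p, hp⟩ := exists_poly (b * (d : F)⁻¹)
  set m := b * (d : F)⁻¹ - pF p with hm
  have hb : b = (m + pF p) * d := by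
    rw [hm]; field_simp; ring
  refine ⟨upper 1 1 p, upper (a * tu ^ (-A)) (d * tu ^ (-D)) (m * d * ((tu ^ (-A) : Fˣ) : F)),
    upper_mem ?_ ?_ ?_, D, ?_⟩
  · rw [Units.val_mul, map_mul, ha, v_tu_zpow, ← exp_add]; simp
  · rw [Units.val_mul, map_mul, hd, v_tu_zpow, ← exp_add]; simp
  · rw [map_mul, map_mul, hd, v_tu_zpow]
    calc Valued.v m * exp D * exp (-A) ≤ 1 * exp D * exp (-A) := by gcongr
      _ = exp (D + -A) := by rw [one_mul, ← exp_add]
      _ ≤ 1 := by rw [← exp_zero, exp_le_exp]; omega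
  · rw [gR_upper, zpow_z, dg, upper_mul, upper_mul, upper_mul]
    have h1 : 1 * tu ^ (N : ℤ) * (a * tu ^ (-A)) * tu ^ D = a := by
      have : tu ^ (N : ℤ) = tu ^ A * tu ^ (-D) := by rw [← zpow_add]; congr 1; omega
      rw [this, one_mul]
      calc tu ^ A * tu ^ (-D) * (a * tu ^ (-A)) * tu ^ D =
          a * (tu ^ A * tu ^ (-A)) * (tu ^ (-D) * tu ^ D) := by ac_rfl
        _ = a := by rw [← zpow_add, ← zpow_add]; simp
    have h2 : 1 * 1 * (d * tu ^ (-D)) * tu ^ D = d := by
      rw [one_mul, one_mul, mul_assoc, ← zpow_add]; simp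
    have h3 : tF ^ N * tF ^ D = tF ^ A := by
      rw [← zpow_natCast, ← zpow_add₀ tF_ne]; congr 1; omega
    have h4 : tF ^ A * (tF ^ A)⁻¹ = 1 := mul_inv_cancel₀ (zpow_ne_zero _ tF_ne)
    have h5 : tF ^ D * (tF ^ D)⁻¹ = 1 := mul_inv_cancel₀ (zpow_ne_zero _ tF_ne)
    rw [h1, h2]
    congr 1
    rw [hb]
    simp only [Units.val_one, one_mul, mul_one, mul_zero, zero_add, Units.val_zpow_eq_zpow_val,
      tu_val, zpow_neg, zpow_natCast, Units.val_mul, Units.val_inv_eq_inv_val,
      Units.val_pow_eq_pow_val]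
    linear_combination (-m * d * (tF ^ A)⁻¹) * h3 - m * d * h4 - pF p * d * h5

lemma Red_of_BB {h : GF} (hB : BB h) : Red 0 h ∨ Red 1 h := by
  rcases hB with ⟨k, hk, m, rfl⟩ | ⟨k, hk, m, rfl⟩
  · left
    exact ⟨1, k, hk, m, by simp [dg_zero]⟩
  · right
    refine ⟨1, wA F * k, mul_mem wF_mem hk, m, ?_⟩
    rw [om]; simp [mul_assoc]

/-- If `φ(k, h) ≠ 0` then the index of `h` is at most one. -/
lemma ind_of_ph {k : GAf} (hk : k ∈ Kf) {h : GF} (hne : ph (k, h) ≠ 0) : Red 0 h ∨ Red 1 h := by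
  obtain ⟨γ, hγ⟩ : ∃ γ : GL (Fin 2) K, SS (rf γ * k) * th (ri γ * h) ≠ 0 := by
    by_contra hcon
    push Not at hcon
    apply hne
    rw [ph, PP]
    simp only [hcon, finsum_zero]
  have h1 : rf γ ∈ Kf := (Subgroup.mul_mem_cancel_right _ hk).mp (SS_mem (left_ne_zero_of_mul hγ))
  obtain ⟨γ', h2⟩ := exists_of_Kf h1
  have h2' : rK γ' = γ := h2
  subst h2'
  have h3 := Red_of_BB (BB_of_th (right_ne_zero_of_mul hγ))
  rw [ri_rK] at h3
  have h4 : h = gR γ'⁻¹ * (gR γ' * h) := by rw [map_inv]; group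
  rcases h3 with h3 | h3
  · left; rw [h4]; exact h3.left _
  · right; rw [h4]; exact h3.left _

/-- `φ` vanishes near the cusps. -/
lemma ph_cusp (g : GAf) : ∃ n₀ : ℤ, ∀ n, n₀ ≤ n → ∀ x : Af × F, ph (nA x * (g, dg n)) = 0 := by
  obtain ⟨α, δ, b, k, hk, e⟩ := fin_decomp g
  set αF : Fˣ := Units.map (algebraMap K F).toMonoidHom α with hα
  set δF : Fˣ := Units.map (algebraMap K F).toMonoidHom δ with hδ
  obtain ⟨A, hA⟩ := exists_exp ((Valuation.ne_zero_iff Valued.v).mpr αF.ne_zero)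
  obtain ⟨D, hD⟩ := exists_exp ((Valuation.ne_zero_iff Valued.v).mpr δF.ne_zero)
  refine ⟨A - D + 2, fun n hn x => ?_⟩
  -- the finite part
  obtain ⟨κ, hκ⟩ := add_decomp (algebraMap K Af ((α⁻¹ : Kˣ) * δ) * x.1)
  set o : Af := algebraMap K Af ((α⁻¹ : Kˣ) * δ) * x.1 - algebraMap K Af κ with ho
  have e1 : upper 1 1 x.1 * g = rf (upper α δ b) * (rf (upper 1 1 κ) * (upper 1 1 o * k)) := by
    suffices key : upper 1 1 x.1 * rf (upper α δ b) =
        rf (upper α δ b) * rf (upper 1 1 κ) * upper 1 1 o by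
      rw [e, ← mul_assoc, key]; group
    rw [rf, map_upper, map_upper, upper_mul, upper_mul, upper_mul]
    have hαα : algebraMap K Af (α : K) * algebraMap K Af ((α⁻¹ : Kˣ) : K) = 1 := by
      rw [← map_mul, Units.mul_inv, map_one]
    congr 1
    · simp
    · simp
    · show 1 * algebraMap K Af b + x.1 * algebraMap K Af (δ : K) = _
      simp only [map_one, Units.val_one, mul_one, one_mul, ho, map_mul]
      show _ = algebraMap K Af (α : K) * (algebraMap K Af ((α⁻¹ : Kˣ) : K) * algebraMap K Af (δ : K) *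
        x.1 - algebraMap K Af κ) + (algebraMap K Af (α : K) * algebraMap K Af κ + algebraMap K Af b)
      linear_combination (-(algebraMap K Af (δ : K) * x.1)) * hαα
  have hok : upper 1 1 o * k ∈ Kf := by
    refine mul_mem ?_ hk
    rw [mem_Kf]
    intro v
    have : comp v (upper 1 1 o) = upper 1 1 (o v) := by
      apply gl_ext
      · exact map_one (ev v)
      · rfl
      · exact map_zero (ev v)
      · exact map_one (ev v)
    rw [this]
    exact upper_mem (by simp) (by simp) (hκ v)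
  set h₂ : GF := (ri (upper 1 1 κ))⁻¹ * ((ri (upper α δ b))⁻¹ * (upper 1 1 x.2 * dg n)) with hh₂
  have e2 : nA x * (g, dg n) = rat (upper α δ b) * (rat (upper 1 1 κ) * (upper 1 1 o * k, h₂)) := by
    ext1
    · exact e1
    · show upper 1 1 x.2 * dg n = ri _ * (ri _ * h₂)
      rw [hh₂]; group
  rw [e2, ph_left, ph_left]
  by_contra hne
  have h3 := ind_of_ph hok hne
  -- the index of `h₂`
  obtain ⟨N, hN⟩ : ∃ N : ℕ, n - A + D = N := ⟨(n - A + D).toNat, by omega⟩
  have h4 : ∃ c : F, h₂ = upper (αF⁻¹ * tu ^ n) δF⁻¹ c := by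
    rw [hh₂, ri, map_upper, map_upper, upper_inv, upper_inv, dg, upper_mul, upper_mul, upper_mul]
    refine ⟨_, congrArg₂ (fun a d => upper a d _) ?_ ?_⟩
    · rw [map_one]; simp [hα]
    · rw [map_one]; simp [hδ]
  obtain ⟨c, hc⟩ := h4
  have h5 : Red N h₂ := by
    rw [hc]
    refine Red_upper (A := -A + n) (D := -D) ?_ ?_ (by omega) c
    · rw [Units.val_mul, Units.val_inv_eq_inv_val, map_mul, map_inv₀, hA, v_tu_zpow, exp_add, exp_neg]
    · rw [Units.val_inv_eq_inv_val, map_inv₀, hD, exp_neg]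
  rcases h3 with h3 | h3
  · have := h3.unique h5; omega
  · have := h3.unique h5; omega

/-! ### Cuspidality -/

lemma Harm.zero_of_unipotent {f : GF → ℂ} (hf : Harm 0 f)
    (hn : ∀ (y : F) (h : GF), f (upper 1 1 y * h) = f h) {n₀ : ℤ} (h0 : ∀ n, n₀ ≤ n → f (dg n) = 0)
    (h : GF) : f h = 0 := by
  have hw : ∀ n : ℤ, f (dg n * wA F) = -f (dg (n - 1)) := by
    intro n; rw [dg_mul_w, hf.om]
  have hnw : ∀ n : ℤ, f (dg n * (n1 * wA F)) = f (dg n * wA F) := by
    intro n
    have : dg n * (n1 * wA F) = upper 1 1 (((tu ^ n : Fˣ) : F)) * (dg n * wA F) := by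
      rw [← mul_assoc, ← mul_assoc]; congr 1
      rw [dg, n1, upper_mul, upper_mul]; simp
    rw [this, hn]
  have hrec : ∀ n : ℤ, f (dg n) = 2 * f (dg (n - 1)) := by
    intro n
    have := hf.sum (dg n)
    rw [hnw, hw] at this
    linear_combination this
  have hall : ∀ k : ℕ, f (dg (n₀ - k)) = 0 := by
    intro k
    induction k with
    | zero => rw [Nat.cast_zero, sub_zero]; exact h0 _ le_rfl
    | succ k ih =>
      have := hrec (n₀ - k)
      rw [ih] at this
      have e : n₀ - ((k + 1 : ℕ) : ℤ) = n₀ - k - 1 := by push_cast; ring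
      rw [e]
      linear_combination -this / 2
  have hd : ∀ n : ℤ, f (dg n) = 0 := by
    intro n
    by_cases hn : n₀ ≤ n
    · exact h0 n hn
    · have := hall (n₀ - n).toNat
      have e : n₀ - ((n₀ - n).toNat : ℤ) = n := by omega
      rwa [e] at this
  have hK : ∀ n : ℤ, ∀ k ∈ K0, f (dg n * k) = 0 := by
    intro n k hk
    rcases K0_cases hk with h | h | h
    · rw [hf.iw _ h, hd]
    · have : dg n * k = dg n * wA F * ((wA F)⁻¹ * k) := by group
      rw [this, hf.iw _ h, hw, hd, neg_zero]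
    · have : dg n * k = dg n * (n1 * wA F) * ((n1 * wA F)⁻¹ * k) := by group
      rw [this, hf.iw _ h, hnw, hw, hd, neg_zero]
  obtain ⟨a, d, b, k, hk, e⟩ := iwasawa h
  obtain ⟨A, hA, hA'⟩ := exists_zpow a.ne_zero
  obtain ⟨D, hD, hD'⟩ := exists_zpow d.ne_zero
  have e1 : h = upper 1 1 (b * ((d⁻¹ : Fˣ) : F)) *
      (dg (A - D) * (upper (a * tu ^ (-A)) (d * tu ^ (-D)) 0 * k) * zF ^ D) := by
    rw [e, mul_assoc (dg _), mul_assoc (upper _ _ _) k, ← zF_zpow_comm, ← mul_assoc (upper _ _ 0),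
      ← mul_assoc (dg _), ← mul_assoc]
    congr 1
    rw [dg, zpow_z, upper_mul, upper_mul, upper_mul]
    have h1 : 1 * (tu ^ (A - D) * (a * tu ^ (-A) * tu ^ D)) = a := by
      calc 1 * (tu ^ (A - D) * (a * tu ^ (-A) * tu ^ D)) =
          a * (tu ^ (A - D) * tu ^ (-A) * tu ^ D) := by rw [one_mul]; ac_rfl
        _ = a := by
          rw [← zpow_add, ← zpow_add]
          have : A - D + -A + D = 0 := by ring
          rw [this, zpow_zero, mul_one]
    have h2 : 1 * (1 * (d * tu ^ (-D) * tu ^ D)) = d := by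
      rw [one_mul, one_mul, mul_assoc, ← zpow_add]; simp
    rw [h1, h2]
    congr 1
    have h3 : ((d * tu ^ (-D) * tu ^ D : Fˣ) : F) = d := by
      have : d * tu ^ (-D) * tu ^ D = d := by rw [mul_assoc, ← zpow_add]; simp
      rw [this]
    simp only [mul_zero, zero_mul, add_zero, zero_add, Units.val_one, one_mul]
    rw [h3, mul_assoc, Units.inv_mul, mul_one]
  rw [e1, hn]
  have hz : ∀ g : GF, f (g * zF ^ D) = f g := by
    intro g
    have : zF ^ D = Pool.Agent.Y806.LL.om ^ (2 * D) := by rw [← om_sq, ← pow_two, ← zpow_natCast, ← zpow_mul]; rfl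
    rw [this, hf.om_zpow, zpow_mul]; simp
  rw [hz]
  refine hK _ _ (mul_mem (upper_mem ?_ ?_ (by simp)) hk)
  · rw [Units.val_mul, Units.val_zpow_eq_zpow_val, tu_val]; exact hA
  · rw [Units.val_mul, Units.val_zpow_eq_zpow_val, tu_val]; exact hD

theorem ph_cuspidal (μ : Measure AmodK) [μ.IsAddHaarMeasure] (g : GA) :
    ∫ x : AmodK, ph (nA x.out * g) ∂μ = 0 := by
  obtain ⟨g, h⟩ := g
  have hint : ∀ h, Integrable (fun x : AmodK => ph (nA x.out * (g, h))) μ := fun h =>
    ct_int ph_left ph_Sm _ μ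
  have hsplit : ∀ (x : GA) (h : GF), ph (x * (g, h)) = ph (x * (g, 1) * (1, h)) := by
    intro x h
    rw [mul_assoc]; congr 2
    ext <;> simp
  have hH : Harm 0 fun h => ∫ x : AmodK, ph (nA x.out * (g, h)) ∂μ := by
    refine ⟨fun i hi h => ?_, fun h => ?_, fun h => ?_⟩
    · congr 1; ext x
      rw [hsplit, hsplit _ h]
      exact (ph_harm _).iw i hi h
    · rw [← integral_neg]
      congr 1; ext x
      rw [hsplit, hsplit _ h]
      exact (ph_harm _).om h
    · have a1 := integral_add (hint h) (hint (h * wA F))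
      have a2 := integral_add (f := fun x : AmodK => ph (nA x.out * (g, h)) +
        ph (nA x.out * (g, h * wA F))) ((hint h).add (hint _)) (hint (h * (n1 * wA F)))
      rw [a1] at a2
      rw [← a2]
      have : (fun x : AmodK => ph (nA x.out * (g, h)) + ph (nA x.out * (g, h * wA F)) +
          ph (nA x.out * (g, h * (n1 * wA F)))) = fun _ => 0 := by
        ext x
        show ph (nA x.out * (g, h)) + ph (nA x.out * (g, h * wA F)) +
          ph (nA x.out * (g, h * (n1 * wA F))) = 0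
        rw [hsplit, hsplit _ (h * wA F), hsplit _ (h * (n1 * wA F))]
        exact (ph_harm _).sum h
      rw [this, integral_zero]
  obtain ⟨n₀, hn₀⟩ := ph_cusp g
  refine hH.zero_of_unipotent (n₀ := n₀) (fun y h => ?_) (fun n hn => ?_) h
  · have h1 := ct_inv ph_left (g, h) μ (0, y)
    have h2 : nA (0, y) * (g, h) = (g, upper 1 1 y * h) := by
      ext1
      · show upper 1 1 0 * g = g
        have : (upper 1 1 0 : GAf) = 1 := by apply gl_ext <;> simp
        rw [this, one_mul]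
      · rfl
    rw [h2] at h1
    exact h1
  · have : (fun x : AmodK => ph (nA x.out * (g, dg n))) = fun _ => 0 := by
      ext x; exact hn₀ n hn _
    rw [this, integral_zero]

/-- The space of cusp forms used below. -/
def CU : Submodule ℂ (GA → ℂ) where
  carrier := {φ | φ ∈ LI ∧ φ ∈ UA ∧ ∀ μ : Measure AmodK, μ.IsAddHaarMeasure → ∀ g : GA,
    ∫ x : AmodK, φ (nA x.out * g) ∂μ = 0}
  add_mem' := by
    rintro φ ψ ⟨h1, h2, h3⟩ ⟨h1', h2', h3'⟩
    refine ⟨Submodule.add_mem _ h1 h1', Submodule.add_mem _ h2 h2', fun μ hμ g => ?_⟩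
    have := integral_add (ct_int h1 h2.1 g μ) (ct_int h1' h2'.1 g μ)
    rw [h3 μ hμ g, h3' μ hμ g, add_zero] at this
    exact this
  zero_mem' := ⟨Submodule.zero_mem _, Submodule.zero_mem _, fun μ _ g => integral_zero _ _⟩
  smul_mem' := by
    rintro a φ ⟨h1, h2, h3⟩
    refine ⟨Submodule.smul_mem _ a h1, Submodule.smul_mem _ a h2, fun μ hμ g => ?_⟩
    have := integral_const_mul (μ := μ) a (fun x : AmodK => φ (nA x.out * g))
    rw [h3 μ hμ g, mul_zero] at this
    exact this

lemma rt_ph_mem (h : GA) : rt h ph ∈ CU := by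
  refine ⟨LI_rt ph_left h, UA_rt ph_mem.2 h, fun μ hμ g => ?_⟩
  simp only [rt_apply, mul_assoc]
  exact ph_cuspidal μ (g * h)

lemma CU_cusp {φ : GA → ℂ} (h : φ ∈ CU) : IsCuspForm φ where
  toIsAutomorphicForm := isAutomorphicForm_of h.1 h.2.1
  cusp := h.2.2

end

end Pool.Agent.Y806.LL
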