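import Pool.Agent.Y806.LL.Basic

/-!
# Automorphic representations of `GL₂` over `K = 𝔽₂(t)`: definitions used in the library
-/

open IsDedekindDomain WithZero

noncomputable section

namespace Pool.Agent.Y806.LL

/-- The diagonal embedding of `GL₂(K)` in `GL₂(𝔸_K)`. -/
def rat : GL (Fin 2) K →* GA :=
  (Matrix.GeneralLinearGroup.map (algebraMap K Af)).prod
    (Matrix.GeneralLinearGroup.map (algebraMap K F))

/-- The component at the finite place `v` of an element of `GL₂(𝔸_K^{fin})`. -/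
def comp (v : HeightOneSpectrum R) : GAf →* GL (Fin 2) (v.adicCompletion K) :=
  Matrix.GeneralLinearGroup.map (RestrictedProduct.evalRingHom _ v)

/-- The unipotent matrix `n(x) = (1, x; 0, 1)` for an adele `x`. -/
def nA (x : Af × F) : GA := (upper 1 1 x.1, upper 1 1 x.2)

/-! ### Automorphic forms -/

/-- Right translation on functions on a group. -/
def rt {G : Type} [Group G] : Representation ℂ G (G → ℂ) where
  toFun h := { toFun := fun φ x => φ (x * h)
               map_add' := fun _ _ => rfl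
               map_smul' := fun _ _ => rfl }
  map_one' := by ext φ x; simp
  map_mul' g h := by ext φ x; simp [mul_assoc]

/-- Automorphic forms on `GL₂(𝔸_K)`: left `GL₂(K)`-invariant functions, right invariant under an
open subgroup, whose right translates under `GL₂(K_∞)` span an admissible representation. -/
structure IsAutomorphicForm (φ : GA → ℂ) : Prop where
  left_inv : ∀ γ x, φ (rat γ * x) = φ x
  smooth : ∃ U : Subgroup GA, IsOpen (U : Set GA) ∧ ∀ u ∈ U, ∀ x, φ (x * u) = φ x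
  admissible : ∀ U : Subgroup GF, IsOpen (U : Set GF) →
    ∃ E : Submodule ℂ (GA → ℂ), FiniteDimensional ℂ E ∧
      ∀ ψ ∈ Submodule.span ℂ (Set.range fun g : GF => rt ((1, g) : GA) φ),
        (∀ u ∈ U, rt ((1, u) : GA) ψ = ψ) → ψ ∈ E

lemma mem_ratAdd_iff {x : Af × F} : x ∈ ratAdd ↔ ∃ κ : K, diag κ = x := by
  constructor
  · intro h
    have hle : ratAdd ≤ ((algebraMap K Af).prod (algebraMap K F)).range.toAddSubgroup := by
      refine (AddSubgroup.closure_le _).mpr ?_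
      rintro _ ⟨κ, rfl⟩
      exact ⟨κ, rfl⟩
    exact hle h
  · intro h
    exact AddSubgroup.subset_closure h

instance : BorelSpace AmodK := ⟨rfl⟩

/-- Cusp forms: automorphic forms all of whose constant terms `∫_{𝔸/K} φ(n(x)g) dx` vanish. -/
structure IsCuspForm (φ : GA → ℂ) : Prop extends IsAutomorphicForm φ where
  cusp : ∀ μ : MeasureTheory.Measure AmodK, μ.IsAddHaarMeasure → ∀ g : GA,
    ∫ x : AmodK, φ (nA x.out * g) ∂μ = 0

/-- `π` is isomorphic to a subquotient of the space of the functions with property `P`: it is a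
quotient of a translation invariant space `W` of such functions. -/
def IsSubquotient (P : (GA → ℂ) → Prop) (π : SmoothIrrep GA) : Prop :=
  ∃ W : Submodule ℂ (GA → ℂ), (∀ φ ∈ W, P φ) ∧ ∃ h : ∀ g, ∀ φ ∈ W, rt g φ ∈ W,
    ∃ T : W →ₗ[ℂ] π.V, Function.Surjective T ∧
      ∀ g (φ : W), T ⟨rt g φ, h g φ φ.2⟩ = π.ρ g (T φ)

/-- Automorphic representations of `GL₂(𝔸_K)`. -/
def IsAutomorphic (π : SmoothIrrep GA) : Prop := IsSubquotient IsAutomorphicForm π

/-- Cuspidal automorphic representations of `GL₂(𝔸_K)`. -/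
def IsCuspidal (π : SmoothIrrep GA) : Prop := IsSubquotient IsCuspForm π

/-! ### Isobaric representations -/

/-- The norm of an idele. -/
def ideleNorm (a : Afˣ × Fˣ) : ℝ :=
  (∏ᶠ v : HeightOneSpectrum R,
    (Nat.card (R ⧸ v.asIdeal) : ℝ) ^ (log (Valued.v ((a.1 : Af) v)))) *
    2 ^ (log (Valued.v (a.2 : F)))

/-- Quasi-characters of the idele class group. -/
structure IsHeckeCharacter (μ : Afˣ × Fˣ →* ℂˣ) : Prop where
  continuous : Continuous μ
  rational : ∀ x : Kˣ,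
    μ (Units.map (algebraMap K Af).toMonoidHom x, Units.map (algebraMap K F).toMonoidHom x) = 1

/-- The (not normalised) induced representation of `μ₁ ⊗ μ₂` to `GL₂(𝔸_K)`. -/
def IsInduced (μ₁ μ₂ : Afˣ × Fˣ →* ℂˣ) (f : GA → ℂ) : Prop :=
  (∃ U : Subgroup GA, IsOpen (U : Set GA) ∧ ∀ u ∈ U, ∀ x, f (x * u) = f x) ∧
  ∀ (a d : Afˣ × Fˣ) (b : Af × F) (x : GA),
    f ((upper a.1 d.1 b.1, upper a.2 d.2 b.2) * x) = (μ₁ a : ℂ) * (μ₂ d : ℂ) * f x

/-- Isobaric automorphic representations of `GL₂(𝔸_K)`: the cuspidal ones, and the isobaric sums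
`χ₁ ⊞ χ₂` of two Hecke characters. With `μ₁ = χ₁ |·|^{1/2}` and `μ₂ = χ₂ |·|^{-1/2}` and the order
such that `|χ₁ / χ₂| = |·|^{r - 1}` with `r ≤ 1`, the latter is the irreducible subrepresentation of
the induced representation of `χ₁ ⊗ χ₂`. -/
def IsIsobaric (π : SmoothIrrep GA) : Prop :=
  IsCuspidal π ∨ IsAutomorphic π ∧ ∃ μ₁ μ₂ : Afˣ × Fˣ →* ℂˣ,
    IsHeckeCharacter μ₁ ∧ IsHeckeCharacter μ₂ ∧
    (∃ r : ℝ, r ≤ 1 ∧ ∀ a, ‖(μ₁ a : ℂ)‖ = ideleNorm a ^ r * ‖(μ₂ a : ℂ)‖) ∧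
    ∃ T : π.V →ₗ[ℂ] (GA → ℂ), T ≠ 0 ∧ (∀ g x, T (π.ρ g x) = rt g (T x)) ∧
      ∀ x, IsInduced μ₁ μ₂ (T x)

/-! ### Local components and liftings -/

/-- `σ` is the component of `π` at the finite place `v`. -/
def IsComponentAt (v : HeightOneSpectrum R) (σ : SmoothIrrep (GL (Fin 2) (v.adicCompletion K)))
    (π : SmoothIrrep GA) : Prop :=
  ∃ T : σ.V →ₗ[ℂ] π.V, T ≠ 0 ∧ ∀ g : GAf, (∀ w, w ≠ v → comp w g = 1) →
    ∀ x, T (σ.ρ (comp v g) x) = π.ρ (g, 1) (T x)

/-- `σ` is the component of `π` at infinity. -/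
def IsComponentAtInfty (σ : SmoothIrrep GF) (π : SmoothIrrep GA) : Prop :=
  ∃ T : σ.V →ₗ[ℂ] π.V, T ≠ 0 ∧ ∀ g x, T (σ.ρ g x) = π.ρ (1, g) (T x)

/-- A representation of `GL₂(L)`, for a valued field `L`, is unramified if it has a nonzero vector
fixed by `GL₂` of the ring of integers. -/
def IsUnramified {L : Type} [Field L] [Valued L ℤᵐ⁰] (σ : SmoothIrrep (GL (Fin 2) L)) : Prop :=
  ∃ x : σ.V, x ≠ 0 ∧ ∀ g : GL (Fin 2) L,
    (∀ i j, Valued.v (g i j) ≤ 1) → (∀ i j, Valued.v (g⁻¹ i j) ≤ 1) → σ.ρ g x = x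

/-- `P` is a global lifting of `π` for the identity representation of the dual group `GL₂(ℂ)`:
`P_v = π_v` at every place `v` at which `π_v` is unramified. -/
def IsGlobalLifting (π P : SmoothIrrep GA) : Prop :=
  (∀ v, ∀ σ, IsComponentAt v σ π → IsUnramified σ → IsComponentAt v σ P) ∧
  ∀ σ, IsComponentAtInfty σ π → IsUnramified σ → IsComponentAtInfty σ P

end Pool.Agent.Y806.LL

end
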