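import Mathlib

/-! # Valued fields with values in `ℤᵐ⁰`: balls, compactness -/

open WithZero Topology Uniformity

namespace Pool.Agent.Y806.LL

section

variable {L : Type} [Field L] [hv : Valued L ℤᵐ⁰]

lemma exists_exp {γ : ℤᵐ⁰} (h : γ ≠ 0) : ∃ m : ℤ, γ = exp m :=
  ⟨log γ, (exp_log h).symm⟩

lemma ball_mem_nhds (x : L) {a : L} (ha : a ≠ 0) :
    {y : L | Valued.v (y - x) < Valued.v a} ∈ 𝓝 x := by
  rw [Valued.mem_nhds]
  refine ⟨Units.mk0 (Valued.v.restrict a) ?_, ?_⟩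
  · rw [Valuation.ne_zero_iff]; exact ha
  · intro y hy
    exact Valued.v.restrict_lt_iff.mp hy

lemma exists_exp_unit (γ : (MonoidWithZeroHom.ValueGroup₀ (.ofClass (Valued.v (R := L) (Γ₀ := ℤᵐ⁰))))ˣ) :
    ∃ m : ℤ, ∀ x : L, Valued.v x < exp m → Valued.v.restrict x < γ.1 := by
  have hne : MonoidWithZeroHom.ValueGroup₀.embedding γ.1 ≠ (0 : ℤᵐ⁰) := by
    intro h
    exact γ.ne_zero ((map_eq_zero _).mp h)
  obtain ⟨m, hm⟩ := exists_exp hne
  refine ⟨m, fun y hy => ?_⟩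
  rw [Valuation.restrict_lt_iff_lt_embedding, hm]
  exact hy

lemma exists_ball {s : Set L} {x : L} (hs : s ∈ 𝓝 x) :
    ∃ m : ℤ, {y : L | Valued.v (y - x) < exp m} ⊆ s := by
  obtain ⟨γ, hγ⟩ := Valued.mem_nhds.mp hs
  obtain ⟨m, hm⟩ := exists_exp_unit γ
  exact ⟨m, fun y hy => hγ (hm _ hy)⟩

/-- If the residue field is finite and `ϖ` is a uniformiser then the integers are approximated by
a finite set to any precision. -/
lemma exists_finite_approx {ϖ : L} (hϖ : Valued.v ϖ = exp (-1 : ℤ)) {S : Set L} (hS : S.Finite)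
    (hres : ∀ x : L, Valued.v x ≤ 1 → ∃ s ∈ S, Valued.v (x - s) ≤ exp (-1 : ℤ)) (n : ℕ) :
    ∃ T : Set L, T.Finite ∧ ∀ x : L, Valued.v x ≤ 1 → ∃ s ∈ T, Valued.v (x - s) ≤ exp (-(n : ℤ)) := by
  have hϖ0 : ϖ ≠ 0 := by
    intro h
    rw [h, map_zero] at hϖ
    exact exp_ne_zero hϖ.symm
  induction n with
  | zero => exact ⟨{0}, Set.finite_singleton _, fun x hx => ⟨0, rfl, by simpa using hx⟩⟩
  | succ n ih =>
    obtain ⟨T, hT, h⟩ := ih
    refine ⟨Set.image2 (fun s t => s + ϖ ^ n * t) T S, hT.image2 _ hS, fun x hx => ?_⟩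
    obtain ⟨s, hs, hsx⟩ := h x hx
    have hpow : Valued.v (ϖ ^ n) = exp (-(n : ℤ)) := by
      rw [map_pow, hϖ, ← exp_nsmul]; simp
    have h1 : Valued.v ((x - s) / ϖ ^ n) ≤ 1 := by
      rw [map_div₀, hpow]
      exact div_le_one_of_le₀ hsx (by simp)
    obtain ⟨t, ht, htx⟩ := hres _ h1
    refine ⟨_, ⟨s, hs, t, ht, rfl⟩, ?_⟩
    have h2 : x - (s + ϖ ^ n * t) = ϖ ^ n * ((x - s) / ϖ ^ n - t) := by
      have : ϖ ^ n ≠ 0 := pow_ne_zero _ hϖ0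
      field_simp
      ring
    show Valued.v (x - (s + ϖ ^ n * t)) ≤ _
    rw [h2, map_mul, hpow]
    calc exp (-(n : ℤ)) * Valued.v ((x - s) / ϖ ^ n - t) ≤ exp (-(n : ℤ)) * exp (-1 : ℤ) := by gcongr
      _ = exp (-((n + 1 : ℕ) : ℤ)) := by rw [← exp_add]; congr 1; push_cast; ring

theorem isCompact_integers [CompleteSpace L] {ϖ : L} (hϖ : Valued.v ϖ = exp (-1 : ℤ)) {S : Set L}
    (hS : S.Finite)
    (hres : ∀ x : L, Valued.v x ≤ 1 → ∃ s ∈ S, Valued.v (x - s) ≤ exp (-1 : ℤ)) :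
    IsCompact {x : L | Valued.v x ≤ 1} := by
  have hcl : IsClosed {x : L | Valued.v x ≤ 1} := Valued.isClosed_integer L
  rw [isCompact_iff_totallyBounded_isComplete]
  refine ⟨?_, hcl.isComplete⟩
  intro d hd
  obtain ⟨γ, -, hγ⟩ := (Valued.hasBasis_uniformity L ℤᵐ⁰).mem_iff.mp hd
  obtain ⟨m, hm⟩ := exists_exp_unit γ
  obtain ⟨T, hT, h⟩ := exists_finite_approx hϖ hS hres (m.natAbs + 1)
  refine ⟨T, hT, fun x hx => ?_⟩
  obtain ⟨s, hs, hsx⟩ := h x hx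
  simp only [Set.mem_iUnion]
  refine ⟨s, hs, hγ ?_⟩
  show Valued.v.restrict (s - x) < γ.1
  apply hm
  rw [Valuation.map_sub_swap]
  refine lt_of_le_of_lt hsx ?_
  rw [exp_lt_exp]
  omega

end

end Pool.Agent.Y806.LL
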