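import Pool.Agent.Y806.LL.Defs
import Pool.Agent.Y806.LL.VF

/-! # The field `F = 𝔽₂((1/t))` -/

open WithZero Topology

namespace Pool.Agent.Y806.LL

noncomputable section

lemma v_alg (r : K) : Valued.v (algebraMap K F r) = RatFunc.inftyValuation (ZMod 2) r := by
  let := RatFunc.inftyValued (ZMod 2)
  exact Valued.valuedCompletion_apply (K := RatFunc (ZMod 2)) r

lemma dense_alg : DenseRange (algebraMap K F) := by
  let := RatFunc.inftyValued (ZMod 2)
  exact UniformSpace.Completion.denseRange_coe (α := RatFunc (ZMod 2))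

instance : CompleteSpace F := by
  let := RatFunc.inftyValued (ZMod 2)
  exact inferInstanceAs (CompleteSpace (UniformSpace.Completion (RatFunc (ZMod 2))))

/-- Polynomials in `F`. -/
def pF : R →+* F := (algebraMap K F).comp (algebraMap R K)

/-- The element `t` of `F`. -/
def tF : F := pF Polynomial.X

lemma v_pF {p : R} (hp : p ≠ 0) : Valued.v (pF p) = exp (p.natDegree : ℤ) := by
  rw [pF, RingHom.comp_apply, v_alg, RatFunc.inftyValuation_apply]
  exact RatFunc.inftyValuation.polynomial (ZMod 2) hp

lemma v_tF : Valued.v tF = exp (1 : ℤ) := by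
  rw [tF, v_pF Polynomial.X_ne_zero, Polynomial.natDegree_X]; rfl

lemma tF_ne : tF ≠ 0 := by
  intro h
  have := v_tF
  rw [h, map_zero] at this
  exact exp_ne_zero this.symm

lemma pF_injective : Function.Injective pF := by
  rw [injective_iff_map_eq_zero]
  intro p hp
  by_contra h
  have := v_pF h
  rw [hp, map_zero] at this
  exact exp_ne_zero this.symm

lemma one_le_v_pF {p : R} (hp : p ≠ 0) : 1 ≤ Valued.v (pF p) := by
  rw [v_pF hp, ← exp_zero, exp_le_exp]; positivity

lemma pF_eq_zero_of_lt {p : R} (hp : Valued.v (pF p) < 1) : p = 0 := by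
  by_contra h
  exact absurd (one_le_v_pF h) (not_le.mpr hp)

lemma zmod2_cases (c : ZMod 2) : c = 0 ∨ c = 1 := by revert c; decide

lemma eq_zero_or_one_of_le {p : R} (hp : Valued.v (pF p) ≤ 1) : p = 0 ∨ p = 1 := by
  by_cases h : p = 0
  · exact Or.inl h
  · right
    rw [v_pF h, ← exp_zero, exp_le_exp] at hp
    have h0 : p.natDegree = 0 := by omega
    obtain ⟨c, hc⟩ := Polynomial.natDegree_eq_zero.mp h0
    rw [← hc] at h ⊢
    rcases zmod2_cases c with rfl | rfl
    · exact absurd (map_zero _) h
    · exact map_one _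

/-- `K_∞ = 𝔽₂[t] + 𝔪`. -/
lemma exists_poly (x : F) : ∃ p : R, Valued.v (x - pF p) < 1 := by
  have hopen : IsOpen {y : F | Valued.v (y - x) < 1} := by
    refine isOpen_iff_mem_nhds.mpr ?_
    intro y hy
    have := ball_mem_nhds y (one_ne_zero (α := F))
    rw [map_one] at this
    filter_upwards [this] with z hz
    have : z - x = (z - y) + (y - x) := by ring
    show Valued.v (z - x) < 1
    rw [this]
    exact Valuation.map_add_lt _ hz hy
  obtain ⟨r, hr⟩ := dense_alg.exists_mem_open hopen ⟨x, by simp⟩
  · -- `r = num / denom`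
    have hd : (RatFunc.denom r).Monic := RatFunc.monic_denom r
    have hd0 : (RatFunc.denom r) ≠ 0 := RatFunc.denom_ne_zero r
    set q := (RatFunc.num r) /ₘ (RatFunc.denom r) with hq
    set m := (RatFunc.num r) %ₘ (RatFunc.denom r) with hm
    refine ⟨q, ?_⟩
    have h1 : algebraMap K F r - pF q = pF m / pF (RatFunc.denom r) := by
      have hne : pF (RatFunc.denom r) ≠ 0 := fun h => hd0 (pF_injective (by rw [h, map_zero]))
      rw [eq_div_iff hne]
      have h2 : algebraMap K F r * pF (RatFunc.denom r) = pF (RatFunc.num r) := by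
        show algebraMap K F r * algebraMap K F _ = algebraMap K F _
        rw [← map_mul]
        congr 1
        have := RatFunc.num_div_denom r
        have hne' : algebraMap R K (RatFunc.denom r) ≠ 0 := by simpa using hd0
        exact ((div_eq_iff hne').mp this).symm
      rw [sub_mul, h2]
      have h3 := Polynomial.modByMonic_add_div (RatFunc.num r) (RatFunc.denom r)
      rw [← hm, ← hq] at h3
      nth_rewrite 1 [← h3]
      rw [map_add, map_mul]; ring
    have h4 : Valued.v (algebraMap K F r - pF q) < 1 := by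
      rw [h1, map_div₀]
      by_cases hm0 : m = 0
      · rw [hm0]; simp
      · rw [v_pF hm0, v_pF hd0, ← exp_sub, ← exp_zero, exp_lt_exp]
        have hlt : m.natDegree < (RatFunc.denom r).natDegree :=
          Polynomial.natDegree_lt_natDegree hm0 (Polynomial.degree_modByMonic_lt _ hd)
        omega
    have : x - pF q = (x - algebraMap K F r) + (algebraMap K F r - pF q) := by ring
    rw [this]
    refine Valuation.map_add_lt _ ?_ h4
    rw [Valuation.map_sub_swap]
    exact hr

lemma residue_cases {x : F} (hx : Valued.v x ≤ 1) : Valued.v x < 1 ∨ Valued.v (x - 1) < 1 := by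
  obtain ⟨p, hp⟩ := exists_poly x
  have h : Valued.v (pF p) ≤ 1 := by
    have : pF p = x - (x - pF p) := by ring
    rw [this]
    exact (Valuation.map_sub _ _ _).trans (max_le hx hp.le)
  rcases eq_zero_or_one_of_le h with h0 | h0
  · left; simpa [h0] using hp
  · right; simpa [h0] using hp

lemma le_exp_of_lt_one {γ : ℤᵐ⁰} (h : γ < 1) : γ ≤ exp (-1 : ℤ) := by
  by_cases h0 : γ = 0
  · rw [h0]; exact zero_le
  · obtain ⟨m, rfl⟩ := exists_exp h0
    rw [← exp_zero, exp_lt_exp] at h
    rw [exp_le_exp]; omega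

lemma v_tF_inv : Valued.v (tF⁻¹) = exp (-1 : ℤ) := by
  rw [map_inv₀, v_tF, ← exp_neg]

theorem isCompact_OF : IsCompact {x : F | Valued.v x ≤ 1} := by
  refine isCompact_integers v_tF_inv (S := {0, 1}) (by simp) fun x hx => ?_
  rcases residue_cases hx with h | h
  · exact ⟨0, by simp, by simpa using le_exp_of_lt_one h⟩
  · exact ⟨1, by simp, le_exp_of_lt_one h⟩

/-- Every nonzero element of `F` is a power of `t` times a unit. -/
lemma exists_zpow {x : F} (hx : x ≠ 0) : ∃ n : ℤ, Valued.v (x * tF ^ (-n)) = 1 ∧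
    Valued.v x = exp n := by
  obtain ⟨n, hn⟩ := exists_exp ((Valuation.ne_zero_iff Valued.v).mpr hx)
  refine ⟨n, ?_, hn⟩
  rw [map_mul, hn, map_zpow₀, v_tF, ← exp_zsmul, ← exp_add]
  simp

end

end Pool.Agent.Y806.LL
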