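import Pool.Agent.Y806.LL.Adm

/-! # The finite places of `K = 𝔽₂(t)` -/

open IsDedekindDomain IsDedekindDomain.HeightOneSpectrum WithZero Topology

namespace Pool.Agent.Y806.LL

noncomputable section

/-- Finite places. -/
abbrev Pl : Type := HeightOneSpectrum R

/-- Completions. -/
abbrev Kv (v : Pl) : Type := v.adicCompletion K

/-- The embedding of `K` in `K_v`. -/
def cK (v : Pl) : K →+* Kv v := algebraMap K (Kv v)

lemma v_cK (v : Pl) (x : K) : Valued.v (cK v x) = v.valuation K x :=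
  valuedAdicCompletion_eq_valuation' v x

/-- A generator of the prime ideal. -/
def gen (v : Pl) : R := Submodule.IsPrincipal.generator v.asIdeal

lemma span_gen (v : Pl) : v.asIdeal = Ideal.span {gen v} :=
  (Ideal.span_singleton_generator v.asIdeal).symm

lemma gen_ne (v : Pl) : gen v ≠ 0 := by
  intro h
  have := span_gen v
  rw [h] at this
  exact v.ne_bot (by rw [this]; simp)

/-- The generator in `K`. -/
def genK (v : Pl) : K := algebraMap R K (gen v)

lemma genK_ne (v : Pl) : genK v ≠ 0 := by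
  simpa [genK] using gen_ne v

lemma val_gen (v : Pl) : v.valuation K (genK v) = exp (-1 : ℤ) := by
  rw [genK, valuation_of_algebraMap, intValuation_singleton v (gen_ne v) (span_gen v)]

lemma val_gen_of_ne {v w : Pl} (h : w ≠ v) : w.valuation K (genK v) = 1 := by
  rw [genK, valuation_eq_one_iff_notMem]
  intro hmem
  have h1 : v.asIdeal ≤ w.asIdeal := by
    rw [span_gen v, Ideal.span_singleton_le_iff_mem]; exact hmem
  have h2 : v.asIdeal = w.asIdeal := v.isMaximal.eq_of_le w.isPrime.ne_top h1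
  exact h (HeightOneSpectrum.ext h2.symm)

lemma val_gen_zpow (v : Pl) (n : ℤ) : v.valuation K (genK v ^ n) = exp (-n) := by
  rw [map_zpow₀, val_gen, ← exp_zsmul]; simp

lemma val_gen_zpow_of_ne {v w : Pl} (h : w ≠ v) (n : ℤ) : w.valuation K (genK v ^ n) = 1 := by
  rw [map_zpow₀, val_gen_of_ne h, one_zpow]

lemma approx_int (v : Pl) (y : Kv v) (hy : Valued.v y ≤ 1) (n : ℕ) :
    ∃ r : R, Valued.v (y - cK v (algebraMap R K r)) ≤ exp (-(n : ℤ)) := by
  have ha : cK v (genK v ^ (n : ℤ)) ≠ 0 := by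
    rw [Ne, map_eq_zero]; exact zpow_ne_zero _ (genK_ne v)
  have hva : Valued.v (cK v (genK v ^ (n : ℤ))) = exp (-(n : ℤ)) := by
    rw [v_cK, val_gen_zpow]
  obtain ⟨z, hz⟩ := (denseRange_algebraMap K v).mem_nhds (ball_mem_nhds y ha)
  have hz' : Valued.v (cK v z - y) < exp (-(n : ℤ)) := by rw [← hva]; exact hz
  have hle : exp (-(n : ℤ)) ≤ (1 : ℤᵐ⁰) := by rw [← exp_zero, exp_le_exp]; omega
  have hz1 : v.valuation K z ≤ 1 := by
    rw [← v_cK]
    have : cK v z = (cK v z - y) + y := by ring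
    rw [this]
    exact (Valuation.map_add _ _ _).trans (max_le (hz'.le.trans hle) hy)
  obtain ⟨r, hr⟩ := exists_valuation_sub_lt_of_integer v hz1
    (Units.mk0 (exp (-(n : ℤ))) exp_ne_zero)
  refine ⟨r, ?_⟩
  have : y - cK v (algebraMap R K r) = -(cK v z - y) - cK v (algebraMap R K r - z) := by
    rw [map_sub]; ring
  rw [this]
  refine (Valuation.map_sub _ _ _).trans (max_le ?_ ?_)
  · rw [Valuation.map_neg]; exact hz'.le
  · rw [v_cK]; exact hr.le

lemma exists_nat_bound (γ : ℤᵐ⁰) : ∃ N : ℕ, γ ≤ exp (N : ℤ) := by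
  by_cases h : γ = 0
  · exact ⟨0, by rw [h]; exact zero_le⟩
  · obtain ⟨m, rfl⟩ := exists_exp h
    exact ⟨m.toNat, by rw [exp_le_exp]; omega⟩

lemma approx (v : Pl) (y : Kv v) (m : ℤ) :
    ∃ x : K, (∀ w, w ≠ v → w.valuation K x ≤ 1) ∧ Valued.v (y - cK v x) ≤ exp m := by
  obtain ⟨N₀, hN₀⟩ := exists_nat_bound (Valued.v y)
  set N : ℕ := max N₀ m.natAbs with hN
  have hP : genK v ^ (N : ℤ) ≠ 0 := zpow_ne_zero _ (genK_ne v)
  have hP' : cK v (genK v ^ (N : ℤ)) ≠ 0 := by rw [Ne, map_eq_zero]; exact hP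
  have hvP : Valued.v (cK v (genK v ^ (N : ℤ))) = exp (-(N : ℤ)) := by
    rw [v_cK, val_gen_zpow]
  have hy : Valued.v (cK v (genK v ^ (N : ℤ)) * y) ≤ 1 := by
    rw [map_mul, hvP]
    calc exp (-(N : ℤ)) * Valued.v y ≤ exp (-(N : ℤ)) * exp (N : ℤ) := by
          gcongr
          exact hN₀.trans (exp_le_exp.mpr (by omega))
      _ = 1 := by rw [← exp_add]; simp
  obtain ⟨r, hr⟩ := approx_int v _ hy ((N : ℤ) - m).toNat
  refine ⟨algebraMap R K r / genK v ^ (N : ℤ), fun w hw => ?_, ?_⟩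
  · rw [map_div₀, val_gen_zpow_of_ne hw, div_one]
    exact valuation_le_one w r
  · have : y - cK v (algebraMap R K r / genK v ^ (N : ℤ)) =
        (cK v (genK v ^ (N : ℤ)) * y - cK v (algebraMap R K r)) / cK v (genK v ^ (N : ℤ)) := by
      rw [map_div₀]; field_simp
    rw [this, map_div₀, hvP, div_le_iff₀ (by simp)]
    refine hr.trans ?_
    rw [← exp_add, exp_le_exp]
    omega

lemma finite_natDegree_le (N : ℕ) : {p : R | p.natDegree ≤ N}.Finite := by
  have hf : Function.Injective fun (p : {p : R | p.natDegree ≤ N}) (i : Fin (N + 1)) =>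
      p.1.coeff i := by
    rintro ⟨p, hp⟩ ⟨q, hq⟩ h
    apply Subtype.ext
    apply Polynomial.ext
    intro n
    by_cases hn : n < N + 1
    · exact congrFun h ⟨n, hn⟩
    · rw [Polynomial.coeff_eq_zero_of_natDegree_lt (lt_of_le_of_lt hp (by omega)),
        Polynomial.coeff_eq_zero_of_natDegree_lt (lt_of_le_of_lt hq (by omega))]
  have : Finite {p : R | p.natDegree ≤ N} := Finite.of_injective _ hf
  exact Set.toFinite _

lemma isCompact_Ov (v : Pl) : IsCompact {x : Kv v | Valued.v x ≤ 1} := by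
  have h0 : Valued.v (cK v (genK v)) = exp (-1 : ℤ) := by rw [v_cK, val_gen]
  refine isCompact_integers h0
    (S := (fun p : R => cK v (algebraMap R K p)) '' {p : R | p.natDegree ≤ (gen v).natDegree})
    ((finite_natDegree_le _).image _) fun x hx => ?_
  obtain ⟨r, hr⟩ := approx_int v x hx 1
  refine ⟨_, ⟨r % gen v, ?_, rfl⟩, ?_⟩
  · show (r % gen v).natDegree ≤ (gen v).natDegree
    by_cases h : r % gen v = 0
    · rw [h]; simp
    · exact (Polynomial.natDegree_lt_natDegree h (EuclideanDomain.mod_lt r (gen_ne v))).le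
  · have e : x - cK v (algebraMap R K (r % gen v)) =
        (x - cK v (algebraMap R K r)) + cK v (genK v) * cK v (algebraMap R K (r / gen v)) := by
      have h1 : r % gen v = r - gen v * (r / gen v) := by
        rw [EuclideanDomain.mod_eq_sub_mul_div]
      rw [h1, map_sub, map_mul, map_sub, map_mul, genK]; ring
    show Valued.v (x - cK v (algebraMap R K (r % gen v))) ≤ _
    rw [e]
    refine (Valuation.map_add _ _ _).trans (max_le hr ?_)
    rw [map_mul, h0]
    calc exp (-1 : ℤ) * Valued.v (cK v (algebraMap R K (r / gen v))) ≤ exp (-1 : ℤ) * 1 := by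
          gcongr; rw [v_cK]; exact valuation_le_one v _
      _ = exp (-1 : ℤ) := mul_one _

/-! ### Finite adeles -/

lemma map_upper {A B : Type} [CommRing A] [CommRing B] (f : A →+* B) (a d : Aˣ) (b : A) :
    Matrix.GeneralLinearGroup.map f (upper a d b) =
      upper (Units.map f.toMonoidHom a) (Units.map f.toMonoidHom d) (f b) := by
  apply gl_ext
  · rfl
  · rfl
  · show f 0 = 0
    exact map_zero f
  · rfl

/-- `GL₂(K)` in `GL₂` of the finite adeles. -/
def rf : GL (Fin 2) K →* GAf := Matrix.GeneralLinearGroup.map (algebraMap K Af)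

/-- `GL₂(K)` in `GL₂(F)`. -/
def ri : GL (Fin 2) K →* GF := Matrix.GeneralLinearGroup.map (algebraMap K F)

lemma rat_eq (γ : GL (Fin 2) K) : rat γ = (rf γ, ri γ) := rfl

lemma comp_rf (v : Pl) (γ : GL (Fin 2) K) :
    comp v (rf γ) = Matrix.GeneralLinearGroup.map (cK v) γ := by
  apply gl_ext <;> rfl

lemma comp_entry (v : Pl) (g : GAf) (i j : Fin 2) : comp v g i j = (g i j : Af) v := rfl

/-- `GL₂` of the integral finite adeles. -/
def Kf : Subgroup GAf := ⨅ v : Pl, (maxc (Kv v)).comap (comp v)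

lemma mem_Kf {g : GAf} : g ∈ Kf ↔ ∀ v, comp v g ∈ maxc (Kv v) := by
  simp [Kf, Subgroup.mem_iInf]

/-- The integral finite adeles. -/
def Oh : Set Af := {x | ∀ v : Pl, Valued.v (x v) ≤ 1}

lemma mem_Kf' {g : GAf} : g ∈ Kf ↔ (∀ i j, g i j ∈ Oh) ∧ ∀ i j, (g⁻¹) i j ∈ Oh := by
  rw [mem_Kf]
  constructor
  · intro h
    refine ⟨fun i j v => (h v).1 i j, fun i j v => ?_⟩
    have := (h v).2 i j
    rw [← map_inv] at this
    exact this
  · rintro ⟨h1, h2⟩ v
    refine ⟨fun i j => h1 i j v, fun i j => ?_⟩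
    rw [← map_inv]
    exact h2 i j v

lemma eventually_integral (x : Af) : ∃ s : Finset Pl, ∀ v ∉ s, Valued.v (x v) ≤ 1 := by
  have h : {v : Pl | ¬ Valued.v (x v) ≤ 1}.Finite := x.2
  exact ⟨h.toFinset, fun v hv => by simpa using hv⟩

lemma eventually_maxc (g : GAf) : ∃ s : Finset Pl, ∀ v ∉ s, comp v g ∈ maxc (Kv v) := by
  classical
  choose s hs using fun (g : GAf) (i j : Fin 2) => eventually_integral (g i j)
  refine ⟨(Finset.univ.biUnion fun i => Finset.univ.biUnion fun j => s g i j) ∪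
    (Finset.univ.biUnion fun i => Finset.univ.biUnion fun j => s g⁻¹ i j), fun v hv => ?_⟩
  simp only [Finset.mem_union, Finset.mem_biUnion, Finset.mem_univ, true_and, not_or,
    not_exists] at hv
  refine ⟨fun i j => hs g i j v (hv.1 i j), fun i j => ?_⟩
  rw [← map_inv]
  exact hs g⁻¹ i j v (hv.2 i j)

lemma local_B (v : Pl) (g : GL (Fin 2) (Kv v)) : ∃ (α δ : Kˣ) (x : K),
    (∀ w, w ≠ v → comp w (rf (upper α δ x)) ∈ maxc (Kv w)) ∧
      (comp v (rf (upper α δ x)))⁻¹ * g ∈ maxc (Kv v) := by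
  obtain ⟨a, d, b, k, hk, e⟩ := iwasawa g
  obtain ⟨m, hm⟩ := exists_exp ((Valuation.ne_zero_iff Valued.v).mpr a.ne_zero)
  obtain ⟨n, hn⟩ := exists_exp ((Valuation.ne_zero_iff Valued.v).mpr d.ne_zero)
  have hα : genK v ^ (-m) ≠ 0 := zpow_ne_zero _ (genK_ne v)
  have hδ : genK v ^ (-n) ≠ 0 := zpow_ne_zero _ (genK_ne v)
  have hvα : Valued.v (cK v (genK v ^ (-m))) = exp m := by
    rw [v_cK, val_gen_zpow, neg_neg]
  have hvδ : Valued.v (cK v (genK v ^ (-n))) = exp n := by
    rw [v_cK, val_gen_zpow, neg_neg]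
  obtain ⟨x, hx, hx'⟩ := approx v (b * cK v (genK v ^ (-n)) / d) m
  refine ⟨Units.mk0 _ hα, Units.mk0 _ hδ, x, fun w hw => ?_, ?_⟩
  · rw [comp_rf, map_upper]
    refine upper_mem ?_ ?_ ?_
    · show Valued.v (cK w (genK v ^ (-m))) = 1
      rw [v_cK, val_gen_zpow_of_ne hw]
    · show Valued.v (cK w (genK v ^ (-n))) = 1
      rw [v_cK, val_gen_zpow_of_ne hw]
    · rw [v_cK]; exact hx w hw
  · rw [comp_rf, map_upper, e, ← mul_assoc, upper_inv, upper_mul]
    refine mul_mem (upper_mem ?_ ?_ ?_) hk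
    · rw [Units.val_mul, Units.val_inv_eq_inv_val, map_mul, map_inv₀]
      show (Valued.v (cK v (genK v ^ (-m))))⁻¹ * _ = 1
      rw [hvα, hm, inv_mul_cancel₀ exp_ne_zero]
    · rw [Units.val_mul, Units.val_inv_eq_inv_val, map_mul, map_inv₀]
      show (Valued.v (cK v (genK v ^ (-n))))⁻¹ * _ = 1
      rw [hvδ, hn, inv_mul_cancel₀ exp_ne_zero]
    · rw [Units.val_inv_eq_inv_val, Units.val_inv_eq_inv_val]
      show Valued.v ((cK v (genK v ^ (-m)))⁻¹ * b + -(cK v (genK v ^ (-m)))⁻¹ * cK v x *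
        (cK v (genK v ^ (-n)))⁻¹ * (d : Kv v)) ≤ 1
      have h1 : cK v (genK v ^ (-n)) ≠ 0 := by rw [Ne, map_eq_zero]; exact hδ
      have h2 : (d : Kv v) ≠ 0 := d.ne_zero
      have e1 : (cK v (genK v ^ (-m)))⁻¹ * b + -(cK v (genK v ^ (-m)))⁻¹ * cK v x *
          (cK v (genK v ^ (-n)))⁻¹ * (d : Kv v) =
          (cK v (genK v ^ (-m)))⁻¹ * ((cK v (genK v ^ (-n)))⁻¹ * (d : Kv v)) *
            (b * cK v (genK v ^ (-n)) / d - cK v x) := by
        field_simp
        ring
      rw [e1, map_mul, map_mul, map_mul, map_inv₀, map_inv₀, hvα, hvδ, hn,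
        inv_mul_cancel₀ exp_ne_zero, mul_one]
      calc (exp m)⁻¹ * _ ≤ (exp m)⁻¹ * exp m := by gcongr
        _ = 1 := inv_mul_cancel₀ exp_ne_zero

/-- Strong approximation, in the form `GL₂(𝔸_f) = B(K) GL₂(Ô)`. -/
lemma fin_decomp (g : GAf) : ∃ (α δ : Kˣ) (x : K), ∃ k ∈ Kf, g = rf (upper α δ x) * k := by
  classical
  have key : ∀ s : Finset Pl, ∀ g : GAf, (∀ v ∉ s, comp v g ∈ maxc (Kv v)) →
      ∃ (α δ : Kˣ) (x : K), ∃ k ∈ Kf, g = rf (upper α δ x) * k := by
    intro s
    induction s using Finset.induction_on with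
    | empty =>
      intro g hg
      refine ⟨1, 1, 0, g, mem_Kf.mpr fun v => hg v (by simp), ?_⟩
      have : (upper 1 1 0 : GL (Fin 2) K) = 1 := by apply gl_ext <;> simp
      rw [this, map_one, one_mul]
    | insert v s hv ih =>
      intro g hg
      obtain ⟨α, δ, x, h1, h2⟩ := local_B v (comp v g)
      obtain ⟨α', δ', x', k, hk, e⟩ := ih ((rf (upper α δ x))⁻¹ * g) (fun w hw => by
        rw [map_mul, map_inv]
        by_cases hwv : w = v
        · subst hwv; exact h2
        · exact mul_mem (inv_mem (h1 w hwv)) (hg w (by simp [hwv, hw])))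
      refine ⟨α * α', δ * δ', α * x' + x * δ', k, hk, ?_⟩
      rw [← upper_mul, map_mul, mul_assoc, ← e, mul_inv_cancel_left]
  obtain ⟨s, hs⟩ := eventually_maxc g
  exact key s g hs

lemma Oh_sub {x y : Af} (hx : x ∈ Oh) (hy : y ∈ Oh) : x - y ∈ Oh := fun v =>
  (Valuation.map_sub Valued.v (x v) (y v)).trans (max_le (hx v) (hy v))

/-- `𝔸_f = K + Ô`. -/
lemma add_decomp (x : Af) : ∃ κ : K, x - algebraMap K Af κ ∈ Oh := by
  classical
  have key : ∀ s : Finset Pl, ∀ x : Af, (∀ v ∉ s, Valued.v (x v) ≤ 1) →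
      ∃ κ : K, x - algebraMap K Af κ ∈ Oh := by
    intro s
    induction s using Finset.induction_on with
    | empty =>
      intro x hx
      refine ⟨0, ?_⟩
      rw [map_zero, sub_zero]
      exact fun v => hx v (by simp)
    | insert v s hv ih =>
      intro x hx
      obtain ⟨y, h1, h2⟩ := approx v (x v) 0
      obtain ⟨κ, hκ⟩ := ih (x - algebraMap K Af y) (fun w hw => by
        show Valued.v (x w - cK w y) ≤ 1
        by_cases hwv : w = v
        · subst hwv; exact h2
        · refine (Valuation.map_sub _ _ _).trans (max_le (hx w (by simp [hwv, hw])) ?_)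
          rw [v_cK]; exact h1 w hwv)
      refine ⟨y + κ, ?_⟩
      rw [map_add, ← sub_sub]
      exact hκ
  obtain ⟨s, hs⟩ := eventually_integral x
  exact key s x hs

/-- Integral elements of `K` are polynomials. -/
lemma exists_of_Oh {x : K} (hx : algebraMap K Af x ∈ Oh) : ∃ p : R, algebraMap R K p = x := by
  have := mem_integers_of_valuation_le_one K x fun v => by
    have := hx v
    rw [← v_cK]; exact this
  exact this

/-- `GL₂(K) ∩ GL₂(Ô) = GL₂(R)`. -/
lemma exists_of_Kf {γ : GL (Fin 2) K} (hγ : rf γ ∈ Kf) :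
    ∃ γ' : GL (Fin 2) R, Matrix.GeneralLinearGroup.map (algebraMap R K) γ' = γ := by
  rw [mem_Kf'] at hγ
  obtain ⟨h1, h2⟩ := hγ
  rw [← map_inv] at h2
  choose r hr using fun i j => exists_of_Oh (h1 i j)
  choose s hs using fun i j => exists_of_Oh (h2 i j)
  have hinj : Function.Injective fun M : Matrix (Fin 2) (Fin 2) R => M.map (algebraMap R K) :=
    Matrix.map_injective (IsFractionRing.injective R K)
  have e1 : (Matrix.of r).map (algebraMap R K) = (γ : Matrix (Fin 2) (Fin 2) K) := by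
    ext i j; exact hr i j
  have e2 : (Matrix.of s).map (algebraMap R K) = ((γ⁻¹ : GL (Fin 2) K) : Matrix (Fin 2) (Fin 2) K) := by
    ext i j; exact hs i j
  refine ⟨⟨Matrix.of r, Matrix.of s, hinj ?_, hinj ?_⟩, ?_⟩
  · show (Matrix.of r * Matrix.of s).map (algebraMap R K) = (1 : Matrix (Fin 2) (Fin 2) R).map _
    rw [Matrix.map_mul, e1, e2, ← Units.val_mul, mul_inv_cancel]
    simp
  · show (Matrix.of s * Matrix.of r).map (algebraMap R K) = (1 : Matrix (Fin 2) (Fin 2) R).map _
    rw [Matrix.map_mul, e1, e2, ← Units.val_mul, inv_mul_cancel]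
    simp
  · exact Units.ext e1

/-! ### Topology -/

instance : T2Space Af :=
  inferInstanceAs (T2Space (RestrictedProduct (fun v : Pl => v.adicCompletion K)
    (fun v => (v.adicCompletionIntegers K : Set (v.adicCompletion K))) Filter.cofinite))

lemma isOpen_Oh : IsOpen Oh := by
  have h := RestrictedProduct.isOpen_forall_mem (R := fun v : Pl => v.adicCompletion K)
    (A := fun v => (v.adicCompletionIntegers K : Set (v.adicCompletion K)))
    (fun v => Valued.isOpen_valuationSubring _)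
  exact h

instance (v : Pl) : CompactSpace ((v.adicCompletionIntegers K : Set (v.adicCompletion K)) : Type) :=
  isCompact_iff_compactSpace.mp (isCompact_Ov v)

lemma isCompact_Oh : IsCompact Oh := by
  have h := isCompact_range (RestrictedProduct.isEmbedding_structureMap
    (R := fun v : Pl => v.adicCompletion K)
    (A := fun v => (v.adicCompletionIntegers K : Set (v.adicCompletion K)))
    (𝓕 := Filter.cofinite)).continuous
  rw [RestrictedProduct.range_structureMap] at h
  exact h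

lemma isCompact_Kf : IsCompact (Kf : Set GAf) := by
  have h := isCompact_gl isCompact_Oh
  have e : (Kf : Set GAf) = {g : GAf | (∀ i j, g i j ∈ Oh) ∧ ∀ i j, (g⁻¹) i j ∈ Oh} := by
    ext g; exact mem_Kf'
  rw [e]; exact h

lemma isOpen_Kf : IsOpen (Kf : Set GAf) := by
  have e : (Kf : Set GAf) = (⋂ i, ⋂ j, {g : GAf | g i j ∈ Oh}) ∩
      ⋂ i, ⋂ j, {g : GAf | (g⁻¹) i j ∈ Oh} := by
    ext g
    simp only [Set.mem_inter_iff, Set.mem_iInter, Set.mem_ofPred_eq]
    exact mem_Kf'
  rw [e]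
  refine IsOpen.inter ?_ ?_ <;>
    refine isOpen_iInter_of_finite fun i => isOpen_iInter_of_finite fun j => ?_
  · exact isOpen_Oh.preimage (continuous_entry i j)
  · exact isOpen_Oh.preimage (continuous_entry_inv i j)

instance : CompactSpace Kf := isCompact_iff_compactSpace.mp isCompact_Kf

lemma mem_ratAdd (κ : K) : (algebraMap K Af κ, algebraMap K F κ) ∈ ratAdd :=
  mem_ratAdd_iff.mpr ⟨κ, rfl⟩

/-- `𝔸 = K + Ô × O_F`. -/
lemma add_decomp' (x : Af × F) : ∃ κ : K, x.1 - algebraMap K Af κ ∈ Oh ∧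
    Valued.v (x.2 - algebraMap K F κ) < 1 := by
  obtain ⟨κ, hκ⟩ := add_decomp x.1
  obtain ⟨p, hp⟩ := exists_poly (x.2 - algebraMap K F κ)
  refine ⟨κ + algebraMap R K p, ?_, ?_⟩
  · rw [map_add, ← sub_sub]
    refine Oh_sub hκ fun v => ?_
    show Valued.v (cK v (algebraMap R K p)) ≤ 1
    rw [v_cK]; exact valuation_le_one v p
  · rw [map_add, ← sub_sub]; exact hp

instance : CompactSpace AmodK := by
  have h1 : IsCompact (Oh ×ˢ {x : F | Valued.v x ≤ 1}) := isCompact_Oh.prod isCompact_OF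
  have h2 := h1.image (QuotientAddGroup.continuous_mk (N := ratAdd))
  refine ⟨?_⟩
  convert h2 using 1
  symm
  rw [Set.eq_univ_iff_forall]
  intro x
  induction x using QuotientAddGroup.induction_on with
  | H x =>
    obtain ⟨κ, h3, h4⟩ := add_decomp' x
    refine ⟨x - (algebraMap K Af κ, algebraMap K F κ), ⟨h3, h4.le⟩, ?_⟩
    rw [QuotientAddGroup.eq]
    have : -(x - (algebraMap K Af κ, algebraMap K F κ)) + x =
        (algebraMap K Af κ, algebraMap K F κ) := by abel
    rw [this]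
    exact mem_ratAdd κ

end

end Pool.Agent.Y806.LL
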