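import Pool.Agent.Y806.LL.GL2
import Pool.Agent.Y806.LL.FInf

/-! # `GL₂(F)`, `F = 𝔽₂((1/t))`: the Iwahori subgroup, decompositions, harmonic functions -/

open WithZero Topology

namespace Pool.Agent.Y806.LL

noncomputable section

lemma mul_lt_one_le_lt {a b : ℤᵐ⁰} (ha : a ≤ 1) (hb : b < 1) : a * b < 1 :=
  calc a * b ≤ 1 * b := by gcongr
    _ = b := one_mul _
    _ < 1 := hb

lemma mul_lt_one_lt_le {a b : ℤᵐ⁰} (ha : a < 1) (hb : b ≤ 1) : a * b < 1 := by
  rw [mul_comm]; exact mul_lt_one_le_lt hb ha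

/-- `t` as a unit of `F`. -/
def tu : Fˣ := Units.mk0 tF tF_ne

@[simp] lemma tu_val : (tu : F) = tF := rfl

lemma v_tu_zpow (n : ℤ) : Valued.v ((tu ^ n : Fˣ) : F) = exp n := by
  rw [Units.val_zpow_eq_zpow_val, tu_val, map_zpow₀, v_tF, ← exp_zsmul]; simp

/-- The scalar matrix `t`. -/
def zF : GF := upper tu tu 0

/-- The matrix `(t^n, 0; 0, 1)`. -/
def dg (n : ℤ) : GF := upper (tu ^ n) 1 0

/-- The matrix `(0, t; 1, 0)`. -/
def om : GF := dg 1 * wA F

/-- The matrix `(1, 1; 0, 1)`. -/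
def n1 : GF := upper 1 1 1

/-- `GL₂(O_F)` -/
def K0 : Subgroup GF := maxc F

/-- The Iwahori subgroup. -/
def Iw : Subgroup GF where
  carrier := {k | k ∈ K0 ∧ Valued.v (k 1 0) < 1}
  one_mem' := ⟨one_mem _, by simp⟩
  mul_mem' := by
    rintro g h ⟨hg, hg'⟩ ⟨hh, hh'⟩
    refine ⟨mul_mem hg hh, ?_⟩
    rw [mul10]
    refine Valuation.map_add_lt _ ?_ ?_ <;> rw [map_mul]
    · exact mul_lt_one_lt_le hg' (hh.1 _ _)
    · exact mul_lt_one_le_lt (hg.1 _ _) hh'
  inv_mem' := by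
    rintro g ⟨hg, hg'⟩
    refine ⟨inv_mem hg, ?_⟩
    obtain ⟨-, -, e, -⟩ := inv_entries g
    rw [e, Valuation.map_neg, map_mul]
    have : Valued.v (((g.det⁻¹ : Fˣ) : F)) = 1 := by
      rw [Units.val_inv_eq_inv_val, map_inv₀, (mem_maxc.mp hg).2, inv_one]
    rw [this, one_mul]; exact hg'

lemma Iw_le : Iw ≤ K0 := fun _ h => h.1

lemma mem_Iw {g : GF} : g ∈ Iw ↔ g ∈ K0 ∧ Valued.v (g 1 0) < 1 := Iff.rfl

lemma two_F : (1 : F) + 1 = 0 := by
  have h : (1 : R) + 1 = 0 := by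
    have : (1 : Polynomial (ZMod 2)) + 1 = Polynomial.C (1 + 1) := by simp
    rw [this]; have : (1 : ZMod 2) + 1 = 0 := by decide
    rw [this, map_zero]
  have := congrArg pF h
  simpa using this

lemma n1_mem : n1 ∈ Iw := ⟨upper_mem (by simp) (by simp) (by simp), by simp [n1]⟩

lemma wF_mem : wA F ∈ K0 := wA_mem

lemma zF_comm (g : GF) : zF * g = g * zF := by
  apply gl_ext <;>
    simp [mul00, mul01, mul10, mul11, -Matrix.GeneralLinearGroup.coe_mul, zF, mul_comm]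

lemma zF_zpow_comm (m : ℤ) (g : GF) : zF ^ m * g = g * zF ^ m :=
  ((show Commute zF g from zF_comm g).zpow_left m).eq

lemma om_sq : om * om = zF := by
  apply gl_ext <;>
    simp [mul00, mul01, mul10, mul11, -Matrix.GeneralLinearGroup.coe_mul, zF, om, dg]

lemma dg_mul (m n : ℤ) : dg m * dg n = dg (m + n) := by
  rw [dg, dg, upper_mul, dg, zpow_add]; simp

lemma dg_zero : dg 0 = 1 := by
  apply gl_ext <;> simp [dg]

lemma dg_mul_w (n : ℤ) : dg n * wA F = dg (n - 1) * om := by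
  rw [om, ← mul_assoc, dg_mul]; congr 2; ring

lemma dg_mul_n1w (n : ℤ) :
    dg n * (n1 * wA F) = lowA (((tu ^ (-n) : Fˣ) : F)) * dg n * n1 := by
  have h2 := two_F
  have h3 : (tF ^ n)⁻¹ * tF ^ n = 1 := inv_mul_cancel₀ (zpow_ne_zero n tF_ne)
  apply gl_ext <;>
    simp [mul00, mul01, mul10, mul11, -Matrix.GeneralLinearGroup.coe_mul, dg, n1, h2, h3]

lemma om_conj {i : GF} (hi : i ∈ Iw) : om * i * om⁻¹ ∈ Iw := by
  -- `om * i = (t c, t d; a, b)`
  have hc : Valued.v (tF * i 1 0) ≤ 1 := by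
    rw [map_mul, v_tF]
    calc exp (1 : ℤ) * Valued.v (i 1 0) ≤ exp (1 : ℤ) * exp (-1 : ℤ) := by
          gcongr; exact le_exp_of_lt_one hi.2
      _ = 1 := by rw [← exp_add]; simp
  have hk := mem_maxc.mp hi.1
  have hdet : Valued.v ((om * i * om⁻¹).det : F) = 1 := by
    rw [map_mul, map_mul, map_inv, mul_inv_cancel_comm]; exact hk.2
  have hinv : om⁻¹ = wA F * dg (-1) := by
    rw [om, mul_inv_rev, wA_inv]; congr 1
    rw [inv_eq_iff_mul_eq_one, dg_mul]; simp [dg_zero]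
  have e00 : (om * i * om⁻¹) 0 0 = i 1 1 := by
    rw [hinv]
    simp [mul00, mul01, mul10, mul11, -Matrix.GeneralLinearGroup.coe_mul, om, dg]
    try field_simp [tF_ne]
  have e01 : (om * i * om⁻¹) 0 1 = tF * i 1 0 := by
    rw [hinv]
    simp [mul00, mul01, mul10, mul11, -Matrix.GeneralLinearGroup.coe_mul, om, dg]
  have e10 : (om * i * om⁻¹) 1 0 = i 0 1 * tF⁻¹ := by
    rw [hinv]
    simp [mul00, mul01, mul10, mul11, -Matrix.GeneralLinearGroup.coe_mul, om, dg]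
  have e11 : (om * i * om⁻¹) 1 1 = i 0 0 := by
    rw [hinv]
    simp [mul00, mul01, mul10, mul11, -Matrix.GeneralLinearGroup.coe_mul, om, dg]
  have h10 : Valued.v (i 0 1 * tF⁻¹) < 1 := by
    rw [map_mul, v_tF_inv]
    refine mul_lt_one_le_lt (hk.1 _ _) ?_
    rw [← exp_zero, exp_lt_exp]; norm_num
  refine ⟨mem_maxc.mpr ⟨forall_fin2 ?_ ?_ ?_ ?_, hdet⟩, ?_⟩
  · rw [e00]; exact hk.1 _ _
  · rw [e01]; exact hc
  · rw [e10]; exact h10.le
  · rw [e11]; exact hk.1 _ _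
  · rw [e10]; exact h10

lemma om_conj' {i : GF} (hi : i ∈ Iw) : om⁻¹ * i * om ∈ Iw := by
  have h := om_conj hi
  have : om⁻¹ * i * om = om * i * om⁻¹ := by
    have hz : om⁻¹ = om * zF⁻¹ := by
      rw [← om_sq]; group
    have hz' : om = zF * om⁻¹ := by rw [← om_sq]; group
    calc om⁻¹ * i * om = om * zF⁻¹ * i * (zF * om⁻¹) := by rw [← hz, ← hz']
      _ = om * (zF⁻¹ * (i * zF)) * om⁻¹ := by group
      _ = om * i * om⁻¹ := by rw [← zF_comm]; group
  rw [this]; exact h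

/-- `GL₂(O) = I ∪ w I ∪ n w I`. -/
lemma K0_cases {k : GF} (hk : k ∈ K0) :
    k ∈ Iw ∨ (wA F)⁻¹ * k ∈ Iw ∨ (n1 * wA F)⁻¹ * k ∈ Iw := by
  by_cases hc : Valued.v (k 1 0) < 1
  · exact Or.inl ⟨hk, hc⟩
  have hc1 : Valued.v (k 1 0) = 1 := le_antisymm (hk.1 _ _) (not_lt.mp hc)
  by_cases ha : Valued.v (k 0 0) < 1
  · right; left
    refine ⟨mul_mem (inv_mem wF_mem) hk, ?_⟩
    rw [wA_inv, mul10]; simpa using ha
  right; right
  have ha1 : Valued.v (k 0 0 - 1) < 1 := (residue_cases (hk.1 _ _)).resolve_left ha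
  have hc2 : Valued.v (k 1 0 - 1) < 1 := (residue_cases (hk.1 _ _)).resolve_left hc
  have hn : n1 * wA F ∈ K0 := mul_mem (Iw_le n1_mem) wF_mem
  refine ⟨mul_mem (inv_mem hn) hk, ?_⟩
  have : ((n1 * wA F)⁻¹ * k) 1 0 = (k 0 0 - 1) - (k 1 0 - 1) := by
    rw [mul_inv_rev, wA_inv, n1, upper_inv, mul10, mul10, mul11]
    simp
    ring
  rw [this]
  exact (Valuation.map_sub _ _ _).trans_lt (max_lt ha1 hc2)

lemma conj_low {k : GF} (hk : k ∈ K0) {x : F} (hx : Valued.v x < 1) :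
    k * lowA x * k⁻¹ ∈ Iw := by
  refine ⟨mul_mem (mul_mem hk (lowA_mem hx.le)) (inv_mem hk), ?_⟩
  have h1 : k 1 0 * (k⁻¹) 0 0 + k 1 1 * (k⁻¹) 1 0 = 0 := by
    rw [← mul10, mul_inv_cancel]; simp
  have : (k * lowA x * k⁻¹) 1 0 = x * (k 1 1 * (k⁻¹) 0 0) := by
    rw [mul10, mul10, mul11]
    simp only [lowA_00, lowA_01, lowA_10, lowA_11]
    linear_combination h1
  rw [this, map_mul, map_mul]
  exact mul_lt_one_lt_le hx (mul_le_one' (hk.1 _ _) (hk.2 _ _))

lemma v_tu_neg_lt {n : ℕ} (hn : 1 ≤ n) : Valued.v ((tu ^ (-(n : ℤ)) : Fˣ) : F) < 1 := by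
  rw [v_tu_zpow, ← exp_zero, exp_lt_exp]; omega

/-- Cartan decomposition, with the power of `t` made explicit. -/
lemma cartanF (g : GF) : ∃ k ∈ K0, ∃ n : ℕ, ∃ k' ∈ K0, ∃ m : ℤ, g = k * dg n * k' * zF ^ m := by
  obtain ⟨a, d, had, k, hk, k', hk', e⟩ := cartan g
  obtain ⟨A, hA, hA'⟩ := exists_zpow a.ne_zero
  obtain ⟨D, hD, hD'⟩ := exists_zpow d.ne_zero
  have hAD : D ≤ A := by rw [hA', hD', exp_le_exp] at had; exact had
  have hzm : ∀ m : ℤ, zF ^ m = upper (tu ^ m) (tu ^ m) 0 := by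
    intro m
    have h : ∀ n : ℕ, zF ^ n = upper (tu ^ n) (tu ^ n) 0 := by
      intro n
      induction n with
      | zero => apply gl_ext <;> simp
      | succ n ih => rw [pow_succ, ih, zF, upper_mul]; simp [pow_succ]
    cases m with
    | ofNat n => simpa using h n
    | negSucc n =>
      rw [zpow_negSucc, h, upper_inv, zpow_negSucc]; simp
  refine ⟨k, hk, (A - D).toNat, upper (a * tu ^ (-A)) (d * tu ^ (-D)) 0 * k',
    mul_mem (upper_mem ?_ ?_ (by simp)) hk', D, ?_⟩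
  · rw [Units.val_mul, Units.val_zpow_eq_zpow_val, tu_val]; exact hA
  · rw [Units.val_mul, Units.val_zpow_eq_zpow_val, tu_val]; exact hD
  · rw [e, mul_assoc k, mul_assoc k, mul_assoc k]
    congr 1
    rw [mul_assoc (dg _), mul_assoc (upper _ _ _), ← zF_zpow_comm, ← mul_assoc (upper _ _ _),
      hzm, dg, ← mul_assoc, ← mul_assoc, upper_mul, upper_mul]
    have h1 : ((A - D).toNat : ℤ) = A - D := Int.toNat_of_nonneg (by omega)
    rw [h1]
    have h2 : tu ^ (A - D) * (a * tu ^ (-A)) * tu ^ D = a := by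
      rw [mul_comm (tu ^ (A - D)), mul_assoc, mul_assoc, ← zpow_add, ← zpow_add]
      simp
    have h3 : 1 * (d * tu ^ (-D)) * tu ^ D = d := by
      rw [one_mul, mul_assoc, ← zpow_add]; simp
    rw [h2, h3]; simp

/-- Every element of `GL₂(F)` is in `K d_n I ω^m`. -/
lemma decomp (g : GF) : ∃ k ∈ K0, ∃ n : ℕ, ∃ i ∈ Iw, ∃ m : ℤ, g = k * dg n * i * om ^ m := by
  obtain ⟨k, hk, n, k', hk', m, e⟩ := cartanF g
  have hz : zF ^ m = om ^ (2 * m) := by rw [← om_sq, ← pow_two, ← zpow_natCast, ← zpow_mul]; rfl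
  rcases K0_cases hk' with h | h | h
  · exact ⟨k, hk, n, k', h, 2 * m, by rw [e, hz]⟩
  · set i := (wA F)⁻¹ * k' with hi
    have hk'e : k' = wA F * i := by rw [hi]; group
    rcases Nat.eq_zero_or_pos n with h0 | h0
    · refine ⟨k * wA F, mul_mem hk wF_mem, 0, i, h, 2 * m, ?_⟩
      rw [e, h0, hz, hk'e]
      simp only [Nat.cast_zero, dg_zero, mul_one, mul_assoc]
    · refine ⟨k, hk, n - 1, om * i * om⁻¹, om_conj h, 1 + 2 * m, ?_⟩
      have h1 : ((n - 1 : ℕ) : ℤ) = (n : ℤ) - 1 := by push_cast [Nat.cast_sub h0]; ring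
      rw [e, hz, hk'e, h1, zpow_add, zpow_one]
      calc k * dg n * (wA F * i) * om ^ (2 * m) = k * (dg n * wA F) * i * om ^ (2 * m) := by group
        _ = k * dg (n - 1) * om * i * om ^ (2 * m) := by rw [dg_mul_w]; group
        _ = k * dg (n - 1) * (om * i * om⁻¹) * (om * om ^ (2 * m)) := by group
  · set i := (n1 * wA F)⁻¹ * k' with hi
    have hk'e : k' = (n1 * wA F) * i := by rw [hi]; group
    refine ⟨k * lowA (((tu ^ (-(n : ℤ)) : Fˣ) : F)), mul_mem hk (lowA_mem ?_), n, n1 * i,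
      mul_mem n1_mem h, 2 * m, ?_⟩
    · rw [v_tu_zpow, ← exp_zero, exp_le_exp]; omega
    · rw [e, hz, hk'e]
      calc k * dg n * (n1 * wA F * i) * om ^ (2 * m)
          = k * (dg n * (n1 * wA F)) * i * om ^ (2 * m) := by group
        _ = _ := by rw [dg_mul_n1w]; group

/-- Functions on the edges of the tree which are harmonic up to the constant `c`. -/
structure Harm (c : ℂ) (f : GF → ℂ) : Prop where
  iw : ∀ i ∈ Iw, ∀ g, f (g * i) = f g
  om : ∀ g, f (g * om) = -f g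
  sum : ∀ g, f g + f (g * wA F) + f (g * (n1 * wA F)) = c

lemma Harm.om_zpow {c : ℂ} {f : GF → ℂ} (hf : Harm c f) (g : GF) (m : ℤ) :
    f (g * Pool.Agent.Y806.LL.om ^ m) = (-1) ^ m * f g := by
  have h : ∀ n : ℕ, ∀ g, f (g * Pool.Agent.Y806.LL.om ^ n) = (-1) ^ n * f g := by
    intro n
    induction n with
    | zero => intro g; simp
    | succ n ih => intro g; rw [pow_succ, ← mul_assoc, hf.om, ih]; ring
  cases m with
  | ofNat n => simpa using h n g
  | negSucc n =>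
    have := h (n + 1) (g * Pool.Agent.Y806.LL.om ^ (Int.negSucc n))
    rw [zpow_negSucc, mul_assoc, inv_mul_cancel, mul_one] at this
    rw [zpow_negSucc, zpow_negSucc, this, ← mul_assoc, inv_mul_cancel₀, one_mul]
    exact pow_ne_zero _ (by norm_num)

lemma Harm.step {c : ℂ} {f : GF → ℂ} (hf : Harm c f) {k : GF} {n : ℤ}
    (hinv : ∀ g, f (k * lowA (((tu ^ (-n) : Fˣ) : F)) * k⁻¹ * g) = f g) :
    2 * f (k * dg n) - f (k * dg (n - 1)) = c := by
  have h := hf.sum (k * dg n)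
  have h1 : f (k * dg n * wA F) = - f (k * dg (n - 1)) := by
    rw [mul_assoc, dg_mul_w, ← mul_assoc, hf.om]
  have h2 : f (k * dg n * (n1 * wA F)) = f (k * dg n) := by
    rw [mul_assoc, dg_mul_n1w, ← mul_assoc, hf.iw _ n1_mem, ← hinv (k * dg n)]
    congr 1; group
  rw [h1, h2] at h
  linear_combination h

/-- A left `I`-invariant harmonic function is determined by its value at `1`. -/
theorem Harm.eq_zero {f : GF → ℂ} (hf : Harm 0 f) (hl : ∀ i ∈ Iw, ∀ g, f (i * g) = f g)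
    (h1 : f 1 = 0) : ∀ g, f g = 0 := by
  have hw : f (wA F) = 0 := by
    have h := hf.sum 1
    rw [one_mul, one_mul, hl _ n1_mem, h1] at h
    linear_combination h / 2
  have hK : ∀ k ∈ K0, f k = 0 := by
    intro k hk
    rcases K0_cases hk with h | h | h
    · rw [← one_mul k, hf.iw _ h, h1]
    · have : k = wA F * ((wA F)⁻¹ * k) := by group
      rw [this, hf.iw _ h, hw]
    · have : k = n1 * (wA F * ((n1 * wA F)⁻¹ * k)) := by group
      rw [this, hl _ n1_mem, hf.iw _ h, hw]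
  have hd : ∀ n : ℕ, ∀ k ∈ K0, f (k * dg n) = 0 := by
    intro n
    induction n with
    | zero => intro k hk; rw [Nat.cast_zero, dg_zero, mul_one]; exact hK k hk
    | succ n ih =>
      intro k hk
      have hs := hf.step (k := k) (n := ((n + 1 : ℕ) : ℤ)) (fun g => hl _
        (conj_low hk (v_tu_neg_lt (Nat.succ_le_succ (Nat.zero_le n)))) g)
      have h1 : (((n + 1 : ℕ) : ℤ) - 1) = (n : ℤ) := by push_cast; ring
      rw [h1, ih k hk] at hs
      linear_combination hs / 2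
  intro g
  obtain ⟨k, hk, n, i, hi, m, e⟩ := decomp g
  rw [e, hf.om_zpow, hf.iw _ hi, hd n k hk, mul_zero]

/-- There are no nonzero left `GL₂(O)`-invariant harmonic functions. -/
theorem Harm.eq_zero_of_K0 {f : GF → ℂ} (hf : Harm 0 f) (hl : ∀ i ∈ K0, ∀ g, f (i * g) = f g) :
    ∀ g, f g = 0 := by
  refine hf.eq_zero (fun i hi => hl i (Iw_le hi)) ?_
  have h := hf.sum 1
  have hn : n1 * wA F ∈ K0 := mul_mem (Iw_le n1_mem) wF_mem
  have e1 := hl _ wF_mem 1
  have e2 := hl _ hn 1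
  rw [one_mul, one_mul] at h
  rw [mul_one] at e1 e2
  rw [e1, e2] at h
  linear_combination h / 3

end

end Pool.Agent.Y806.LL
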