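import Pool.Agent.Y806.LL.Defs
import Pool.Agent.Y806.LL.VF

/-! # `GL₂` of a valued field: maximal compact subgroup, Iwasawa and Cartan decompositions -/

open WithZero Topology

namespace Pool.Agent.Y806.LL

noncomputable section

section ring

variable {A : Type} [CommRing A]

lemma gl_ext {g h : GL (Fin 2) A} (h00 : g 0 0 = h 0 0) (h01 : g 0 1 = h 0 1)
    (h10 : g 1 0 = h 1 0) (h11 : g 1 1 = h 1 1) : g = h := by
  apply Units.ext
  ext i j
  fin_cases i <;> fin_cases j <;> assumption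

lemma mul00 (g h : GL (Fin 2) A) : (g * h) 0 0 = g 0 0 * h 0 0 + g 0 1 * h 1 0 := by
  simp [Matrix.mul_apply, Fin.sum_univ_two]
lemma mul01 (g h : GL (Fin 2) A) : (g * h) 0 1 = g 0 0 * h 0 1 + g 0 1 * h 1 1 := by
  simp [Matrix.mul_apply, Fin.sum_univ_two]
lemma mul10 (g h : GL (Fin 2) A) : (g * h) 1 0 = g 1 0 * h 0 0 + g 1 1 * h 1 0 := by
  simp [Matrix.mul_apply, Fin.sum_univ_two]
lemma mul11 (g h : GL (Fin 2) A) : (g * h) 1 1 = g 1 0 * h 0 1 + g 1 1 * h 1 1 := by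
  simp [Matrix.mul_apply, Fin.sum_univ_two]

/-- `(0,1;1,0)` -/
def wA (A : Type) [CommRing A] : GL (Fin 2) A where
  val := !![0, 1; 1, 0]
  inv := !![0, 1; 1, 0]
  val_inv := by
    ext i j; fin_cases i <;> fin_cases j <;> simp [Matrix.mul_apply, Fin.sum_univ_two]
  inv_val := by
    ext i j; fin_cases i <;> fin_cases j <;> simp [Matrix.mul_apply, Fin.sum_univ_two]

/-- `(1,0;x,1)` -/
def lowA (x : A) : GL (Fin 2) A where
  val := !![1, 0; x, 1]
  inv := !![1, 0; -x, 1]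
  val_inv := by
    ext i j; fin_cases i <;> fin_cases j <;> simp [Matrix.mul_apply, Fin.sum_univ_two]
  inv_val := by
    ext i j; fin_cases i <;> fin_cases j <;> simp [Matrix.mul_apply, Fin.sum_univ_two]

@[simp] lemma wA_00 : (wA A) 0 0 = 0 := rfl
@[simp] lemma wA_01 : (wA A) 0 1 = 1 := rfl
@[simp] lemma wA_10 : (wA A) 1 0 = 1 := rfl
@[simp] lemma wA_11 : (wA A) 1 1 = 0 := rfl
@[simp] lemma lowA_00 (x : A) : (lowA x) 0 0 = 1 := rfl
@[simp] lemma lowA_01 (x : A) : (lowA x) 0 1 = 0 := rfl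
@[simp] lemma lowA_10 (x : A) : (lowA x) 1 0 = x := rfl
@[simp] lemma lowA_11 (x : A) : (lowA x) 1 1 = 1 := rfl
@[simp] lemma upper_00 (a d : Aˣ) (b : A) : (upper a d b) 0 0 = a := rfl
@[simp] lemma upper_01 (a d : Aˣ) (b : A) : (upper a d b) 0 1 = b := rfl
@[simp] lemma upper_10 (a d : Aˣ) (b : A) : (upper a d b) 1 0 = 0 := rfl
@[simp] lemma upper_11 (a d : Aˣ) (b : A) : (upper a d b) 1 1 = d := rfl

lemma wA_mul_self : wA A * wA A = 1 := by
  apply gl_ext <;> simp [mul00, mul01, mul10, mul11, -Matrix.GeneralLinearGroup.coe_mul]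

lemma wA_inv : (wA A)⁻¹ = wA A := inv_eq_of_mul_eq_one_left wA_mul_self

lemma lowA_inv (x : A) : (lowA x)⁻¹ = lowA (-x) := Units.ext rfl

lemma upper_inv (a d : Aˣ) (b : A) :
    (upper a d b)⁻¹ = upper a⁻¹ d⁻¹ (-((a⁻¹ : Aˣ) : A) * b * ((d⁻¹ : Aˣ) : A)) := Units.ext rfl

lemma upper_mul (a d a' d' : Aˣ) (b b' : A) :
    upper a d b * upper a' d' b' = upper (a * a') (d * d') (a * b' + b * d') := by
  apply gl_ext <;> simp [mul00, mul01, mul10, mul11, -Matrix.GeneralLinearGroup.coe_mul]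

lemma det2 (g : GL (Fin 2) A) : (g.det : A) = g 0 0 * g 1 1 - g 0 1 * g 1 0 := by
  simp [Matrix.det_fin_two]

lemma inv_entries (g : GL (Fin 2) A) :
    (g⁻¹) 0 0 = ((g.det⁻¹ : Aˣ) : A) * g 1 1 ∧ (g⁻¹) 0 1 = - (((g.det⁻¹ : Aˣ) : A) * g 0 1) ∧
    (g⁻¹) 1 0 = - (((g.det⁻¹ : Aˣ) : A) * g 1 0) ∧ (g⁻¹) 1 1 = ((g.det⁻¹ : Aˣ) : A) * g 0 0 := by
  have hd : ((g.det⁻¹ : Aˣ) : A) * (g 0 0 * g 1 1 - g 0 1 * g 1 0) = 1 := by
    rw [← det2]; exact Units.inv_mul _
  generalize ((g.det⁻¹ : Aˣ) : A) = δ at hd ⊢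
  have key : ∀ i j, (g⁻¹) i j =
      δ * (!![g 1 1, -g 0 1; -g 1 0, g 0 0] : Matrix (Fin 2) (Fin 2) A) i j := by
    intro i j
    have h1 : (g : Matrix (Fin 2) (Fin 2) A) * (δ • !![g 1 1, -g 0 1; -g 1 0, g 0 0]) = 1 := by
      ext i j
      fin_cases i <;> fin_cases j <;>
        simp [Matrix.mul_apply, Fin.sum_univ_two] <;> first | ring1 | linear_combination hd
    have h2 : ((g⁻¹ : GL (Fin 2) A) : Matrix (Fin 2) (Fin 2) A) = δ • !![g 1 1, -g 0 1; -g 1 0, g 0 0] := by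
      have h3 : ((g⁻¹ : GL (Fin 2) A) : Matrix (Fin 2) (Fin 2) A) * (g : Matrix (Fin 2) (Fin 2) A) = 1 := by
        rw [← Units.val_mul, inv_mul_cancel]; rfl
      calc ((g⁻¹ : GL (Fin 2) A) : Matrix (Fin 2) (Fin 2) A) = ((g⁻¹ : GL (Fin 2) A) : Matrix (Fin 2) (Fin 2) A) * 1 := by rw [mul_one]
        _ = _ := by rw [← h1, ← mul_assoc, h3, one_mul]
    show ((g⁻¹ : GL (Fin 2) A) : Matrix (Fin 2) (Fin 2) A) i j = _
    rw [h2]; rfl
  refine ⟨?_, ?_, ?_, ?_⟩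
  · simpa using key 0 0
  · simpa using key 0 1
  · simpa using key 1 0
  · simpa using key 1 1

end ring

section field

variable {L : Type} [Field L] [hv : Valued L ℤᵐ⁰]

/-- The maximal compact subgroup `GL₂(O)`. -/
def maxc (L : Type) [Field L] [Valued L ℤᵐ⁰] : Subgroup (GL (Fin 2) L) where
  carrier := {g | (∀ i j, Valued.v (g i j) ≤ 1) ∧ ∀ i j, Valued.v (g⁻¹ i j) ≤ 1}
  one_mem' := by
    have : ∀ i j : Fin 2, Valued.v ((1 : GL (Fin 2) L) i j) ≤ 1 := by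
      intro i j; fin_cases i <;> fin_cases j <;> simp
    exact ⟨this, by rw [inv_one]; exact this⟩
  mul_mem' := by
    have key : ∀ g h : GL (Fin 2) L, (∀ i j, Valued.v (g i j) ≤ 1) → (∀ i j, Valued.v (h i j) ≤ 1) →
        ∀ i j, Valued.v ((g * h) i j) ≤ 1 := by
      intro g h hg hh i j
      have e : (g * h) i j = g i 0 * h 0 j + g i 1 * h 1 j := by
        simp [Matrix.mul_apply, Fin.sum_univ_two]
      rw [e]
      refine (Valuation.map_add _ _ _).trans (max_le ?_ ?_) <;> rw [map_mul]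
      · exact mul_le_one' (hg _ _) (hh _ _)
      · exact mul_le_one' (hg _ _) (hh _ _)
    intro g h hg hh
    exact ⟨key _ _ hg.1 hh.1, by rw [mul_inv_rev]; exact key _ _ hh.2 hg.2⟩
  inv_mem' := fun {g} hg => ⟨hg.2, by rw [inv_inv]; exact hg.1⟩

lemma mem_maxc {g : GL (Fin 2) L} :
    g ∈ maxc L ↔ (∀ i j, Valued.v (g i j) ≤ 1) ∧ Valued.v (g.det : L) = 1 := by
  have hdle : ∀ g : GL (Fin 2) L, (∀ i j, Valued.v (g i j) ≤ 1) → Valued.v (g.det : L) ≤ 1 := by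
    intro g hg
    rw [det2]
    refine (Valuation.map_sub _ _ _).trans (max_le ?_ ?_) <;> rw [map_mul]
    · exact mul_le_one' (hg _ _) (hg _ _)
    · exact mul_le_one' (hg _ _) (hg _ _)
  constructor
  · rintro ⟨h1, h2⟩
    refine ⟨h1, le_antisymm (hdle g h1) ?_⟩
    have h3 := hdle g⁻¹ h2
    have h4 : ((g⁻¹).det : L) = ((g.det : L))⁻¹ := by rw [map_inv]; simp
    rw [h4, map_inv₀] at h3
    have h5 : Valued.v (g.det : L) ≠ 0 := (Valuation.ne_zero_iff _).mpr g.det.ne_zero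
    exact (inv_le_one₀ (zero_lt_iff.mpr h5)).mp h3
  · rintro ⟨h1, h2⟩
    refine ⟨h1, ?_⟩
    obtain ⟨e00, e01, e10, e11⟩ := inv_entries g
    have hdi : Valued.v (((g.det⁻¹ : Lˣ) : L)) = 1 := by
      rw [Units.val_inv_eq_inv_val, map_inv₀, h2, inv_one]
    intro i j
    fin_cases i <;> fin_cases j
    · show Valued.v ((g⁻¹) 0 0) ≤ 1
      rw [e00, map_mul, hdi, one_mul]; exact h1 _ _
    · show Valued.v ((g⁻¹) 0 1) ≤ 1
      rw [e01, Valuation.map_neg, map_mul, hdi, one_mul]; exact h1 _ _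
    · show Valued.v ((g⁻¹) 1 0) ≤ 1
      rw [e10, Valuation.map_neg, map_mul, hdi, one_mul]; exact h1 _ _
    · show Valued.v ((g⁻¹) 1 1) ≤ 1
      rw [e11, map_mul, hdi, one_mul]; exact h1 _ _

lemma forall_fin2 {P : Fin 2 → Fin 2 → Prop} (h00 : P 0 0) (h01 : P 0 1) (h10 : P 1 0)
    (h11 : P 1 1) : ∀ i j, P i j := by
  intro i j; fin_cases i <;> fin_cases j <;> assumption

lemma wA_mem : wA L ∈ maxc L := by
  rw [mem_maxc]
  refine ⟨forall_fin2 ?_ ?_ ?_ ?_, ?_⟩ <;> simp [det2, -Matrix.GeneralLinearGroup.val_det_apply]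

lemma lowA_mem {x : L} (hx : Valued.v x ≤ 1) : lowA x ∈ maxc L := by
  rw [mem_maxc]
  refine ⟨forall_fin2 ?_ ?_ ?_ ?_, ?_⟩ <;> simp [det2, -Matrix.GeneralLinearGroup.val_det_apply, hx]

lemma upper_mem {a d : Lˣ} {b : L} (ha : Valued.v (a : L) = 1) (hd : Valued.v (d : L) = 1)
    (hb : Valued.v b ≤ 1) : upper a d b ∈ maxc L := by
  rw [mem_maxc]
  refine ⟨forall_fin2 ?_ ?_ ?_ ?_, ?_⟩ <;>
    simp [det2, -Matrix.GeneralLinearGroup.val_det_apply, ha, hd, hb]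

/-- Iwasawa decomposition. -/
lemma iwasawa (g : GL (Fin 2) L) : ∃ (a d : Lˣ) (b : L), ∃ k ∈ maxc L, g = upper a d b * k := by
  -- the case of a dominant last entry
  have key : ∀ g : GL (Fin 2) L, Valued.v (g 1 0) ≤ Valued.v (g 1 1) →
      ∃ (a d : Lˣ) (b : L), ∃ k ∈ maxc L, g = upper a d b * k := by
    intro g hg
    have hd : g 1 1 ≠ 0 := by
      intro h0
      rw [h0, map_zero, le_zero_iff, Valuation.zero_iff] at hg
      have h2 := det2 g
      rw [h0, hg, mul_zero, mul_zero, sub_zero] at h2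
      exact g.det.ne_zero h2
    have ha : g 0 0 - g 0 1 * (g 1 0 / g 1 1) ≠ 0 := by
      intro h0
      have h2 := det2 g
      have h3 : (g.det : L) = g 1 1 * (g 0 0 - g 0 1 * (g 1 0 / g 1 1)) := by
        rw [h2]; field_simp
      rw [h0, mul_zero] at h3
      exact g.det.ne_zero h3
    refine ⟨Units.mk0 _ ha, Units.mk0 _ hd, g 0 1, lowA (g 1 0 / g 1 1), lowA_mem ?_, ?_⟩
    · rw [map_div₀]; exact div_le_one_of_le₀ hg (by simp)
    · apply gl_ext <;> simp [mul00, mul01, mul10, mul11, -Matrix.GeneralLinearGroup.coe_mul]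
      field_simp
  rcases le_total (Valued.v (g 1 0)) (Valued.v (g 1 1)) with h | h
  · exact key g h
  · obtain ⟨a, d, b, k, hk, e⟩ := key (g * wA L) (by rw [mul10, mul11]; simpa using h)
    refine ⟨a, d, b, k * wA L, mul_mem hk wA_mem, ?_⟩
    rw [← mul_assoc, ← e, mul_assoc, wA_mul_self, mul_one]

/-- Cartan decomposition. -/
lemma cartan (g : GL (Fin 2) L) : ∃ (a d : Lˣ), Valued.v (d : L) ≤ Valued.v (a : L) ∧
    ∃ k ∈ maxc L, ∃ k' ∈ maxc L, g = k * upper a d 0 * k' := by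
  have key : ∀ g : GL (Fin 2) L, (∀ i j, Valued.v (g i j) ≤ Valued.v (g 0 0)) →
      ∃ (a d : Lˣ), Valued.v (d : L) ≤ Valued.v (a : L) ∧
        ∃ k ∈ maxc L, ∃ k' ∈ maxc L, g = k * upper a d 0 * k' := by
    intro g hg
    have ha : g 0 0 ≠ 0 := by
      intro h0
      have h1 : ∀ i j, g i j = 0 := by
        intro i j
        have := hg i j
        rw [h0, map_zero, le_zero_iff, Valuation.zero_iff] at this
        exact this
      have h2 := det2 g
      rw [h1, h1, h1, zero_mul, zero_mul, sub_zero] at h2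
      exact g.det.ne_zero h2
    have hd : g 1 1 - g 1 0 * g 0 1 / g 0 0 ≠ 0 := by
      intro h0
      have h2 := det2 g
      have h3 : (g.det : L) = g 0 0 * (g 1 1 - g 1 0 * g 0 1 / g 0 0) := by
        rw [h2]; field_simp
      rw [h0, mul_zero] at h3
      exact g.det.ne_zero h3
    have hva : 0 < Valued.v (g 0 0) := zero_lt_iff.mpr ((Valuation.ne_zero_iff _).mpr ha)
    refine ⟨Units.mk0 _ ha, Units.mk0 _ hd, ?_, lowA (g 1 0 / g 0 0), lowA_mem ?_,
      upper 1 1 (g 0 1 / g 0 0), upper_mem (by simp) (by simp) ?_, ?_⟩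
    · show Valued.v (g 1 1 - g 1 0 * g 0 1 / g 0 0) ≤ Valued.v (g 0 0)
      refine (Valuation.map_sub _ _ _).trans (max_le (hg _ _) ?_)
      rw [map_div₀, map_mul, div_le_iff₀ hva]
      gcongr
      · exact hg _ _
      · exact hg _ _
    · rw [map_div₀]; exact div_le_one_of_le₀ (hg _ _) (by simp)
    · rw [map_div₀]; exact div_le_one_of_le₀ (hg _ _) (by simp)
    · apply gl_ext <;> simp [mul00, mul01, mul10, mul11, -Matrix.GeneralLinearGroup.coe_mul] <;>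
        field_simp
      ring
  -- bring the largest entry to the upper left corner
  obtain ⟨i₀, j₀, h⟩ : ∃ i₀ j₀, ∀ i j, Valued.v (g i j) ≤ Valued.v (g i₀ j₀) := by
    obtain ⟨p, hp⟩ := Finite.exists_max (fun p : Fin 2 × Fin 2 => Valued.v (g p.1 p.2))
    exact ⟨p.1, p.2, fun i j => hp (i, j)⟩
  have hw : ∀ k ∈ maxc L, ∀ k' ∈ maxc L, (∃ (a d : Lˣ), Valued.v (d : L) ≤ Valued.v (a : L) ∧
        ∃ k₁ ∈ maxc L, ∃ k₁' ∈ maxc L, k * g * k' = k₁ * upper a d 0 * k₁') →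
      ∃ (a d : Lˣ), Valued.v (d : L) ≤ Valued.v (a : L) ∧
        ∃ k₁ ∈ maxc L, ∃ k₁' ∈ maxc L, g = k₁ * upper a d 0 * k₁' := by
    rintro k hk k' hk' ⟨a, d, had, k₁, h₁, k₁', h₁', e⟩
    refine ⟨a, d, had, k⁻¹ * k₁, mul_mem (inv_mem hk) h₁, k₁' * k'⁻¹, mul_mem h₁' (inv_mem hk'), ?_⟩
    calc g = k⁻¹ * (k * g * k') * k'⁻¹ := by group
      _ = _ := by rw [e]; group
  fin_cases i₀ <;> fin_cases j₀
  · exact key g h
  · refine hw 1 (one_mem _) (wA L) wA_mem (key _ ?_)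
    rw [one_mul]
    have e : ∀ i j, (g * wA L) i j = g i (1 - j) := by
      apply forall_fin2 <;> simp [mul00, mul01, mul10, mul11, -Matrix.GeneralLinearGroup.coe_mul]
    intro i j
    rw [e, e]; exact h _ _
  · refine hw (wA L) wA_mem 1 (one_mem _) (key _ ?_)
    rw [mul_one]
    have e : ∀ i j, (wA L * g) i j = g (1 - i) j := by
      apply forall_fin2 <;> simp [mul00, mul01, mul10, mul11, -Matrix.GeneralLinearGroup.coe_mul]
    intro i j
    rw [e, e]; exact h _ _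
  · refine hw (wA L) wA_mem (wA L) wA_mem (key _ ?_)
    have e : ∀ i j, (wA L * g * wA L) i j = g (1 - i) (1 - j) := by
      apply forall_fin2 <;> simp [mul00, mul01, mul10, mul11, -Matrix.GeneralLinearGroup.coe_mul]
    intro i j
    rw [e, e]; exact h _ _

end field

end

end Pool.Agent.Y806.LL
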