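import Pool.Agent.Y806.LL.GInf

/-! # `GL₂(𝔽₂[t]) \ GL₂(F) / GL₂(O) F^×` is a half line -/

open WithZero Topology

namespace Pool.Agent.Y806.LL

noncomputable section

/-- `GL₂(R)` in `GL₂(F)`. -/
def gR : GL (Fin 2) R →* GF := Matrix.GeneralLinearGroup.map pF

lemma gR_apply (γ : GL (Fin 2) R) (i j : Fin 2) : gR γ i j = pF (γ i j) := rfl

lemma gR_w : gR (wA R) = wA F := by
  apply gl_ext <;> simp [gR_apply]

lemma gR_upper (p : R) : gR (upper 1 1 p) = upper 1 1 (pF p) := by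
  apply gl_ext <;> simp [gR_apply]

lemma zpow_z (m : ℤ) : zF ^ m = upper (tu ^ m) (tu ^ m) 0 := by
  have h : ∀ n : ℕ, zF ^ n = upper (tu ^ n) (tu ^ n) 0 := by
    intro n
    induction n with
    | zero => apply gl_ext <;> simp
    | succ n ih => rw [pow_succ, ih, zF, upper_mul]; simp [pow_succ]
  cases m with
  | ofNat n => simpa using h n
  | negSucc n => rw [zpow_negSucc, h, upper_inv, zpow_negSucc]; simp

/-- The elements which reduce to the half line. -/
def Red (n : ℕ) (g : GF) : Prop :=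
  ∃ γ : GL (Fin 2) R, ∃ k ∈ K0, ∃ m : ℤ, g = gR γ * dg n * k * zF ^ m

lemma Red.left {n : ℕ} {g : GF} (h : Red n g) (γ : GL (Fin 2) R) : Red n (gR γ * g) := by
  obtain ⟨γ', k, hk, m, e⟩ := h
  exact ⟨γ * γ', k, hk, m, by rw [e, map_mul]; group⟩

lemma Red.right {n : ℕ} {g : GF} (h : Red n g) {k : GF} (hk : k ∈ K0) : Red n (g * k) := by
  obtain ⟨γ', k', hk', m, e⟩ := h
  refine ⟨γ', k' * k, mul_mem hk' hk, m, ?_⟩
  rw [e, mul_assoc, zF_zpow_comm]; group

lemma Red.z {n : ℕ} {g : GF} (h : Red n g) (m : ℤ) : Red n (g * zF ^ m) := by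
  obtain ⟨γ', k', hk', m', e⟩ := h
  exact ⟨γ', k', hk', m' + m, by rw [e, zpow_add]; group⟩

lemma Red.dg (n : ℕ) : Red n (dg n) := ⟨1, 1, one_mem _, 0, by simp⟩

/-- `diag(t^{-n}, 1)` reduces to `diag(t^n, 1)`. -/
lemma Red.dg_neg (n : ℕ) : Red n (Pool.Agent.Y806.LL.dg (-(n : ℤ))) := by
  refine ⟨wA R, wA F, wF_mem, -(n : ℤ), ?_⟩
  rw [gR_w, zpow_z]
  apply gl_ext <;>
    simp [mul00, mul01, mul10, mul11, -Matrix.GeneralLinearGroup.coe_mul, Pool.Agent.Y806.LL.dg]
  rw [mul_inv_cancel₀]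
  exact pow_ne_zero _ tF_ne

lemma exists_red_upper (N : ℕ) : ∀ n : ℤ, -n ≤ N → ∀ x : F, ∃ n', Red n' (upper (tu ^ n) 1 x) := by
  induction N using Nat.strong_induction_on with
  | _ N ih =>
    intro n hn x
    obtain ⟨p, hp⟩ := exists_poly x
    set m := x - pF p with hm
    have e1 : upper (tu ^ n) 1 x = gR (upper 1 1 p) * upper (tu ^ n) 1 m := by
      rw [gR_upper, upper_mul, hm]; simp
    -- it is enough to treat `m`
    suffices h : ∃ n', Red n' (upper (tu ^ n) 1 m) by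
      obtain ⟨n', h'⟩ := h
      exact ⟨n', by rw [e1]; exact h'.left _⟩
    have e2 : upper (tu ^ n) 1 m = dg n * upper 1 1 (((tu ^ (-n) : Fˣ) : F) * m) := by
      rw [dg, upper_mul]
      congr 1
      · simp
      · simp
      · rw [← mul_assoc, ← Units.val_mul, ← zpow_add]; simp
    by_cases hle : Valued.v (((tu ^ (-n) : Fˣ) : F) * m) ≤ 1
    · have hk : upper 1 1 (((tu ^ (-n) : Fˣ) : F) * m) ∈ K0 := upper_mem (by simp) (by simp) hle
      rcases le_or_gt 0 n with h0 | h0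
      · refine ⟨n.toNat, ?_⟩
        rw [e2]
        refine Red.right ?_ hk
        have := Red.dg n.toNat
        rwa [Int.toNat_of_nonneg h0] at this
      · refine ⟨(-n).toNat, ?_⟩
        rw [e2]
        refine Red.right ?_ hk
        have := Red.dg_neg (-n).toNat
        rwa [Int.toNat_of_nonneg (by omega), neg_neg] at this
    · -- now `v m > v (t^n)`
      have hm0 : m ≠ 0 := by
        intro h; apply hle; rw [h]; simp
      obtain ⟨j, hj1, hj2⟩ := exists_zpow hm0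
      rw [hj2, ← exp_zero, exp_lt_exp] at hp
      rw [map_mul, v_tu_zpow, hj2, ← exp_add, ← exp_zero, exp_le_exp] at hle
      -- `hp : j < 0`, `hle : ¬ (-n + j ≤ 0)`
      set M : Fˣ := Units.mk0 m hm0 with hM
      have e3 : upper (tu ^ n) 1 m = gR (wA R) * (upper (-(tu ^ n) * M⁻¹) M 1 *
          lowA (((tu ^ n * M⁻¹ : Fˣ) : F))) := by
        rw [gR_w]
        apply gl_ext <;>
          simp [mul00, mul01, mul10, mul11, -Matrix.GeneralLinearGroup.coe_mul, hM]
        field_simp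
      have hlow : lowA (((tu ^ n * M⁻¹ : Fˣ) : F)) ∈ K0 := by
        refine lowA_mem ?_
        rw [Units.val_mul, map_mul, v_tu_zpow, Units.val_inv_eq_inv_val, map_inv₀]
        have : Valued.v (M : F) = exp j := hj2
        rw [this, ← exp_neg, ← exp_add, ← exp_zero, exp_le_exp]
        omega
      -- split off the units
      have hu1 : Valued.v (((-(tu ^ n) * M⁻¹) * tu ^ (-(n - j)) : Fˣ) : F) = 1 := by
        rw [Units.val_mul, map_mul, v_tu_zpow, Units.val_mul, map_mul, Units.val_neg,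
          Valuation.map_neg, v_tu_zpow, Units.val_inv_eq_inv_val, map_inv₀]
        have : Valued.v (M : F) = exp j := hj2
        rw [this, ← exp_neg, ← exp_add, ← exp_add, ← exp_zero]
        congr 1; ring
      have hu2 : Valued.v ((M * tu ^ (-j) : Fˣ) : F) = 1 := by
        rw [Units.val_mul, map_mul, v_tu_zpow]
        have : Valued.v (M : F) = exp j := hj2
        rw [this, ← exp_add, ← exp_zero]; congr 1; ring
      have e4 : upper (-(tu ^ n) * M⁻¹) M (1 : F) =
          upper (tu ^ (n - 2 * j)) 1 ((M⁻¹ : Fˣ) : F) *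
            upper ((-(tu ^ n) * M⁻¹) * tu ^ (-(n - j))) (M * tu ^ (-j)) 0 * zF ^ j := by
        rw [zpow_z, upper_mul, upper_mul]
        congr 1
        · rw [mul_comm (tu ^ (n - 2 * j)), mul_assoc, mul_assoc, ← zpow_add, ← zpow_add]
          have : -(n - j) + (n - 2 * j + j) = 0 := by ring
          rw [this, zpow_zero, mul_one]
        · rw [one_mul, mul_assoc, ← zpow_add]; simp
        · simp only [mul_zero, zero_add]
          rw [← Units.val_mul, ← Units.val_mul]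
          have : M⁻¹ * (M * tu ^ (-j)) * tu ^ j = 1 := by
            rw [← mul_assoc, inv_mul_cancel, one_mul, ← zpow_add]; simp
          rw [this]; simp
      obtain ⟨n', h'⟩ := ih (-(n - 2 * j)).toNat (by omega) (n - 2 * j) (by omega)
        ((M⁻¹ : Fˣ) : F)
      refine ⟨n', ?_⟩
      rw [e3]
      refine Red.left (Red.right ?_ hlow) _
      rw [e4]
      exact Red.z (Red.right h' (upper_mem hu1 hu2 (by simp))) _

lemma exists_red (g : GF) : ∃ n, Red n g := by
  obtain ⟨a, d, b, k, hk, e⟩ := iwasawa g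
  obtain ⟨A, hA, hA'⟩ := exists_zpow a.ne_zero
  obtain ⟨D, hD, hD'⟩ := exists_zpow d.ne_zero
  obtain ⟨n, hn⟩ := exists_red_upper (-(A - D)).toNat (A - D) (by omega) (b * ((d⁻¹ : Fˣ) : F))
  refine ⟨n, ?_⟩
  rw [e]
  refine Red.right ?_ hk
  have e2 : upper a d b = upper (tu ^ (A - D)) 1 (b * ((d⁻¹ : Fˣ) : F)) *
      upper (a * tu ^ (-A)) (d * tu ^ (-D)) 0 * zF ^ D := by
    rw [zpow_z, upper_mul, upper_mul]
    congr 1
    · rw [mul_comm (tu ^ (A - D)), mul_assoc, mul_assoc, ← zpow_add, ← zpow_add]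
      have : -A + (A - D + D) = 0 := by ring
      rw [this, zpow_zero, mul_one]
    · rw [one_mul, mul_assoc, ← zpow_add]; simp
    · simp only [mul_zero, zero_add]
      rw [mul_assoc, mul_assoc, ← Units.val_mul, ← Units.val_mul]
      have : d⁻¹ * (d * tu ^ (-D) * tu ^ D) = 1 := by
        rw [mul_assoc, ← zpow_add]; simp
      rw [this]; simp
  rw [e2]
  refine Red.z (Red.right hn (upper_mem ?_ ?_ (by simp))) _
  · rw [Units.val_mul, Units.val_zpow_eq_zpow_val, tu_val]; exact hA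
  · rw [Units.val_mul, Units.val_zpow_eq_zpow_val, tu_val]; exact hD

/-! ### Uniqueness -/

/-- The norm of the row `(x, y) g`. -/
def rowN (x y : F) (g : GF) : ℤᵐ⁰ :=
  max (Valued.v (x * g 0 0 + y * g 1 0)) (Valued.v (x * g 0 1 + y * g 1 1))

lemma rowN_mul_le (x y : F) (g : GF) {k : GF} (hk : k ∈ K0) : rowN x y (g * k) ≤ rowN x y g := by
  have e0 : x * (g * k) 0 0 + y * (g * k) 1 0 =
      (x * g 0 0 + y * g 1 0) * k 0 0 + (x * g 0 1 + y * g 1 1) * k 1 0 := by
    rw [mul00, mul10]; ring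
  have e1 : x * (g * k) 0 1 + y * (g * k) 1 1 =
      (x * g 0 0 + y * g 1 0) * k 0 1 + (x * g 0 1 + y * g 1 1) * k 1 1 := by
    rw [mul01, mul11]; ring
  have h : ∀ a b c d : F, Valued.v b ≤ 1 → Valued.v d ≤ 1 →
      Valued.v (a * b + c * d) ≤ max (Valued.v a) (Valued.v c) := by
    intro a b c d hb hd
    refine (Valuation.map_add _ _ _).trans (max_le_max ?_ ?_) <;> rw [map_mul]
    · exact mul_le_of_le_one_right' hb
    · exact mul_le_of_le_one_right' hd
  rw [rowN, e0, e1]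
  exact max_le (h _ _ _ _ (hk.1 _ _) (hk.1 _ _)) (h _ _ _ _ (hk.1 _ _) (hk.1 _ _))

lemma rowN_mul (x y : F) (g : GF) {k : GF} (hk : k ∈ K0) : rowN x y (g * k) = rowN x y g := by
  refine le_antisymm (rowN_mul_le x y g hk) ?_
  have := rowN_mul_le x y (g * k) (inv_mem hk)
  rwa [mul_inv_cancel_right] at this

lemma rowN_z (x y : F) (g : GF) (m : ℤ) : rowN x y (g * zF ^ m) = rowN x y g * exp m := by
  have e0 : x * (g * zF ^ m) 0 0 + y * (g * zF ^ m) 1 0 =
      (x * g 0 0 + y * g 1 0) * ((tu ^ m : Fˣ) : F) := by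
    rw [zpow_z, mul00, mul10]; simp; ring
  have e1 : x * (g * zF ^ m) 0 1 + y * (g * zF ^ m) 1 1 =
      (x * g 0 1 + y * g 1 1) * ((tu ^ m : Fˣ) : F) := by
    rw [zpow_z, mul01, mul11]; simp; ring
  rw [rowN, e0, e1, map_mul, map_mul, v_tu_zpow, rowN, max_mul]

lemma rowN_gR (p q : R) (γ : GL (Fin 2) R) (g : GF) :
    rowN (pF p) (pF q) (gR γ * g) =
      rowN (pF (p * γ 0 0 + q * γ 1 0)) (pF (p * γ 0 1 + q * γ 1 1)) g := by
  rw [rowN, rowN]
  congr 1
  · rw [mul00, mul10]; simp only [gR_apply, map_add, map_mul]; congr 1; ring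
  · rw [mul01, mul11]; simp only [gR_apply, map_add, map_mul]; congr 1; ring

lemma one_le_rowN_dg (n : ℕ) {p q : R} (h : p ≠ 0 ∨ q ≠ 0) :
    1 ≤ rowN (pF p) (pF q) (dg n) := by
  rw [rowN, dg]
  simp only [upper_00, upper_01, upper_10, upper_11, mul_zero, add_zero, zero_add, Units.val_one,
    mul_one]
  rcases h with h | h
  · refine le_max_of_le_left ?_
    rw [map_mul, v_tu_zpow]
    refine one_le_mul (one_le_v_pF h) ?_
    rw [← exp_zero, exp_le_exp]; positivity
  · exact le_max_of_le_right (one_le_v_pF h)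

lemma rowN_dg (n : ℕ) : rowN 0 1 (dg n) = 1 := by
  simp [rowN, dg]

lemma Red.le {n n' : ℕ} {g : GF} {γ γ' : GL (Fin 2) R} {k k' : GF} (hk : k ∈ K0) (hk' : k' ∈ K0)
    {m m' : ℤ} (h : g = gR γ * Pool.Agent.Y806.LL.dg n * k * zF ^ m)
    (h' : g = gR γ' * Pool.Agent.Y806.LL.dg n' * k' * zF ^ m') : m ≤ m' := by
  -- the row `(0, 1) γ'⁻¹`
  set p := (γ'⁻¹) 1 0 with hp
  set q := (γ'⁻¹) 1 1 with hq
  have hpq : p * γ' 0 0 + q * γ' 1 0 = 0 ∧ p * γ' 0 1 + q * γ' 1 1 = 1 := by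
    constructor
    · rw [hp, hq, ← mul10, inv_mul_cancel]; simp
    · rw [hp, hq, ← mul11, inv_mul_cancel]; simp
  have h1 : rowN (pF p) (pF q) g = exp m' := by
    rw [h', rowN_z, rowN_mul _ _ _ hk', rowN_gR, hpq.1, hpq.2, map_zero, map_one, rowN_dg, one_mul]
  have h2 : exp m ≤ rowN (pF p) (pF q) g := by
    rw [h, rowN_z, rowN_mul _ _ _ hk, rowN_gR]
    have h3 : (p * γ 0 0 + q * γ 1 0) ≠ 0 ∨ (p * γ 0 1 + q * γ 1 1) ≠ 0 := by
      by_contra hcon
      push Not at hcon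
      obtain ⟨c0, c1⟩ := hcon
      have hp0 : p = 0 := by
        have e : (p * γ 0 0 + q * γ 1 0) * (γ⁻¹) 0 0 + (p * γ 0 1 + q * γ 1 1) * (γ⁻¹) 1 0 =
            p * (γ * γ⁻¹) 0 0 + q * (γ * γ⁻¹) 1 0 := by rw [mul00, mul10]; ring
        rw [c0, c1, mul_inv_cancel] at e
        simpa using e.symm
      have hq0 : q = 0 := by
        have e : (p * γ 0 0 + q * γ 1 0) * (γ⁻¹) 0 1 + (p * γ 0 1 + q * γ 1 1) * (γ⁻¹) 1 1 =
            p * (γ * γ⁻¹) 0 1 + q * (γ * γ⁻¹) 1 1 := by rw [mul01, mul11]; ring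
        rw [c0, c1, mul_inv_cancel] at e
        simpa using e.symm
      rw [hp0, hq0] at hpq
      simp at hpq
    calc exp m = 1 * exp m := (one_mul _).symm
      _ ≤ _ := by gcongr; exact one_le_rowN_dg n h3
  rw [h1, exp_le_exp] at h2
  exact h2

lemma v_det_gR (γ : GL (Fin 2) R) : Valued.v ((gR γ).det : F) = 1 := by
  have h1 : ((gR γ).det : F) = pF (γ.det : R) := by
    rw [det2, det2]; simp [gR_apply]
  rw [h1]
  have h2 : (γ.det : R) * ((γ.det⁻¹ : Rˣ) : R) = 1 := Units.mul_inv _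
  have h3 : Valued.v (pF (γ.det : R)) * Valued.v (pF ((γ.det⁻¹ : Rˣ) : R)) = 1 := by
    rw [← map_mul, ← map_mul, h2, map_one, map_one]
  have h4 := one_le_v_pF (p := (γ.det : R)) γ.det.ne_zero
  have h5 := one_le_v_pF (p := ((γ.det⁻¹ : Rˣ) : R)) (γ.det⁻¹).ne_zero
  refine le_antisymm ?_ h4
  calc Valued.v (pF (γ.det : R)) = Valued.v (pF (γ.det : R)) * 1 := (mul_one _).symm
    _ ≤ Valued.v (pF (γ.det : R)) * Valued.v (pF ((γ.det⁻¹ : Rˣ) : R)) := by gcongr
    _ = 1 := h3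

lemma v_det_dg (n : ℤ) : Valued.v ((dg n).det : F) = exp n := by
  rw [det2, dg]; simp only [upper_00, upper_01, upper_10, upper_11, mul_zero, sub_zero,
    Units.val_one, mul_one, v_tu_zpow]

lemma v_det_z (m : ℤ) : Valued.v ((zF ^ m).det : F) = exp (2 * m) := by
  rw [zpow_z, det2]
  simp only [upper_00, upper_01, upper_10, upper_11, mul_zero, sub_zero, map_mul, v_tu_zpow]
  rw [← exp_add]; congr 1; ring

theorem Red.unique {n n' : ℕ} {g : GF} (h : Red n g) (h' : Red n' g) : n = n' := by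
  obtain ⟨γ, k, hk, m, e⟩ := h
  obtain ⟨γ', k', hk', m', e'⟩ := h'
  have hm : m = m' := le_antisymm (Red.le hk hk' e e') (Red.le hk' hk e' e)
  have hd : ∀ (n : ℕ) (γ : GL (Fin 2) R) (k : GF), k ∈ K0 → ∀ m : ℤ,
      Valued.v ((gR γ * Pool.Agent.Y806.LL.dg n * k * zF ^ m).det : F) = exp ((n : ℤ) + 2 * m) := by
    intro n γ k hk m
    rw [map_mul, map_mul, map_mul, Units.val_mul, Units.val_mul, Units.val_mul, map_mul, map_mul,
      map_mul, v_det_gR, v_det_dg, v_det_z, (mem_maxc.mp hk).2, one_mul, mul_one, ← exp_add]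
  have h1 := hd n γ k hk m
  have h2 := hd n' γ' k' hk' m'
  rw [← e] at h1
  rw [← e', h1, exp_inj, hm] at h2
  omega

/-- The index of an element of `GL₂(F)`. -/
def ind (g : GF) : ℕ := (exists_red g).choose

lemma ind_spec (g : GF) : Red (ind g) g := (exists_red g).choose_spec

lemma ind_eq {g : GF} {n : ℕ} (h : Red n g) : ind g = n := (ind_spec g).unique h

end

end Pool.Agent.Y806.LL
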