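import Pool.Agent.Y806.LL.Half

/-! # The Hecke operator at infinity on functions of level one -/

open WithZero Topology

namespace Pool.Agent.Y806.LL

noncomputable section

/-- The Hecke operator (adjacency operator of the tree). -/
def TT (f : GF → ℂ) (g : GF) : ℂ := f (g * om) + f (g * (wA F * om)) + f (g * (n1 * wA F * om))

/-- Functions on the vertices of the tree modulo `GL₂(𝔽₂[t])`. -/
structure Lev (f : GF → ℂ) : Prop where
  left : ∀ γ : GL (Fin 2) R, ∀ g, f (gR γ * g) = f g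
  right : ∀ k ∈ K0, ∀ g, f (g * k) = f g
  z : ∀ g, f (g * zF) = f g

lemma right_om {f : GF → ℂ} (hf : ∀ k ∈ K0, ∀ g, f (g * k) = f g) {i : GF} (hi : i ∈ Iw) (g : GF) :
    f (g * i * om) = f (g * om) := by
  have : g * i * om = g * om * (om⁻¹ * i * om) := by group
  rw [this, hf _ (Iw_le (om_conj' hi))]

lemma char2 (x : F) : x + x = 0 := by
  have := two_F
  calc x + x = x * (1 + 1) := by ring
    _ = 0 := by rw [this, mul_zero]

lemma neg_eq (x : F) : -x = x := by
  rw [neg_eq_iff_add_eq_zero]; exact char2 x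

lemma TT_w {f : GF → ℂ} (hf : ∀ k ∈ K0, ∀ g, f (g * k) = f g) (g : GF) :
    TT f (g * wA F) = TT f g := by
  have h1 : g * wA F * (wA F * om) = g * om := by
    rw [← mul_assoc, mul_assoc g, wA_mul_self, mul_one]
  have h2 : wA F * (n1 * wA F * om) = n1 * wA F * n1 * om := by
    have h3 := two_F
    have : wA F * n1 * wA F = n1 * wA F * n1 := by
      apply gl_ext <;>
        simp [mul00, mul01, mul10, mul11, -Matrix.GeneralLinearGroup.coe_mul, n1, h3]
    calc wA F * (n1 * wA F * om) = (wA F * n1 * wA F) * om := by group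
      _ = _ := by rw [this]
  rw [TT, TT, h1, mul_assoc g (wA F) (n1 * wA F * om), h2]
  have h4 : f (g * (n1 * wA F * n1 * om)) = f (g * (n1 * wA F * om)) := by
    have h5 := right_om hf n1_mem (g * (n1 * wA F))
    have h6 : g * (n1 * wA F * n1 * om) = g * (n1 * wA F) * n1 * om := by group
    have h7 : g * (n1 * wA F * om) = g * (n1 * wA F) * om := by group
    rw [h6, h7, h5]
  rw [h4, mul_assoc g]
  ring

lemma TT_Iw {f : GF → ℂ} (hf : ∀ k ∈ K0, ∀ g, f (g * k) = f g) {i : GF} (hi : i ∈ Iw) (g : GF) :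
    TT f (g * i) = TT f g := by
  have hk := mem_maxc.mp hi.1
  -- residues
  have hd1 : Valued.v (i 1 1 - 1) < 1 ∧ Valued.v (i 0 0 - 1) < 1 := by
    have hdet := hk.2
    rw [det2] at hdet
    have h10 : Valued.v (i 0 1 * i 1 0) < 1 := by
      rw [map_mul]; exact mul_lt_one_le_lt (hk.1 _ _) hi.2
    have hprod : Valued.v (i 0 0 * i 1 1) = 1 := by
      have : i 0 0 * i 1 1 = (i 0 0 * i 1 1 - i 0 1 * i 1 0) + i 0 1 * i 1 0 := by ring
      rw [this, Valuation.map_add_eq_of_lt_left _ (by rw [hdet]; exact h10), hdet]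
    rw [map_mul] at hprod
    constructor
    · refine (residue_cases (hk.1 1 1)).resolve_left fun h => ?_
      have := mul_lt_one_le_lt (hk.1 0 0) h
      rw [hprod] at this
      exact lt_irrefl _ this
    · refine (residue_cases (hk.1 0 0)).resolve_left fun h => ?_
      have := mul_lt_one_lt_le h (hk.1 1 1)
      rw [hprod] at this
      exact lt_irrefl _ this
  have key : ∀ e e' : GF, e'⁻¹ * (i * e) ∈ Iw → f (g * i * (e * om)) = f (g * (e' * om)) := by
    intro e e' h
    have := right_om hf h (g * e')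
    have e1 : g * e' * (e'⁻¹ * (i * e)) * om = g * i * (e * om) := by group
    have e2 : g * e' * om = g * (e' * om) := by group
    rw [e1, e2] at this
    exact this
  have hmem : ∀ e e' : GF, e ∈ K0 → e' ∈ K0 → e'⁻¹ * (i * e) ∈ K0 := fun e e' h h' =>
    mul_mem (inv_mem h') (mul_mem hi.1 h)
  have hn1w : n1 * wA F ∈ K0 := mul_mem (Iw_le n1_mem) wF_mem
  have e1 : f (g * i * om) = f (g * om) := right_om hf hi g
  have hinv : n1⁻¹ = n1 := by
    rw [n1, upper_inv]; apply gl_ext <;> simp [neg_eq]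
  -- four lower left entries
  have a1 : ((wA F)⁻¹ * (i * wA F)) 1 0 = i 0 1 := by
    rw [wA_inv]
    simp [mul00, mul01, mul10, mul11, -Matrix.GeneralLinearGroup.coe_mul]
  have a2 : ((n1 * wA F)⁻¹ * (i * (n1 * wA F))) 1 0 = (i 0 1 + (i 1 1 + i 0 0)) + i 1 0 := by
    rw [mul_inv_rev, wA_inv, hinv]
    simp [mul00, mul01, mul10, mul11, -Matrix.GeneralLinearGroup.coe_mul, n1]
    ring
  have a3 : ((n1 * wA F)⁻¹ * (i * wA F)) 1 0 = i 0 1 + i 1 1 := by
    rw [mul_inv_rev, wA_inv, hinv]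
    simp [mul00, mul01, mul10, mul11, -Matrix.GeneralLinearGroup.coe_mul, n1]
  have a4 : ((wA F)⁻¹ * (i * (n1 * wA F))) 1 0 = i 0 0 + i 0 1 := by
    rw [wA_inv]
    simp [mul00, mul01, mul10, mul11, -Matrix.GeneralLinearGroup.coe_mul, n1]
  have hs : Valued.v (i 1 1 + i 0 0) < 1 := by
    have : i 1 1 + i 0 0 = (i 1 1 - 1) + (i 0 0 - 1) + (1 + 1) := by ring
    rw [this, two_F, add_zero]
    exact Valuation.map_add_lt _ hd1.1 hd1.2
  rcases residue_cases (hk.1 0 1) with hb | hb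
  · have b1 : (wA F)⁻¹ * (i * wA F) ∈ Iw := ⟨hmem _ _ wF_mem wF_mem, by rw [a1]; exact hb⟩
    have b2 : (n1 * wA F)⁻¹ * (i * (n1 * wA F)) ∈ Iw :=
      ⟨hmem _ _ hn1w hn1w, by
        rw [a2]; exact Valuation.map_add_lt _ (Valuation.map_add_lt _ hb hs) hi.2⟩
    rw [TT, TT, e1, key _ _ b1, key _ _ b2]
  · have b3 : (n1 * wA F)⁻¹ * (i * wA F) ∈ Iw :=
      ⟨hmem _ _ wF_mem hn1w, by
        rw [a3]
        have : i 0 1 + i 1 1 = (i 0 1 - 1) + (i 1 1 - 1) + (1 + 1) := by ring
        rw [this, two_F, add_zero]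
        exact Valuation.map_add_lt _ hb hd1.1⟩
    have b4 : (wA F)⁻¹ * (i * (n1 * wA F)) ∈ Iw :=
      ⟨hmem _ _ hn1w wF_mem, by
        rw [a4]
        have : i 0 0 + i 0 1 = (i 0 0 - 1) + (i 0 1 - 1) + (1 + 1) := by ring
        rw [this, two_F, add_zero]
        exact Valuation.map_add_lt _ hd1.2 hb⟩
    rw [TT, TT, e1, key _ _ b3, key _ _ b4]
    ring

lemma TT_K0 {f : GF → ℂ} (hf : ∀ k ∈ K0, ∀ g, f (g * k) = f g) {k : GF} (hk : k ∈ K0) (g : GF) :
    TT f (g * k) = TT f g := by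
  rcases K0_cases hk with h | h | h
  · exact TT_Iw hf h g
  · have : g * k = g * wA F * ((wA F)⁻¹ * k) := by group
    rw [this, TT_Iw hf h, TT_w hf]
  · have : g * k = g * n1 * wA F * ((n1 * wA F)⁻¹ * k) := by group
    rw [this, TT_Iw hf h, TT_w hf, TT_Iw hf n1_mem]

lemma Lev.TT {f : GF → ℂ} (hf : Lev f) : Lev (TT f) where
  left γ g := by
    simp only [Pool.Agent.Y806.LL.TT, mul_assoc (gR γ) g, hf.left]
  right k hk g := TT_K0 hf.right hk g
  z g := by
    have key : ∀ x : GF, f (g * zF * x) = f (g * x) := by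
      intro x
      rw [mul_assoc, zF_comm, ← mul_assoc, hf.z]
    rw [Pool.Agent.Y806.LL.TT, Pool.Agent.Y806.LL.TT, key, key, key]

lemma Lev.zpow {f : GF → ℂ} (hf : Lev f) (g : GF) (m : ℤ) : f (g * zF ^ m) = f g := by
  have h : ∀ n : ℕ, ∀ g, f (g * zF ^ n) = f g := by
    intro n
    induction n with
    | zero => intro g; simp
    | succ n ih => intro g; rw [pow_succ, ← mul_assoc, hf.z, ih]
  cases m with
  | ofNat n => simpa using h n g
  | negSucc n =>
    have := h (n + 1) (g * zF ^ (Int.negSucc n))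
    rw [zpow_negSucc, mul_assoc, inv_mul_cancel, mul_one] at this
    rw [zpow_negSucc, this]

lemma Lev.red {f : GF → ℂ} (hf : Lev f) {n : ℕ} {g : GF} (h : Red n g) : f g = f (dg n) := by
  obtain ⟨γ, k, hk, m, e⟩ := h
  rw [e, hf.zpow, hf.right _ hk, hf.left]

lemma red_om (n : ℕ) : Red (n + 1) (dg n * om) := by
  refine ⟨1, wA F, wF_mem, 0, ?_⟩
  rw [om, ← mul_assoc, dg_mul]; simp

lemma w_dg_w : wA F * dg 1 * wA F = zF * dg (-1) := by
  apply gl_ext <;>
    simp [mul00, mul01, mul10, mul11, -Matrix.GeneralLinearGroup.coe_mul, dg, zF, tF_ne]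

/-- the index of the other neighbours -/
def pr : ℕ → ℕ
  | 0 => 1
  | n + 1 => n

lemma red_dg_pred (n : ℕ) : Red (pr n) (dg ((n : ℤ) - 1)) := by
  cases n with
  | zero => exact Red.dg_neg 1
  | succ n =>
    have : (((n + 1 : ℕ) : ℤ) - 1) = (n : ℤ) := by push_cast; ring
    rw [this]; exact Red.dg n

lemma red_w_om (n : ℕ) : Red (pr n) (dg n * (wA F * om)) := by
  have : dg n * (wA F * om) = dg ((n : ℤ) - 1) * zF ^ (1 : ℤ) := by
    rw [om, ← mul_assoc (wA F), w_dg_w, zpow_one, ← mul_assoc, ← zF_comm, mul_assoc, dg_mul,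
      zF_comm]; rfl
  rw [this]
  exact (red_dg_pred n).z 1

lemma red_n1w_om (n : ℕ) : Red (pr n) (dg n * (n1 * wA F * om)) := by
  have h1 : dg n * n1 = gR (upper 1 1 (Polynomial.X ^ n)) * dg n := by
    rw [gR_upper]
    apply gl_ext <;>
      simp [mul00, mul01, mul10, mul11, -Matrix.GeneralLinearGroup.coe_mul, dg, n1, tF]
  have : dg n * (n1 * wA F * om) =
      gR (upper 1 1 (Polynomial.X ^ n)) * (dg n * (wA F * om)) := by
    calc dg n * (n1 * wA F * om) = (dg n * n1) * (wA F * om) := by group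
      _ = _ := by rw [h1]; group
  rw [this]
  exact (red_w_om n).left _

lemma Lev.TT_dg {f : GF → ℂ} (hf : Lev f) (n : ℕ) :
    Pool.Agent.Y806.LL.TT f (dg n) = f (dg ((n + 1 : ℕ) : ℤ)) + 2 * f (dg (pr n)) := by
  rw [Pool.Agent.Y806.LL.TT, hf.red (red_om n), hf.red (red_w_om n), hf.red (red_n1w_om n)]
  ring

/-- The values of the Eisenstein function on the half line. -/
def ee (n : ℕ) : ℂ := 2 ^ (n + 2) - 4 - 3 * n

/-- The Eisenstein function of level one on `GL₂(F)`. -/
def Ei (g : GF) : ℂ := ee (ind g)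

lemma Ei_lev : Lev Ei where
  left γ g := by rw [Ei, Ei, ind_eq ((ind_spec g).left γ)]
  right k hk g := by rw [Ei, Ei, ind_eq ((ind_spec g).right hk)]
  z g := by
    have := (ind_spec g).z 1
    rw [zpow_one] at this
    rw [Ei, Ei, ind_eq this]

lemma Ei_TT (g : GF) : TT Ei g = 3 * Ei g + 3 := by
  rw [Ei_lev.TT.red (ind_spec g), Ei_lev.red (ind_spec g), Ei_lev.TT_dg]
  have h : ∀ n : ℕ, Ei (dg n) = ee n := fun n => by rw [Ei, ind_eq (Red.dg n)]
  rw [h, h, h]
  cases ind g with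
  | zero => simp [pr, ee]; norm_num
  | succ n => simp only [pr, ee]; push_cast; ring

/-- Level one functions with `T f = 3 f` are constant. -/
lemma Lev.const {f : GF → ℂ} (hf : Lev f) (h : ∀ g, Pool.Agent.Y806.LL.TT f g = 3 * f g) (g : GF) :
    f g = f 1 := by
  have h1 : ∀ n : ℕ, f (dg ((n + 1 : ℕ) : ℤ)) = f (dg (n : ℤ)) := by
    intro n
    induction n with
    | zero =>
      have := h (dg ((0 : ℕ) : ℤ))
      rw [hf.TT_dg] at this
      simp only [pr, zero_add] at this ⊢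
      linear_combination this / 3
    | succ n ih =>
      have := h (dg ((n + 1 : ℕ) : ℤ))
      rw [hf.TT_dg] at this
      simp only [pr] at this
      rw [ih] at this ⊢
      linear_combination this
  have h2 : ∀ n : ℕ, f (dg (n : ℤ)) = f 1 := by
    intro n
    induction n with
    | zero => rw [Nat.cast_zero, dg_zero]
    | succ n ih => rw [h1, ih]
  rw [hf.red (ind_spec g), h2]

end

end Pool.Agent.Y806.LL
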