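import Pool.Agent.Y806.LL.Fin

/-! # Functions of level one on `GL₂(𝔸)` -/

open WithZero Topology

namespace Pool.Agent.Y806.LL

noncomputable section

lemma mean_sub {C : Type} [Group C] [TopologicalSpace C] [IsTopologicalGroup C] [CompactSpace C]
    {f g : C → ℂ} (hf : Continuous f) (hg : Continuous g) :
    mean C (fun x => f x - g x) = mean C f - mean C g := by
  have h := mean_add (g := fun x => (-1) * g x) hf (continuous_const.mul hg)
  rw [mean_smul] at h
  have e : (fun x => f x - g x) = fun x => f x + (-1) * g x := by ext x; ring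
  rw [e, h]; ring

lemma ri_map (γ : GL (Fin 2) R) :
    ri (Matrix.GeneralLinearGroup.map (algebraMap R K) γ) = gR γ := by
  apply gl_ext <;> rfl

lemma fin_decomp' (g : GAf) : ∃ γ : GL (Fin 2) K, ∃ k ∈ Kf, g = rf γ * k := by
  obtain ⟨α, δ, x, k, hk, e⟩ := fin_decomp g
  exact ⟨_, k, hk, e⟩

/-- The `GL₂(K)`-part of an element of `GL₂(𝔸_f)`. -/
def bb (g : GAf) : GL (Fin 2) K := (fin_decomp' g).choose

lemma bb_spec (g : GAf) : ∃ k ∈ Kf, g = rf (bb g) * k := (fin_decomp' g).choose_spec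

/-- Extension of a left `GL₂(R)`-invariant function to `GL₂(𝔸)`. -/
def ext (f : GF → ℂ) (x : GA) : ℂ := f ((ri (bb x.1))⁻¹ * x.2)

lemma ext_spec {f : GF → ℂ} (hf : ∀ γ : GL (Fin 2) R, ∀ g, f (gR γ * g) = f g) {x : GA}
    {γ : GL (Fin 2) K} {k : GAf} (hk : k ∈ Kf) (e : x.1 = rf γ * k) :
    ext f x = f ((ri γ)⁻¹ * x.2) := by
  obtain ⟨k₀, hk₀, e₀⟩ := bb_spec x.1
  have h1 : rf (γ⁻¹ * bb x.1) ∈ Kf := by
    have : rf (γ⁻¹ * bb x.1) = k * k₀⁻¹ := by
      rw [map_mul, map_inv, inv_mul_eq_iff_eq_mul, ← mul_assoc, ← e]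
      rw [eq_mul_inv_iff_mul_eq]; exact e₀.symm
    rw [this]; exact mul_mem hk (inv_mem hk₀)
  obtain ⟨γ', h2⟩ := exists_of_Kf h1
  have h3 : (ri γ)⁻¹ * x.2 = gR γ' * ((ri (bb x.1))⁻¹ * x.2) := by
    rw [← ri_map, h2, map_mul, map_inv]; group
  rw [h3, hf]; rfl

lemma ext_left {f : GF → ℂ} (hf : ∀ γ : GL (Fin 2) R, ∀ g, f (gR γ * g) = f g) (γ : GL (Fin 2) K)
    (x : GA) : ext f (rat γ * x) = ext f x := by
  obtain ⟨k₀, hk₀, e₀⟩ := bb_spec x.1
  have e : (rat γ * x).1 = rf (γ * bb x.1) * k₀ := by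
    rw [map_mul, mul_assoc, ← e₀]; rfl
  rw [ext_spec hf hk₀ e, ext]
  congr 1
  rw [map_mul]
  show (ri γ * ri (bb x.1))⁻¹ * (ri γ * x.2) = _
  group

lemma ext_mul {f : GF → ℂ} (hf : ∀ γ : GL (Fin 2) R, ∀ g, f (gR γ * g) = f g) (x : GA) {k : GAf}
    (hk : k ∈ Kf) (h : GF) : ext f (x * (k, h)) = f ((ri (bb x.1))⁻¹ * x.2 * h) := by
  obtain ⟨k₀, hk₀, e₀⟩ := bb_spec x.1
  have e : (x * (k, h)).1 = rf (bb x.1) * (k₀ * k) := by
    rw [← mul_assoc, ← e₀]; rfl
  rw [ext_spec hf (mul_mem hk₀ hk) e, mul_assoc]; rfl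

lemma ext_one {f : GF → ℂ} (hf : ∀ γ : GL (Fin 2) R, ∀ g, f (gR γ * g) = f g) (g : GF) :
    ext f (1, g) = f g := by
  have h := ext_spec hf (x := (1, g)) (γ := 1) (one_mem Kf) (by simp)
  rw [h]; simp

/-- The Eisenstein function of level one on `GL₂(𝔸)`. -/
def EE : GA → ℂ := ext Ei

lemma EE_mul (x : GA) {k : GAf} (hk : k ∈ Kf) (h : GF) :
    EE (x * (k, h)) = Ei ((ri (bb x.1))⁻¹ * x.2 * h) := ext_mul Ei_lev.left x hk h

lemma EE_Sm : EE ∈ Sm GA := by
  refine ⟨Kf.prod K0, ?_, fun u hu x => ?_⟩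
  · exact isOpen_Kf.prod isOpen_K0
  · obtain ⟨k, h⟩ := u
    rw [EE_mul x hu.1, Ei_lev.right _ hu.2]; rfl

/-- Translation of `EE` at the finite places, averaged. -/
def Eh (h : GAf) (x : GA) : ℂ := mean Kf fun k => EE (x * ((k : GAf) * h, 1))

lemma EE_cont (h : GAf) (x : GA) (g : GF) : Continuous fun k : Kf => EE (x * ((k : GAf) * h, g)) := by
  refine (Sm_continuous EE_Sm).comp ?_
  exact continuous_const.mul ((continuous_subtype_val.mul continuous_const).prodMk continuous_const)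

lemma Eh_mul (h : GAf) (x : GA) (g : GF) :
    Eh h (x * (1, g)) = mean Kf fun k => EE (x * ((k : GAf) * h, g)) := by
  rw [Eh]; congr 1; ext k
  congr 1
  rw [mul_assoc]; congr 1
  ext <;> simp

/-- `Eh` differs from `EE` by a constant. -/
lemma Eh_eq (h : GAf) (x : GA) : Eh h x - EE x = Eh h 1 - EE 1 := by
  set D : GA → ℂ := fun x => Eh h x - EE x with hD
  have hleft : ∀ γ x, D (rat γ * x) = D x := by
    intro γ x
    have h1 : ∀ x, EE (rat γ * x) = EE x := ext_left Ei_lev.left γ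
    simp only [hD, Eh, mul_assoc, h1]
  have hright : ∀ x, ∀ k ∈ Kf, D (x * (k, 1)) = D x := by
    intro x k hk
    have h1 : EE (x * (k, 1)) = EE x := by
      rw [EE_mul x hk, mul_one]; rfl
    have h2 : Eh h (x * (k, 1)) = Eh h x := by
      refine Eq.trans ?_ (mean_mul_left (⟨k, hk⟩ : Kf) fun k => EE (x * ((k : GAf) * h, 1)))
      rw [Eh]; congr 1; ext j
      congr 1
      rw [mul_assoc]; congr 1
      ext <;> simp [mul_assoc]
    simp only [hD, h1, h2]
  have hDx : ∀ x g, D (x * (1, g)) = (mean Kf fun k => EE (x * ((k : GAf) * h, g))) -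
      EE (x * (1, g)) := by
    intro x g
    simp only [hD, Eh_mul]
  -- at infinity
  have hEx : ∀ x : GA, ∀ g g' : GF, (∀ y, Ei (y * g) = Ei (y * g')) → ∀ k : GAf,
      EE (x * (k, g)) = EE (x * (k, g')) := by
    intro x g g' hg k
    have e1 : ∀ g, x * (k, g) = (x * (k, 1)) * (1, g) := by
      intro g; rw [mul_assoc]; congr 1; ext <;> simp
    rw [e1, e1 g', EE_mul _ (one_mem Kf), EE_mul _ (one_mem Kf), hg]
  have hDg : ∀ x : GA, ∀ g g' : GF, (∀ y, Ei (y * g) = Ei (y * g')) →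
      D (x * (1, g)) = D (x * (1, g')) := by
    intro x g g' hg
    rw [hDx, hDx]
    congr 1
    · congr 1; ext k; exact hEx x g g' hg _
    · exact hEx x g g' hg 1
  have hK : ∀ x, ∀ k ∈ K0, ∀ g, D (x * (1, g * k)) = D (x * (1, g)) := fun x k hk g =>
    hDg x _ _ fun y => by rw [← mul_assoc, Ei_lev.right k hk]
  have hz : ∀ x g, D (x * (1, g * zF)) = D (x * (1, g)) := fun x g =>
    hDg x _ _ fun y => by rw [← mul_assoc, Ei_lev.z]
  have hT : ∀ x g, TT (fun g => D (x * (1, g))) g = 3 * D (x * (1, g)) := by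
    intro x g
    have hTE : ∀ (k : GAf), EE (x * (k, g * om)) + EE (x * (k, g * (wA F * om))) +
        EE (x * (k, g * (n1 * wA F * om))) = 3 * EE (x * (k, g)) + 3 := by
      intro k
      have e1 : ∀ g, x * (k, g) = (x * (k, 1)) * (1, g) := by
        intro g; rw [mul_assoc]; congr 1; ext <;> simp
      rw [e1, e1 (g * (wA F * om)), e1 (g * (n1 * wA F * om)), e1 g, EE_mul _ (one_mem Kf),
        EE_mul _ (one_mem Kf), EE_mul _ (one_mem Kf), EE_mul _ (one_mem Kf)]
      have := Ei_TT ((ri (bb (x * (k, 1)).1))⁻¹ * (x * (k, 1)).2 * g)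
      rw [TT] at this
      rw [← this]
      simp only [mul_assoc]
    rw [TT]
    simp only [hDx]
    have e2 := mean_add3 (EE_cont h x (g * om)) (EE_cont h x (g * (wA F * om)))
      (EE_cont h x (g * (n1 * wA F * om)))
    have e3 : (fun k : Kf => EE (x * ((k : GAf) * h, g * om)) +
        EE (x * ((k : GAf) * h, g * (wA F * om))) + EE (x * ((k : GAf) * h, g * (n1 * wA F * om)))) =
        fun k : Kf => 3 * EE (x * ((k : GAf) * h, g)) + 3 := by
      ext k; exact hTE _
    rw [e3] at e2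
    have e4 := mean_add (f := fun k : Kf => 3 * EE (x * ((k : GAf) * h, g))) (g := fun _ => 3)
      (continuous_const.mul (EE_cont h x g)) continuous_const
    rw [mean_smul, mean_const] at e4
    rw [e4] at e2
    have e5 := hTE 1
    linear_combination -e2 - e5
  have hLev : Lev (fun g => D (1, g)) := by
    refine ⟨fun γ g => ?_, fun k hk g => ?_, fun g => ?_⟩
    · have h1 : rf ((Matrix.GeneralLinearGroup.map (algebraMap R K) γ)⁻¹) ∈ Kf := by
        rw [mem_Kf]
        intro v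
        rw [comp_rf, map_inv]
        refine inv_mem ⟨fun i j => ?_, fun i j => ?_⟩
        · show Valued.v (cK v (algebraMap R K (γ i j))) ≤ 1
          rw [v_cK]; exact IsDedekindDomain.HeightOneSpectrum.valuation_le_one v _
        · rw [← map_inv, ← map_inv]
          show Valued.v (cK v (algebraMap R K ((γ⁻¹) i j))) ≤ 1
          rw [v_cK]; exact IsDedekindDomain.HeightOneSpectrum.valuation_le_one v _
      have h2 := hleft ((Matrix.GeneralLinearGroup.map (algebraMap R K) γ)⁻¹) (1, gR γ * g)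
      have h3 := hright (1, g) _ h1
      show D (1, gR γ * g) = D (1, g)
      rw [← h2, ← h3]
      congr 1
      rw [rat_eq, map_inv ri, ri_map]
      ext1
      · show rf _ * 1 = 1 * rf _
        rw [mul_one, one_mul]
      · show (gR γ)⁻¹ * (gR γ * g) = g * 1
        group
    · have := hK 1 k hk g
      simpa using this
    · have := hz 1 g
      simpa using this
  have hconst : ∀ g, D (1, g) = D (1, 1) := hLev.const fun g => by
    have := hT 1 g
    simpa [TT] using this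
  show D x = D 1
  obtain ⟨k, hk, e⟩ := bb_spec x.1
  have e1 : x = rat (bb x.1) * ((1, (ri (bb x.1))⁻¹ * x.2) * (k, 1)) := by
    rw [rat_eq]
    ext1
    · show x.1 = rf _ * (1 * k)
      rw [one_mul]; exact e
    · show x.2 = ri _ * ((ri (bb x.1))⁻¹ * x.2 * 1)
      group
  rw [e1, hleft, hright _ k hk, hconst]
  rfl

/-- The automorphic form `u`. -/
def uA (x : GA) : ℂ := EE (x * (1, om)) - EE x

lemma uA_left (γ : GL (Fin 2) K) (x : GA) : uA (rat γ * x) = uA x := by
  have h1 : ∀ x, EE (rat γ * x) = EE x := ext_left Ei_lev.left γ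
  rw [uA, uA, mul_assoc, h1, h1]

lemma uA_harm (x : GA) : Harm 3 fun g => uA (x * (1, g)) := by
  set y := (ri (bb x.1))⁻¹ * x.2 with hy
  have h1 : ∀ g, EE (x * (1, g)) = Ei (y * g) := fun g => EE_mul x (one_mem Kf) g
  have h2 : (fun g => uA (x * (1, g))) = fun g => Ei (y * (g * om)) - Ei (y * g) := by
    ext g
    rw [uA, ← h1, ← h1, mul_assoc]
    congr 3
    ext <;> simp
  rw [h2]
  refine harm_of (f := fun g => Ei (y * g)) (fun k hk g => ?_) (fun g => ?_) fun g => ?_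
  · rw [← mul_assoc, Ei_lev.right k hk]
  · rw [← mul_assoc, Ei_lev.z]
  · have := Ei_TT (y * g)
    rw [TT] at this ⊢
    rw [← this]
    simp only [mul_assoc]

lemma uA_Sm : uA ∈ Sm GA := by
  have h : uA = rt ((1, om) : GA) EE - EE := rfl
  rw [h]
  exact Submodule.sub_mem _ (rt_mem_Sm _ EE_Sm) EE_Sm

lemma uA_one (g : GF) : uA (1, g) = uF g := by
  rw [uA, uF]
  have h1 : ∀ g, EE (1, g) = Ei g := fun g => ext_one Ei_lev.left g
  rw [← h1, ← h1]
  congr 3
  ext <;> simp

lemma uA_mean (h : GAf) (x : GA) (g : GF) :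
    (mean Kf fun k => uA (x * ((k : GAf) * h, g))) = uA (x * (1, g)) := by
  have e1 := mean_sub (EE_cont h x (g * om)) (EE_cont h x g)
  have e2 : (fun k : Kf => uA (x * ((k : GAf) * h, g))) =
      fun k : Kf => EE (x * ((k : GAf) * h, g * om)) - EE (x * ((k : GAf) * h, g)) := by
    ext k
    rw [uA, mul_assoc]
    congr 3
    ext <;> simp
  rw [e2, e1, ← Eh_mul, ← Eh_mul]
  have e3 := Eh_eq h (x * (1, g * om))
  have e4 := Eh_eq h (x * (1, g))
  have e5 : uA (x * (1, g)) = EE (x * (1, g * om)) - EE (x * (1, g)) := by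
    rw [uA, mul_assoc]
    congr 3
    ext <;> simp
  rw [e5]
  linear_combination e3 - e4

end

end Pool.Agent.Y806.LL
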