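import Pool.Agent.Y806.LL.Lift

/-! # The automorphic representation with component Steinberg at infinity and trivial components at
all finite places -/

open WithZero Topology

namespace Pool.Agent.Y806.LL

noncomputable section

/-- Left `GL₂(K)`-invariant functions. -/
def LI : Submodule ℂ (GA → ℂ) where
  carrier := {φ | ∀ γ x, φ (rat γ * x) = φ x}
  add_mem' := by
    intro φ ψ h h' γ x
    rw [Pi.add_apply, Pi.add_apply, h, h']
  zero_mem' := fun _ _ => rfl
  smul_mem' := by
    intro a φ h γ x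
    rw [Pi.smul_apply, Pi.smul_apply, h]

lemma LI_rt {φ : GA → ℂ} (hφ : φ ∈ LI) (h : GA) : rt h φ ∈ LI := by
  intro γ x
  rw [rt_apply, rt_apply, mul_assoc]
  exact hφ γ _

lemma isAutomorphicForm_of {φ : GA → ℂ} (h1 : φ ∈ LI) (h2 : φ ∈ UA) : IsAutomorphicForm φ where
  left_inv := h1
  smooth := h2.1
  admissible := UA_admissible h2

/-- The space of automorphic forms generated by `u` and the constants. -/
def W1 : Submodule ℂ (GA → ℂ) :=
  Submodule.span ℂ (Set.range fun o : Option GA =>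
    match o with
    | none => (fun _ => 1 : GA → ℂ)
    | some h => rt h uA)

lemma W1_ind {p : (GA → ℂ) → Prop} (h1 : ∀ h, p (rt h uA)) (h2 : p fun _ => 1) (h0 : p 0)
    (hadd : ∀ φ ∈ W1, ∀ ψ ∈ W1, p φ → p ψ → p (φ + ψ)) (hsm : ∀ a : ℂ, ∀ φ ∈ W1, p φ → p (a • φ))
    {φ : GA → ℂ} (hφ : φ ∈ W1) : p φ := by
  induction hφ using Submodule.span_induction with
  | mem x hx =>
    obtain ⟨o, rfl⟩ := hx
    cases o with
    | none => exact h2
    | some h => exact h1 h
  | zero => exact h0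
  | add x y hx hy hx' hy' => exact hadd x hx y hy hx' hy'
  | smul a x hx hx' => exact hsm a x hx hx'

lemma rt_uA_mem (h : GA) : rt h uA ∈ W1 := Submodule.subset_span ⟨some h, rfl⟩

lemma one_mem_W1 : (fun _ => 1) ∈ W1 := Submodule.subset_span ⟨none, rfl⟩

lemma W1_le : W1 ≤ LI ⊓ UA := by
  refine Submodule.span_le.mpr ?_
  rintro _ ⟨o, rfl⟩
  cases o with
  | none => exact ⟨fun _ _ => rfl, UA_const 1⟩
  | some h => exact ⟨LI_rt uA_left h, UA_rt (UA_of_harm uA_Sm uA_harm) h⟩

lemma W1_rt (g : GA) {φ : GA → ℂ} (hφ : φ ∈ W1) : rt g φ ∈ W1 := by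
  refine W1_ind (p := fun φ => rt g φ ∈ W1) (fun h => ?_) one_mem_W1 ?_ ?_ ?_ hφ
  · rw [← Module.End.mul_apply, ← map_mul]; exact rt_uA_mem _
  · rw [map_zero]; exact Submodule.zero_mem _
  · intro φ _ ψ _ h1 h2
    rw [map_add]; exact Submodule.add_mem _ h1 h2
  · intro a φ _ h1
    rw [map_smul]; exact Submodule.smul_mem _ a h1

lemma W1_Sm {φ : GA → ℂ} (hφ : φ ∈ W1) : φ ∈ Sm GA := (W1_le hφ).2.1

/-! ### The map to the Steinberg representation -/

/-- Average over `GL₂(Ô)`. -/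
def aK (w : GA → ℂ) (g : GF) : ℂ := mean Kf fun k => w ((k : GAf), g)

lemma aK_cont {w : GA → ℂ} (hw : w ∈ Sm GA) (g : GF) : Continuous fun k : Kf => w ((k : GAf), g) :=
  (Sm_continuous hw).comp (continuous_subtype_val.prodMk continuous_const)

lemma aK_Sm {w : GA → ℂ} (hw : w ∈ Sm GA) : aK w ∈ Sm GF := by
  obtain ⟨U, hU, h⟩ := hw
  refine ⟨U.comap (MonoidHom.inr GAf GF), hU.preimage inr_cont, fun u hu g => ?_⟩
  rw [aK, aK]; congr 1; ext k
  have := h _ hu ((k : GAf), g)
  rw [← this]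
  congr 1
  ext <;> simp

/-- The functional `Λ`. -/
def LL1 (w : GA → ℂ) (g : GF) : ℂ :=
  1 / 2 * ((mean Iw fun i => aK w (1 * (i : GF)⁻¹ * g)) - mean Iw fun i => aK w (om * (i : GF)⁻¹ * g))

lemma LL1_add {v w : GA → ℂ} (hv : v ∈ Sm GA) (hw : w ∈ Sm GA) (g : GF) :
    LL1 (v + w) g = LL1 v g + LL1 w g := by
  have h1 : ∀ g, aK (v + w) g = aK v g + aK w g := fun g => mean_add (aK_cont hv g) (aK_cont hw g)
  have hv' := Sm_continuous (aK_Sm hv)
  have hw' := Sm_continuous (aK_Sm hw)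
  have h2 : ∀ h : GF, (mean Iw fun i => aK (v + w) (h * (i : GF)⁻¹ * g)) =
      (mean Iw fun i => aK v (h * (i : GF)⁻¹ * g)) + mean Iw fun i => aK w (h * (i : GF)⁻¹ * g) := by
    intro h
    rw [← mean_add (continuous_trans Iw hv' h g) (continuous_trans Iw hw' h g)]
    congr 1; ext i; exact h1 _
  rw [LL1, h2, h2, LL1, LL1]; ring

lemma LL1_smul (a : ℂ) (w : GA → ℂ) (g : GF) : LL1 (a • w) g = a * LL1 w g := by
  have h1 : ∀ g, aK (a • w) g = a * aK w g := fun g => mean_smul a _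
  have h2 : ∀ h : GF, (mean Iw fun i => aK (a • w) (h * (i : GF)⁻¹ * g)) =
      a * (mean Iw fun i => aK w (h * (i : GF)⁻¹ * g)) := by
    intro h
    rw [← mean_smul]
    congr 1; ext i; exact h1 _
  rw [LL1, h2, h2, LL1]; ring

lemma LL1_one (g : GF) : LL1 (fun _ => 1) g = 0 := by
  have h1 : ∀ g, aK (fun _ => 1) g = 1 := fun g => mean_const 1
  simp only [LL1, h1, mean_const]
  ring

lemma LL1_uA (h : GA) (g : GF) : LL1 (rt h uA) g = rt h.2 cS g := by
  have h1 : ∀ g, aK (rt h uA) g = uF (g * h.2) := by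
    intro g
    have h2 := uA_mean h.1 1 (g * h.2)
    rw [one_mul, uA_one] at h2
    rw [← h2, aK]
    congr 1; ext k
    rw [rt_apply]
    congr 1
    ext <;> simp
  simp only [LL1, h1, rt_apply, cS, mul_assoc]

lemma LL1_mem {w : GA → ℂ} (hw : w ∈ W1) : LL1 w ∈ StS.toSubmodule := by
  refine W1_ind (p := fun w => LL1 w ∈ StS.toSubmodule) (fun h => ?_) ?_ ?_ ?_ ?_ hw
  · have : LL1 (rt h uA) = rt h.2 cS := by ext g; exact LL1_uA h g
    rw [this]; exact mem_orb _ _ _
  · have : LL1 (fun _ => 1) = 0 := by ext g; exact LL1_one g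
    rw [this]; exact Submodule.zero_mem _
  · have : LL1 0 = 0 := by
      ext g
      have := LL1_smul 0 0 g
      rw [zero_smul, zero_mul] at this
      exact this
    rw [this]; exact Submodule.zero_mem _
  · intro v hv w hw h1 h2
    have : LL1 (v + w) = LL1 v + LL1 w := by ext g; exact LL1_add (W1_Sm hv) (W1_Sm hw) g
    rw [this]; exact Submodule.add_mem _ h1 h2
  · intro a w hw h1
    have : LL1 (a • w) = a • LL1 w := by ext g; exact LL1_smul a w g
    rw [this]; exact Submodule.smul_mem _ a h1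

/-- The map from `W1` to the Steinberg representation. -/
def T1 : W1 →ₗ[ℂ] StS.toSubmodule where
  toFun w := ⟨LL1 w.1, LL1_mem w.2⟩
  map_add' v w := by
    apply Subtype.ext; ext g; exact LL1_add (W1_Sm v.2) (W1_Sm w.2) g
  map_smul' a w := by
    apply Subtype.ext; ext g; exact LL1_smul a w.1 g

lemma T1_surj : Function.Surjective T1 := by
  rw [← LinearMap.range_eq_top, eq_top_iff]
  intro x _
  refine (Submodule.span_le (p := LinearMap.range T1)).mpr ?_ (St_span x)
  rintro _ ⟨g, rfl⟩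
  refine ⟨⟨rt (1, g) uA, rt_uA_mem _⟩, ?_⟩
  apply Subtype.ext; ext y
  exact LL1_uA (1, g) y

lemma LL1_rt {w : GA → ℂ} (hw : w ∈ W1) (g : GA) (y : GF) : LL1 (rt g w) y = LL1 w (y * g.2) := by
  refine W1_ind (p := fun w => ∀ y, LL1 (rt g w) y = LL1 w (y * g.2)) (fun h y => ?_) ?_ ?_ ?_ ?_ hw y
  · rw [← Module.End.mul_apply, ← map_mul, LL1_uA, LL1_uA, rt_apply, rt_apply, mul_assoc]; rfl
  · intro y
    rw [LL1_one]; exact LL1_one y
  · have h0 : ∀ g, LL1 0 g = 0 := by
      intro g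
      have := LL1_smul 0 0 g
      rw [zero_smul, zero_mul] at this
      exact this
    intro y
    rw [map_zero, h0, h0]
  · intro v hv w hw h1 h2 y
    rw [map_add, LL1_add (W1_Sm (W1_rt g hv)) (W1_Sm (W1_rt g hw)),
      LL1_add (W1_Sm hv) (W1_Sm hw), h1, h2]
  · intro a w hw h1 y
    rw [map_smul, LL1_smul, LL1_smul, h1]

/-! ### The representation `π¹` -/

/-- The representation `π¹`. -/
def Pi1 : SmoothIrrep GA where
  V := StS.toSubmodule
  ρ := StR.comp (MonoidHom.snd GAf GF)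
  smooth := fun x => (StR_smooth x).preimage continuous_snd
  irreducible := irreducible_of _ ⟨St0, St0_ne⟩ fun W hW =>
    irr_submodule StR_irreducible W fun g x hx => hW (1, g) x hx

lemma Pi1_automorphic : IsAutomorphic Pi1 := by
  refine ⟨W1, fun φ hφ => isAutomorphicForm_of (W1_le hφ).1 (W1_le hφ).2, fun g φ hφ => W1_rt g hφ,
    T1, T1_surj, fun g φ => ?_⟩
  apply Subtype.ext; ext y
  exact LL1_rt φ.2 g y

/-! ### The trivial representation -/

/-- The trivial representation. -/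
def triv (G : Type) [Group G] [TopologicalSpace G] : SmoothIrrep G where
  V := ℂ
  ρ := 1
  smooth := fun x => by
    have : {g : G | (1 : Representation ℂ G ℂ) g x = x} = Set.univ := by
      ext g; simp
    rw [this]; exact isOpen_univ
  irreducible := irreducible_of _ ⟨1, one_ne_zero⟩ fun W _ => eq_bot_or_eq_top W

lemma triv_aux : ∃ W : Submodule ℂ (GA → ℂ), (∀ φ ∈ W, IsAutomorphicForm φ) ∧
    ∃ h : ∀ g, ∀ φ ∈ W, rt g φ ∈ W, ∃ T : W →ₗ[ℂ] ℂ, Function.Surjective T ∧
      ∀ g (φ : W), T ⟨rt g φ, h g φ φ.2⟩ = (1 : Representation ℂ GA ℂ) g (T φ) := by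
  refine ⟨Submodule.span ℂ {fun _ => 1}, fun φ hφ => ?_, fun g φ hφ => ?_,
    (LinearMap.proj (1 : GA)) ∘ₗ (Submodule.span ℂ {fun _ => (1 : ℂ)}).subtype, fun z => ?_,
    fun g φ => ?_⟩
  · obtain ⟨a, rfl⟩ := Submodule.mem_span_singleton.mp hφ
    refine isAutomorphicForm_of (fun _ _ => rfl) ?_
    exact Submodule.smul_mem _ a (UA_const 1)
  · obtain ⟨a, rfl⟩ := Submodule.mem_span_singleton.mp hφ
    exact hφ
  · refine ⟨⟨z • fun _ => 1, Submodule.smul_mem _ z (Submodule.mem_span_singleton_self _)⟩, ?_⟩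
    show z * 1 = z
    rw [mul_one]
  · obtain ⟨φ, hφ⟩ := φ
    obtain ⟨a, rfl⟩ := Submodule.mem_span_singleton.mp hφ
    rfl

lemma triv_automorphic : IsAutomorphic (triv GA) := triv_aux

lemma triv_aux2 : ∃ T : ℂ →ₗ[ℂ] (GA → ℂ), T ≠ 0 ∧
    (∀ g x, T ((1 : Representation ℂ GA ℂ) g x) = rt g (T x)) ∧ ∀ x, IsInduced 1 1 (T x) := by
  refine ⟨{ toFun := fun z _ => z
            map_add' := fun _ _ => rfl
            map_smul' := fun _ _ => rfl }, ?_, fun _ _ => rfl,
            fun x => ⟨⟨⊤, isOpen_univ, fun _ _ _ => rfl⟩, fun a d b y => ?_⟩⟩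
  · intro h
    have := congrFun (LinearMap.congr_fun h (1 : ℂ)) 1
    exact one_ne_zero this
  · show x = ((1 : ℂˣ) : ℂ) * ((1 : ℂˣ) : ℂ) * x
    simp

lemma triv_isobaric : IsIsobaric (triv GA) := by
  refine Or.inr ⟨triv_automorphic, 1, 1, ⟨continuous_const, fun _ => rfl⟩,
    ⟨continuous_const, fun _ => rfl⟩, ⟨0, zero_le_one, fun a => ?_⟩, triv_aux2⟩
  rw [Real.rpow_zero, one_mul]

/-! ### Elements supported at one place -/

instance : DecidableEq Pl := Classical.decEq _

lemma update_integral (v : Pl) (a : Kv v) (c : Bool) :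
    ∀ᶠ w : Pl in Filter.cofinite, (Function.update (fun w : Pl => (if c then 1 else 0 : Kv w)) v a) w ∈
      (w.adicCompletionIntegers K : Set (w.adicCompletion K)) := by
  refine Set.Finite.subset (Set.finite_singleton v) ?_
  intro w hw
  by_contra hne
  apply hw
  show Function.update (fun w : Pl => (if c then 1 else 0 : Kv w)) v a w ∈
    (w.adicCompletionIntegers K : Set (w.adicCompletion K))
  rw [Function.update_of_ne hne]
  cases c
  · exact zero_mem (w.adicCompletionIntegers K)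
  · exact one_mem (w.adicCompletionIntegers K)

/-- The adele with component `a` at `v` and `0` or `1` elsewhere. -/
def pt (v : Pl) (a : Kv v) (c : Bool) : Af :=
  ⟨Function.update (fun w : Pl => (if c then 1 else 0 : Kv w)) v a, update_integral v a c⟩

lemma pt_same (v : Pl) (a : Kv v) (c : Bool) : pt v a c v = a := by
  show Function.update (fun w : Pl => (if c then 1 else 0 : Kv w)) v a v = a
  exact Function.update_self _ _ _

lemma pt_ne {v w : Pl} (h : w ≠ v) (a : Kv v) (c : Bool) : pt v a c w = if c then 1 else 0 := by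
  show Function.update (fun w : Pl => (if c then 1 else 0 : Kv w)) v a w = _
  exact Function.update_of_ne h _ _

/-- Evaluation at a place. -/
def ev (v : Pl) : Af →+* Kv v := RestrictedProduct.evalRingHom _ v

lemma ev_ext {x y : Af} (h : ∀ v, ev v x = ev v y) : x = y :=
  IsDedekindDomain.FiniteAdeleRing.ext K h

lemma supp_aux (v : Pl) {g h : GL (Fin 2) (Kv v)} (hgh : g * h = 1) :
    (!![pt v (g 0 0) true, pt v (g 0 1) false; pt v (g 1 0) false, pt v (g 1 1) true] :
      Matrix (Fin 2) (Fin 2) Af) *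
      !![pt v (h 0 0) true, pt v (h 0 1) false; pt v (h 1 0) false, pt v (h 1 1) true] = 1 := by
  have e00 : g 0 0 * h 0 0 + g 0 1 * h 1 0 = 1 := by rw [← mul00, hgh]; simp
  have e01 : g 0 0 * h 0 1 + g 0 1 * h 1 1 = 0 := by rw [← mul01, hgh]; simp
  have e10 : g 1 0 * h 0 0 + g 1 1 * h 1 0 = 0 := by rw [← mul10, hgh]; simp
  have e11 : g 1 0 * h 0 1 + g 1 1 * h 1 1 = 1 := by rw [← mul11, hgh]; simp
  have hsame : ∀ a c, ev v (pt v a c) = a := fun a c => pt_same v a c
  have hne : ∀ w, w ≠ v → ∀ a c, ev w (pt v a c) = if c then 1 else 0 := fun w hw a c => pt_ne hw a c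
  refine Matrix.ext fun i j => ev_ext fun w => ?_
  fin_cases i <;> fin_cases j <;>
    simp only [Matrix.mul_apply, Fin.sum_univ_two, map_add, map_mul, Fin.zero_eta, Fin.mk_one,
      Matrix.of_apply, Matrix.cons_val', Matrix.cons_val_zero, Matrix.cons_val_one,
      Matrix.cons_val_fin_one, Matrix.one_apply_eq, ne_eq, zero_ne_one, one_ne_zero,
      not_false_eq_true, Matrix.one_apply_ne, map_one, map_zero] <;>
    by_cases hw : w = v
  all_goals first
    | (subst hw; simp only [hsame]; assumption)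
    | (simp only [hne w hw]; simp)

/-- Every element of `GL₂(K_v)` is the component of an element supported at `v`. -/
lemma exists_supp (v : Pl) (h : GL (Fin 2) (Kv v)) :
    ∃ g : GAf, (∀ w, w ≠ v → comp w g = 1) ∧ comp v g = h := by
  refine ⟨⟨_, _, supp_aux v (mul_inv_cancel h), supp_aux v (inv_mul_cancel h)⟩, fun w hw => ?_, ?_⟩
  · apply gl_ext
    · exact (pt_ne hw _ _).trans (by simp)
    · exact (pt_ne hw _ _).trans (by simp)
    · exact (pt_ne hw _ _).trans (by simp)
    · exact (pt_ne hw _ _).trans (by simp)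
  · apply gl_ext
    · exact pt_same v _ _
    · exact pt_same v _ _
    · exact pt_same v _ _
    · exact pt_same v _ _

/-! ### The lifting -/

lemma inj_of {H V' : Type} [Group H] [TopologicalSpace H] [AddCommGroup V'] [Module ℂ V']
    (σ : SmoothIrrep H) (T : σ.V →ₗ[ℂ] V') (hT : T ≠ 0)
    (h : ∀ g x, T x = 0 → T (σ.ρ g x) = 0) : Function.Injective T := by
  rcases irr_submodule σ.irreducible (LinearMap.ker T) (fun g x hx => h g x hx) with h1 | h1
  · exact LinearMap.ker_eq_bot.mp h1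
  · exact absurd (LinearMap.ker_eq_top.mp h1) hT

lemma exists_functional (V : Type) [AddCommGroup V] [Module ℂ V] {x : V} (hx : x ≠ 0) :
    ∃ l : V →ₗ[ℂ] ℂ, l x ≠ 0 := by
  have h0 : x ∉ (⊥ : Submodule ℂ V) := hx
  obtain ⟨l, hl, -⟩ := Submodule.exists_le_ker_of_notMem h0
  exact ⟨l, hl⟩

lemma Pi1_lifting : IsGlobalLifting Pi1 (triv GA) := by
  refine ⟨fun v σ hσ _ => ?_, fun σ hσ hu => ?_⟩
  · obtain ⟨T, hT, h⟩ := hσ
    have hinv : ∀ (g : GL (Fin 2) (Kv v)) (x : σ.V), T (σ.ρ g x) = T x := by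
      intro g x
      obtain ⟨g', hg', rfl⟩ := exists_supp v g
      have h1 := h g' hg' x
      have h2 : Pi1.ρ (g', 1) (T x) = T x := by
        show StR 1 (T x) = T x
        rw [map_one]; rfl
      rw [h2] at h1
      exact h1
    have hinj : Function.Injective T := inj_of σ T hT fun g x hx => by rw [hinv, hx]
    have htr : ∀ (g : GL (Fin 2) (Kv v)) (x : σ.V), σ.ρ g x = x := fun g x => hinj (hinv g x)
    obtain ⟨x, hx⟩ := irr_ne σ.irreducible
    obtain ⟨l, hl⟩ := exists_functional σ.V hx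
    refine ⟨l, fun h0 => hl (by rw [h0]; rfl), fun g _ y => ?_⟩
    rw [htr]; rfl
  · exfalso
    obtain ⟨T, hT, h⟩ := hσ
    obtain ⟨x, hx, hfix⟩ := hu
    have hinj : Function.Injective T := inj_of σ T hT fun g x hx => by rw [h, hx, map_zero]
    apply hx
    apply hinj
    rw [map_zero]
    refine StR_no_fixed fun k hk => ?_
    have h1 := h k x
    rw [hfix k hk.1 hk.2] at h1
    exact h1.symm

lemma Pi1_component : IsComponentAtInfty StI Pi1 := by
  refine ⟨LinearMap.id, fun h => ?_, fun _ _ => rfl⟩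
  exact St0_ne (LinearMap.congr_fun h St0)

lemma triv_component : IsComponentAtInfty (triv GF) (triv GA) := by
  refine ⟨LinearMap.id, fun h => ?_, fun _ _ => rfl⟩
  exact (one_ne_zero : (1 : ℂ) ≠ 0) (LinearMap.congr_fun h (1 : ℂ))

lemma StI_ne_aux (e : StS.toSubmodule ≃ₗ[ℂ] ℂ) (he : ∀ g x, e (StR g x) = e x) : False := by
  have h1 := he om St0
  rw [St0_vec.om, map_neg] at h1
  have h4 : e St0 = 0 := by linear_combination -h1 / 2
  exact St0_ne (e.map_eq_zero_iff.mp h4)

/-- The Steinberg representation is not trivial. -/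
lemma StI_ne : StI.cls ≠ (triv GF).cls := by
  intro h
  obtain ⟨e, he⟩ := Quotient.exact h
  exact StI_ne_aux e he

end

end Pool.Agent.Y806.LL
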