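import Pool.Agent.Y806.LL.Cusp

/-! # A cuspidal representation with component Steinberg at infinity -/

open WithZero Topology

namespace Pool.Agent.Y806.LL

noncomputable section

/-! ### Irreducible quotients of cyclic representations -/

/-- Stabilisers. -/
def stab {G V : Type} [Group G] [AddCommGroup V] [Module ℂ V] (ρ : Representation ℂ G V) (z : V) :
    Subgroup G where
  carrier := {g : G | ρ g z = z}
  one_mem' := by simp
  mul_mem' := by
    intro a b ha hb
    show ρ (a * b) z = z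
    rw [map_mul, Module.End.mul_apply, hb, ha]
  inv_mem' := by
    intro a ha
    show ρ a⁻¹ z = z
    have h : ρ a⁻¹ (ρ a z) = z := by
      rw [← Module.End.mul_apply, ← map_mul]; simp
    rwa [ha] at h

theorem exists_irr_quotient {G V : Type} [Group G] [TopologicalSpace G] [IsTopologicalGroup G]
    [AddCommGroup V] [Module ℂ V] (ρ : Representation ℂ G V) (hρ : IsSmooth ρ) (v : V) (hv : v ≠ 0)
    (hgen : ∀ W : Submodule ℂ V, (∀ g, ∀ x ∈ W, ρ g x ∈ W) → v ∈ W → W = ⊤) :
    ∃ π : SmoothIrrep G, ∃ q : V →ₗ[ℂ] π.V, Function.Surjective q ∧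
      (∀ g x, q (ρ g x) = π.ρ g (q x)) ∧ q v ≠ 0 := by
  let P : Set (Submodule ℂ V) := {M | (∀ g, ∀ x ∈ M, ρ g x ∈ M) ∧ v ∉ M}
  obtain ⟨M, -, hM⟩ := zorn_le_nonempty₀ P (fun c hc hchain y hy => by
    refine ⟨sSup c, ⟨fun g x hx => ?_, fun hx => ?_⟩, fun z hz => le_sSup hz⟩
    · rw [Submodule.mem_sSup_of_directed ⟨y, hy⟩ hchain.directedOn] at hx ⊢
      obtain ⟨z, hz, hxz⟩ := hx
      exact ⟨z, hz, (hc hz).1 g x hxz⟩
    · rw [Submodule.mem_sSup_of_directed ⟨y, hy⟩ hchain.directedOn] at hx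
      obtain ⟨z, hz, hxz⟩ := hx
      exact (hc hz).2 hxz) ⊥ ⟨fun g x hx => by
        rw [Submodule.mem_bot] at hx ⊢; rw [hx, map_zero], fun h => hv h⟩
  obtain ⟨⟨hM1, hM2⟩, hM3⟩ := hM
  let σ : Representation ℂ G (V ⧸ M) := ρ.quotient M (fun g x hx => hM1 g x hx)
  have hσ : ∀ g x, σ g (M.mkQ x) = M.mkQ (ρ g x) := fun g x => rfl
  refine ⟨⟨V ⧸ M, σ, fun x => ?_, irreducible_of σ ⟨M.mkQ v, ?_⟩ fun W hW => ?_⟩, M.mkQ,
    M.mkQ_surjective, fun g x => rfl, ?_⟩
  · obtain ⟨x, rfl⟩ := M.mkQ_surjective x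
    have h1 : IsOpen ((stab σ (M.mkQ x) : Subgroup G) : Set G) := by
      refine Subgroup.isOpen_mono (H₁ := stab ρ x) (fun g hg => ?_) (hρ x)
      show σ g (M.mkQ x) = M.mkQ x
      rw [hσ, show ρ g x = x from hg]
    exact h1
  · intro h
    exact hM2 ((Submodule.Quotient.mk_eq_zero M).mp h)
  · have hinv : ∀ g, ∀ x ∈ W.comap M.mkQ, ρ g x ∈ W.comap M.mkQ := fun g x hx => hW g _ hx
    have hle : M ≤ W.comap M.mkQ := fun x hx => by
      show M.mkQ x ∈ W
      rw [show M.mkQ x = 0 from (Submodule.Quotient.mk_eq_zero M).mpr hx]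
      exact W.zero_mem
    by_cases h : v ∈ W.comap M.mkQ
    · right
      have h1 := hgen _ hinv h
      rw [eq_top_iff]
      intro x _
      obtain ⟨x, rfl⟩ := M.mkQ_surjective x
      have : x ∈ W.comap M.mkQ := by rw [h1]; trivial
      exact this
    · left
      have h1 := hM3 ⟨hinv, h⟩ hle
      rw [eq_bot_iff]
      intro x hx
      obtain ⟨x, rfl⟩ := M.mkQ_surjective x
      exact (Submodule.Quotient.mk_eq_zero M).mpr (h1 hx)
  · intro h
    exact hM2 ((Submodule.Quotient.mk_eq_zero M).mp h)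

/-! ### Steinberg components -/

theorem St_embed (π : SmoothIrrep GA) (w : π.V) (hw : w ≠ 0)
    (hv : StVec (π.ρ.comp (MonoidHom.inr GAf GF)) w) : IsComponentAtInfty StI π := by
  set ρ : Representation ℂ GF π.V := π.ρ.comp (MonoidHom.inr GAf GF) with hρdef
  have hρa : ∀ g x, ρ g x = π.ρ (1, g) x := fun g x => rfl
  have hρ : IsSmooth ρ := fun x => (π.smooth x).preimage inr_cont
  -- the vectors which are killed by all averaged functionals
  let N : Submodule ℂ π.V :=
    { carrier := {z | ∀ (h : GA) (l : π.V →ₗ[ℂ] ℂ), avf Iw hρ l (π.ρ h z) = 0}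
      add_mem' := fun {a b} ha hb h l => by rw [map_add, map_add, ha, hb, add_zero]
      zero_mem' := fun h l => by rw [map_zero, map_zero]
      smul_mem' := fun c x hx h l => by rw [map_smul, map_smul, hx, smul_zero] }
  have hN : N = ⊥ := by
    rcases irr_submodule π.irreducible N (fun g x hx h l => by
      rw [← Module.End.mul_apply, ← map_mul]; exact hx _ _) with h | h
    · exact h
    · exfalso
      obtain ⟨l, hl⟩ := exists_functional π.V hw
      have h1 : w ∈ N := by rw [h]; trivial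
      have h2 := h1 1 l
      rw [map_one, Module.End.one_apply, avf_fixed hρ l hv.iw] at h2
      exact hl h2
  have hcomm : ∀ (h : GA) (l : π.V →ₗ[ℂ] ℂ) (z : π.V), avf Iw hρ l (π.ρ h z) =
      avf Iw hρ (l ∘ₗ π.ρ (h.1, 1)) (ρ h.2 z) := by
    intro h l z
    show (mean Iw fun i => l (ρ (i : GF)⁻¹ (π.ρ h z))) =
      mean Iw fun i => l (π.ρ (h.1, 1) (ρ (i : GF)⁻¹ (ρ h.2 z)))
    congr 1; ext i
    congr 1
    rw [hρa, hρa, hρa, ← Module.End.mul_apply, ← map_mul, ← Module.End.mul_apply,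
      ← Module.End.mul_apply, ← map_mul, ← map_mul]
    congr 2
    ext <;> simp
  let Φ₁ : (GF →₀ ℂ) →ₗ[ℂ] StS.toSubmodule := Finsupp.linearCombination ℂ fun g => StR g St0
  let Φ₂ : (GF →₀ ℂ) →ₗ[ℂ] π.V := Finsupp.linearCombination ℂ fun g => ρ g w
  have hsurj : Function.Surjective Φ₁ := by
    rw [← LinearMap.range_eq_top, Finsupp.range_linearCombination, eq_top_iff]
    intro x _
    exact St_span x
  have hker : LinearMap.ker Φ₁ ≤ LinearMap.ker Φ₂ := by
    intro a ha
    rw [LinearMap.mem_ker] at ha ⊢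
    have hz : Φ₂ a ∈ N := by
      intro h l
      rw [hcomm]
      set l' := l ∘ₗ π.ρ (h.1, 1) with hl'
      have e1 : (avf Iw hρ l' ∘ₗ ρ h.2) ∘ₗ Φ₂ = (l' w) • ((evS ∘ₗ StR h.2) ∘ₗ Φ₁) := by
        refine Finsupp.lhom_ext fun g b => ?_
        show avf Iw hρ l' (ρ h.2 (Finsupp.linearCombination ℂ (fun g => ρ g w) (Finsupp.single g b))) =
          l' w * evS (StR h.2 (Finsupp.linearCombination ℂ (fun g => StR g St0) (Finsupp.single g b)))
        rw [Finsupp.linearCombination_single, Finsupp.linearCombination_single, map_smul, map_smul,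
          map_smul, map_smul, ← Module.End.mul_apply, ← map_mul, ← Module.End.mul_apply, ← map_mul,
          hv.avf hρ l' (h.2 * g), evS_apply, smul_eq_mul, smul_eq_mul]
        show b * (l' w * cS (h.2 * g)) = l' w * (b * cS (h.2 * g))
        ring
      have e2 := LinearMap.congr_fun e1 a
      have e3 : (l' w • ((evS ∘ₗ StR h.2) ∘ₗ Φ₁)) a = l' w * evS (StR h.2 (Φ₁ a)) := rfl
      rw [e3, ha, map_zero, map_zero, mul_zero] at e2
      exact e2
    rw [hN] at hz
    exact hz
  let T : StS.toSubmodule →ₗ[ℂ] π.V :=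
    ((LinearMap.ker Φ₁).liftQ Φ₂ hker) ∘ₗ (Φ₁.quotKerEquivOfSurjective hsurj).symm.toLinearMap
  have hT : ∀ a, T (Φ₁ a) = Φ₂ a := by
    intro a
    have : (Φ₁.quotKerEquivOfSurjective hsurj).symm (Φ₁ a) = (LinearMap.ker Φ₁).mkQ a := by
      rw [LinearEquiv.symm_apply_eq]; rfl
    show (LinearMap.ker Φ₁).liftQ Φ₂ hker ((Φ₁.quotKerEquivOfSurjective hsurj).symm (Φ₁ a)) = Φ₂ a
    rw [this]; rfl
  have hTg : ∀ g, T (StR g St0) = ρ g w := by
    intro g
    have h1 := hT (Finsupp.single g 1)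
    have h2 : Φ₁ (Finsupp.single g 1) = StR g St0 := by
      show Finsupp.linearCombination ℂ (fun g => StR g St0) (Finsupp.single g 1) = _
      rw [Finsupp.linearCombination_single, one_smul]
    have h3 : Φ₂ (Finsupp.single g 1) = ρ g w := by
      show Finsupp.linearCombination ℂ (fun g => ρ g w) (Finsupp.single g 1) = _
      rw [Finsupp.linearCombination_single, one_smul]
    rw [h2, h3] at h1
    exact h1
  refine ⟨T, fun h0 => ?_, fun g x => ?_⟩
  · have h1 := hTg 1
    rw [h0, map_one, map_one] at h1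
    exact hw h1.symm
  · have e : T ∘ₗ StR g = ρ g ∘ₗ T := by
      refine LinearMap.ext_on (s := Set.range fun g => StR g St0) ?_ ?_
      · rw [eq_top_iff]; intro x _; exact St_span x
      · rintro _ ⟨g', rfl⟩
        show T (StR g (StR g' St0)) = ρ g (T (StR g' St0))
        rw [← Module.End.mul_apply, ← map_mul, hTg, hTg, map_mul, Module.End.mul_apply]
    exact LinearMap.congr_fun e x

/-! ### The representation `π²` -/

/-- The representation generated by the cusp form. -/
def W2 : Subrepresentation (rt : Representation ℂ GA (GA → ℂ)) := orb rt ph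

lemma W2_le : W2.toSubmodule ≤ CU := by
  refine Submodule.span_le.mpr ?_
  rintro _ ⟨g, rfl⟩
  exact rt_ph_mem g

/-- The generator. -/
def v2 : W2.toSubmodule := ⟨ph, by
  have := mem_orb (rt : Representation ℂ GA (GA → ℂ)) ph 1
  rwa [map_one] at this⟩

lemma v2_ne : v2 ≠ 0 := by
  intro h
  have := congrFun (congrArg Subtype.val h) 1
  change ph 1 = 0 at this
  rw [ph_one] at this
  exact two_ne_zero this

lemma W2_smooth : IsSmooth W2.toRepresentation := by
  intro x
  have h := isOpen_stab (W2_le x.2).2.1.1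
  convert h using 1
  ext g
  exact Subtype.ext_iff

lemma W2_gen (W : Submodule ℂ W2.toSubmodule)
    (hW : ∀ g, ∀ x ∈ W, W2.toRepresentation g x ∈ W) (hv : v2 ∈ W) : W = ⊤ := by
  rw [eq_top_iff]
  have key : ∀ x ∈ W2.toSubmodule, ∀ hx : x ∈ W2.toSubmodule,
      (⟨x, hx⟩ : W2.toSubmodule) ∈ W := by
    intro x hx'
    refine Submodule.span_induction (p := fun x _ => ∀ hx : x ∈ W2.toSubmodule,
      (⟨x, hx⟩ : W2.toSubmodule) ∈ W) ?_ ?_ ?_ ?_ hx'
    · rintro _ ⟨g, rfl⟩ h
      exact hW g _ hv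
    · intro h
      exact Submodule.zero_mem _
    · intro x y hx hy hx1 hy1 h
      exact Submodule.add_mem _ (hx1 hx) (hy1 hy)
    · intro a x hx hx1 h
      exact Submodule.smul_mem _ a (hx1 hx)
  rintro ⟨x, hx⟩ _
  exact key x hx hx

lemma v2_vec : StVec (W2.toRepresentation.comp (MonoidHom.inr GAf GF)) v2 where
  iw i hi := by
    apply Subtype.ext; ext x
    have := (ph_harm x).iw i hi 1
    rw [one_mul] at this
    refine this.trans ?_
    show ph (x * 1) = ph x
    rw [mul_one]
  om := by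
    apply Subtype.ext; ext x
    have := (ph_harm x).om 1
    rw [one_mul] at this
    refine this.trans ?_
    show -ph (x * 1) = -ph x
    rw [mul_one]
  sum := by
    apply Subtype.ext; ext x
    have := (ph_harm x).sum 1
    rw [one_mul, one_mul] at this
    have e : ph (x * (1, 1)) = ph x := by
      show ph (x * 1) = ph x
      rw [mul_one]
    rw [e] at this
    exact this

/-- There is a cuspidal automorphic representation whose component at infinity is the Steinberg
representation. -/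
theorem exists_cuspidal : ∃ π : SmoothIrrep GA, IsCuspidal π ∧ IsAutomorphic π ∧
    IsComponentAtInfty StI π := by
  obtain ⟨π, q, hq, heq, hne⟩ := exists_irr_quotient W2.toRepresentation W2_smooth v2 v2_ne W2_gen
  refine ⟨π, ⟨W2.toSubmodule, fun φ hφ => CU_cusp (W2_le hφ), fun g φ hφ =>
    W2.apply_mem_toSubmodule g hφ, q, hq, fun g φ => heq g φ⟩,
    ⟨W2.toSubmodule, fun φ hφ => (CU_cusp (W2_le hφ)).toIsAutomorphicForm, fun g φ hφ =>
    W2.apply_mem_toSubmodule g hφ, q, hq, fun g φ => heq g φ⟩, St_embed π (q v2) hne ?_⟩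
  refine ⟨fun i hi => ?_, ?_, ?_⟩
  · have h1 := heq (1, i) v2
    have h2 : W2.toRepresentation (1, i) v2 = v2 := v2_vec.iw i hi
    rw [h2] at h1
    exact h1.symm
  · have h1 := heq (1, om) v2
    have h2 : W2.toRepresentation (1, om) v2 = -v2 := v2_vec.om
    rw [h2, map_neg] at h1
    exact h1.symm
  · have h1 := heq (1, wA F) v2
    have h2 := heq (1, n1 * wA F) v2
    have h3 : v2 + W2.toRepresentation (1, wA F) v2 + W2.toRepresentation (1, n1 * wA F) v2 = 0 :=
      v2_vec.sum
    have h4 := congrArg q h3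
    rw [map_add, map_add, h1, h2, map_zero] at h4
    exact h4

end

end Pool.Agent.Y806.LL
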