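import Pool.Agent.Y806.LL.Res

/-! # The Poincaré series `φ` -/

open WithZero Topology

namespace Pool.Agent.Y806.LL

noncomputable section

open Classical in
/-- The indicator function of `K₀ F^×`. -/
def iK (g : GF) : ℂ := if ∃ k ∈ K0, ∃ m : ℤ, g = k * zF ^ m then 1 else 0

open Classical in
/-- The indicator function of `I F^×`. -/
def iA (g : GF) : ℂ := if ∃ k ∈ Iw, ∃ m : ℤ, g = k * zF ^ m then 1 else 0

lemma iK_left {k : GF} (hk : k ∈ K0) (g : GF) : iK (k * g) = iK g := by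
  have : (∃ k' ∈ K0, ∃ m : ℤ, k * g = k' * zF ^ m) ↔ ∃ k' ∈ K0, ∃ m : ℤ, g = k' * zF ^ m := by
    constructor
    · rintro ⟨k', hk', m, e⟩
      exact ⟨k⁻¹ * k', mul_mem (inv_mem hk) hk', m, by rw [mul_assoc, ← e]; group⟩
    · rintro ⟨k', hk', m, e⟩
      exact ⟨k * k', mul_mem hk hk', m, by rw [mul_assoc, ← e]⟩
  classical exact if_congr this rfl rfl

lemma iA_right {k : GF} (hk : k ∈ Iw) (g : GF) : iA (g * k) = iA g := by
  have : (∃ k' ∈ Iw, ∃ m : ℤ, g * k = k' * zF ^ m) ↔ ∃ k' ∈ Iw, ∃ m : ℤ, g = k' * zF ^ m := by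
    constructor
    · rintro ⟨k', hk', m, e⟩
      exact ⟨k' * k⁻¹, mul_mem hk' (inv_mem hk), m, by
        rw [mul_assoc, ← zF_zpow_comm, ← mul_assoc, ← e]; group⟩
    · rintro ⟨k', hk', m, e⟩
      exact ⟨k' * k, mul_mem hk' hk, m, by rw [e, mul_assoc, zF_zpow_comm, mul_assoc]⟩
  classical exact if_congr this rfl rfl

lemma iA_om (g : GF) : iA (g * om) = iA (om⁻¹ * g) := by
  have : (∃ k' ∈ Iw, ∃ m : ℤ, g * om = k' * zF ^ m) ↔ ∃ k' ∈ Iw, ∃ m : ℤ, om⁻¹ * g = k' * zF ^ m := by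
    constructor
    · rintro ⟨k', hk', m, e⟩
      refine ⟨om⁻¹ * k' * om, om_conj' hk', m - 1, ?_⟩
      have e1 : g = k' * zF ^ m * om⁻¹ := by rw [← e]; group
      have e2 : om⁻¹ = om * zF⁻¹ := by rw [← om_sq]; group
      calc om⁻¹ * g = om⁻¹ * (k' * zF ^ m) * (om * zF⁻¹) := by rw [e1, ← e2]; group
        _ = om⁻¹ * k' * (zF ^ m * om) * zF⁻¹ := by group
        _ = om⁻¹ * k' * om * zF ^ (m - 1) := by rw [zF_zpow_comm]; group
    · rintro ⟨k', hk', m, e⟩
      refine ⟨om * k' * om⁻¹, om_conj hk', m + 1, ?_⟩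
      have e1 : g = om * (k' * zF ^ m) := by rw [← e]; group
      have e2 : om = om⁻¹ * zF := by rw [← om_sq]; group
      calc g * om = om * (k' * zF ^ m) * (om⁻¹ * zF) := by rw [e1, ← e2]
        _ = om * k' * (zF ^ m * om⁻¹) * zF := by group
        _ = om * k' * om⁻¹ * zF ^ (m + 1) := by rw [zF_zpow_comm]; group
  classical exact if_congr this rfl rfl

lemma iA_z (g : GF) (m : ℤ) : iA (g * zF ^ m) = iA g := by
  have : (∃ k' ∈ Iw, ∃ n : ℤ, g * zF ^ m = k' * zF ^ n) ↔ ∃ k' ∈ Iw, ∃ n : ℤ, g = k' * zF ^ n := by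
    constructor
    · rintro ⟨k', hk', n, e⟩
      exact ⟨k', hk', n - m, by rw [zpow_sub, ← mul_assoc, ← e]; group⟩
    · rintro ⟨k', hk', n, e⟩
      exact ⟨k', hk', n + m, by rw [e, zpow_add]; group⟩
  classical exact if_congr this rfl rfl

lemma v_det_K0 {k : GF} (hk : k ∈ K0) (m : ℤ) : Valued.v ((k * zF ^ m).det : F) = exp (2 * m) := by
  rw [map_mul, Units.val_mul, map_mul, (mem_maxc.mp hk).2, v_det_z, one_mul]

lemma iA_K0 {k : GF} (hk : k ∈ K0) : iA k = if Valued.v (k 1 0) < 1 then 1 else 0 := by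
  have : (∃ k' ∈ Iw, ∃ n : ℤ, k = k' * zF ^ n) ↔ Valued.v (k 1 0) < 1 := by
    constructor
    · rintro ⟨k', hk', n, e⟩
      have h1 := v_det_K0 (Iw_le hk') n
      rw [← e, (mem_maxc.mp hk).2, ← exp_zero, exp_inj] at h1
      have h2 : n = 0 := by omega
      rw [h2, zpow_zero, mul_one] at e
      rw [e]; exact hk'.2
    · intro h
      exact ⟨k, ⟨hk, h⟩, 0, by simp⟩
  simp only [iA, this]

lemma iA_sum (g : GF) : iA g + iA (g * wA F) + iA (g * (n1 * wA F)) = iK g := by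
  by_cases h : ∃ k ∈ K0, ∃ m : ℤ, g = k * zF ^ m
  · have h' := h
    obtain ⟨k, hk, m, rfl⟩ := h'
    rw [iK, if_pos h, mul_assoc k, mul_assoc k, zF_zpow_comm, zF_zpow_comm, ← mul_assoc,
      ← mul_assoc, iA_z, iA_z, iA_z, iA_K0 hk, iA_K0 (mul_mem hk wF_mem),
      iA_K0 (mul_mem hk (mul_mem (Iw_le n1_mem) wF_mem))]
    have e1 : (k * wA F) 1 0 = k 1 1 := by rw [mul10]; simp
    have e2 : (k * (n1 * wA F)) 1 0 = k 1 0 + k 1 1 := by
      rw [mul10, mul00, mul10]; simp [n1]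
    rw [e1, e2]
    -- residues of the bottom row
    have hK := mem_maxc.mp hk
    have two_case : ∀ a b : F, Valued.v (a - 1) < 1 → Valued.v (b - 1) < 1 → Valued.v (a + b) < 1 := by
      intro a b ha hb
      have : a + b = (a - 1) + (b - 1) + (1 + 1) := by ring
      rw [this, two_F, add_zero]; exact Valuation.map_add_lt _ ha hb
    have not_both : ¬ (Valued.v (k 1 0) < 1 ∧ Valued.v (k 1 1) < 1) := by
      rintro ⟨h1, h2⟩
      have h3 := hK.2
      rw [det2] at h3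
      have h4 : Valued.v (k 0 0 * k 1 1 - k 0 1 * k 1 0) < 1 := by
        refine (Valuation.map_sub _ _ _).trans_lt (max_lt ?_ ?_) <;> rw [map_mul]
        · exact mul_lt_one_le_lt (hK.1 _ _) h2
        · exact mul_lt_one_le_lt (hK.1 _ _) h1
      rw [h3] at h4
      exact lt_irrefl _ h4
    have not_one : ∀ a : F, Valued.v (a - 1) < 1 → ¬ Valued.v a < 1 := by
      intro a ha ha'
      have : Valued.v (a - (a - 1)) < 1 := (Valuation.map_sub _ _ _).trans_lt (max_lt ha' ha)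
      rw [sub_sub_cancel, map_one] at this
      exact lt_irrefl _ this
    rcases residue_cases (hK.1 1 0) with h1 | h1 <;> rcases residue_cases (hK.1 1 1) with h2 | h2
    · exact absurd ⟨h1, h2⟩ not_both
    · have h3 : ¬ Valued.v (k 1 0 + k 1 1) < 1 := by
        intro h3
        apply not_one _ h2
        have : k 1 1 = (k 1 0 + k 1 1) - k 1 0 := by ring
        rw [this]
        exact (Valuation.map_sub _ _ _).trans_lt (max_lt h3 h1)
      rw [if_pos h1, if_neg (not_one _ h2), if_neg h3]; ring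
    · have h3 : ¬ Valued.v (k 1 0 + k 1 1) < 1 := by
        intro h3
        apply not_one _ h1
        have : k 1 0 = (k 1 0 + k 1 1) - k 1 1 := by ring
        rw [this]
        exact (Valuation.map_sub _ _ _).trans_lt (max_lt h3 h2)
      rw [if_neg (not_one _ h1), if_pos h2, if_neg h3]; ring
    · rw [if_neg (not_one _ h1), if_neg (not_one _ h2), if_pos (two_case _ _ h1 h2)]; ring
  · have key : ∀ k ∈ K0, iA (g * k) = 0 := by
      intro k hk
      rw [iA, if_neg]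
      rintro ⟨k', hk', m, e⟩
      apply h
      refine ⟨k' * k⁻¹, mul_mem (Iw_le hk') (inv_mem hk), m, ?_⟩
      rw [mul_assoc, ← zF_zpow_comm, ← mul_assoc, ← e]; group
    have h1 := key 1 (one_mem _)
    rw [mul_one] at h1
    rw [h1, key _ wF_mem, key _ (mul_mem (Iw_le n1_mem) wF_mem), iK, if_neg h]; ring

/-- The function `θ`. -/
def th (g : GF) : ℂ := iA g - iA (om⁻¹ * g)

lemma th_right {k : GF} (hk : k ∈ Iw) (g : GF) : th (g * k) = th g := by
  rw [th, th, ← mul_assoc, iA_right hk, iA_right hk]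

lemma th_om (g : GF) : th (g * om) = -th g := by
  have h : iA (om⁻¹ * (g * om)) = iA g := by
    rw [← mul_assoc, iA_om]
    have : om⁻¹ * (om⁻¹ * g) = g * zF ^ (-1 : ℤ) := by
      rw [← zF_zpow_comm, ← om_sq]; group
    rw [this, iA_z]
  rw [th, th, iA_om, h]; ring

lemma th_sum (g : GF) : th g + th (g * wA F) + th (g * (n1 * wA F)) = iK g - iK (om⁻¹ * g) := by
  have h1 := iA_sum g
  have h2 := iA_sum (om⁻¹ * g)
  rw [mul_assoc, mul_assoc] at h2
  rw [th, th, th]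
  linear_combination h1 - h2

/-! ### Finiteness -/

/-- The support of all functions in question. -/
def BB (g : GF) : Prop := (∃ k ∈ K0, ∃ m : ℤ, g = k * zF ^ m) ∨ ∃ k ∈ K0, ∃ m : ℤ, g = om * k * zF ^ m

lemma BB_of_iK {g : GF} (h : iK g ≠ 0) : BB g := by
  left
  by_contra hcon
  exact h (if_neg hcon)

lemma BB_of_iK' {g : GF} (h : iK (om⁻¹ * g) ≠ 0) : BB g := by
  right
  by_contra hcon
  apply h
  refine if_neg ?_
  rintro ⟨k, hk, m, e⟩
  exact hcon ⟨k, hk, m, by rw [mul_assoc, ← e]; group⟩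

lemma iA_ne {g : GF} (h : iA g ≠ 0) : ∃ k ∈ Iw, ∃ m : ℤ, g = k * zF ^ m := by
  by_contra hcon
  exact h (if_neg hcon)

lemma BB_of_th {g : GF} (h : th g ≠ 0) : BB g := by
  by_cases h1 : iA g = 0
  · by_cases h2 : iA (om⁻¹ * g) = 0
    · exact absurd (by rw [th, h1, h2, sub_zero]) h
    · obtain ⟨k, hk, m, e⟩ := iA_ne h2
      exact Or.inr ⟨k, Iw_le hk, m, by rw [mul_assoc, ← e]; group⟩
  · obtain ⟨k, hk, m, e⟩ := iA_ne h1
    exact Or.inl ⟨k, Iw_le hk, m, e⟩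

lemma v_om_entry (i j : Fin 2) : Valued.v (om i j) ≤ exp (1 : ℤ) := by
  have h1 : (1 : ℤᵐ⁰) ≤ exp (1 : ℤ) := by rw [← exp_zero, exp_le_exp]; norm_num
  revert i j
  refine forall_fin2 ?_ ?_ ?_ ?_
  · have : om 0 0 = 0 := by simp [om, mul00, dg, -Matrix.GeneralLinearGroup.coe_mul]
    rw [this]; simp
  · have : om 0 1 = tF := by simp [om, mul01, dg, -Matrix.GeneralLinearGroup.coe_mul]
    rw [this, v_tF]
  · have : om 1 0 = 1 := by simp [om, mul10, dg, -Matrix.GeneralLinearGroup.coe_mul]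
    rw [this]; simpa using h1
  · have : om 1 1 = 0 := by simp [om, mul11, dg, -Matrix.GeneralLinearGroup.coe_mul]
    rw [this]; simp

lemma v_mul_le {g h : GF} {a b : ℤᵐ⁰} (hg : ∀ i j, Valued.v (g i j) ≤ a)
    (hh : ∀ i j, Valued.v (h i j) ≤ b) (i j : Fin 2) : Valued.v ((g * h) i j) ≤ a * b := by
  rw [mul_ij]
  refine (Valuation.map_add _ _ _).trans (max_le ?_ ?_) <;> rw [map_mul]
  · exact mul_le_mul' (hg _ _) (hh _ _)
  · exact mul_le_mul' (hg _ _) (hh _ _)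

lemma v_z_entry (m : ℤ) (i j : Fin 2) : Valued.v ((zF ^ m) i j) ≤ exp m := by
  rw [zpow_z]
  revert i j
  refine forall_fin2 ?_ ?_ ?_ ?_ <;> simp [v_tF]

lemma v_det_om : Valued.v (om.det : F) = exp (1 : ℤ) := by
  rw [om, map_mul, Units.val_mul, map_mul, v_det_dg]
  have : Valued.v ((wA F).det : F) = 1 := (mem_maxc.mp wF_mem).2
  rw [this, mul_one]

lemma BB_bound {g : GF} (h : BB g) : ∃ m : ℤ, (∀ i j, Valued.v (g i j) ≤ exp (m + 1)) ∧
    (Valued.v (g.det : F) = exp (2 * m) ∨ Valued.v (g.det : F) = exp (2 * m + 1)) := by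
  rcases h with ⟨k, hk, m, rfl⟩ | ⟨k, hk, m, rfl⟩
  · refine ⟨m, fun i j => ?_, Or.inl (v_det_K0 hk m)⟩
    refine (v_mul_le hk.1 (v_z_entry m) i j).trans ?_
    rw [one_mul, exp_le_exp]; omega
  · refine ⟨m, fun i j => ?_, Or.inr ?_⟩
    · refine (v_mul_le (v_mul_le v_om_entry hk.1) (v_z_entry m) i j).trans ?_
      rw [mul_one, ← exp_add, exp_le_exp]; omega
    · rw [mul_assoc, map_mul, Units.val_mul, map_mul, v_det_K0 hk, v_det_om, ← exp_add]
      congr 1; ring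

lemma finite_BB_R (y : GF) : {γ : GL (Fin 2) R | BB (gR γ * y)}.Finite := by
  obtain ⟨D, hD⟩ := exists_exp ((Valuation.ne_zero_iff Valued.v).mpr y.det.ne_zero)
  obtain ⟨N, hN⟩ : ∃ N : ℕ, ∀ i j, Valued.v ((y⁻¹) i j) ≤ exp (N : ℤ) := by
    choose N hN using fun i j => exists_nat_bound (Valued.v ((y⁻¹) i j))
    refine ⟨∑ i, ∑ j, N i j, fun i j => (hN i j).trans ?_⟩
    rw [exp_le_exp]
    have h1 : N i j ≤ ∑ j, N i j := Finset.single_le_sum (f := fun j => N i j)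
      (fun _ _ => Nat.zero_le _) (Finset.mem_univ j)
    have h2 : ∑ j, N i j ≤ ∑ i, ∑ j, N i j := Finset.single_le_sum (f := fun i => ∑ j, N i j)
      (fun _ _ => Nat.zero_le _) (Finset.mem_univ i)
    exact_mod_cast h1.trans h2
  have key : ∀ γ : GL (Fin 2) R, BB (gR γ * y) → ∀ i j, (γ i j).natDegree ≤ D.natAbs + 1 + N := by
    intro γ h i j
    obtain ⟨m, hm, hd⟩ := BB_bound h
    have hdet : Valued.v ((gR γ * y).det : F) = exp D := by
      rw [map_mul, Units.val_mul, map_mul, v_det_gR, hD, one_mul]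
    rw [hdet, exp_inj, exp_inj] at hd
    have e : gR γ = (gR γ * y) * y⁻¹ := by group
    have h1 : Valued.v (pF (γ i j)) ≤ exp (m + 1) * exp (N : ℤ) := by
      rw [← gR_apply, e]
      exact v_mul_le hm hN i j
    by_cases h0 : γ i j = 0
    · rw [h0]; simp
    · rw [v_pF h0, ← exp_add, exp_le_exp] at h1
      omega
  have hfin : {f : Fin 2 → Fin 2 → R | ∀ i j, f i j ∈ {p : R | p.natDegree ≤ D.natAbs + 1 + N}}.Finite := by
    have h1 : (Set.univ.pi fun _ : Fin 2 => {p : R | p.natDegree ≤ D.natAbs + 1 + N}).Finite :=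
      Set.Finite.pi fun _ => finite_natDegree_le _
    have h2 : (Set.univ.pi fun _ : Fin 2 => (Set.univ.pi fun _ : Fin 2 =>
      {p : R | p.natDegree ≤ D.natAbs + 1 + N})).Finite := Set.Finite.pi fun _ => h1
    refine h2.subset fun f hf => ?_
    simp only [Set.mem_univ_pi]
    exact hf
  refine Set.Finite.of_finite_image (f := fun γ : GL (Fin 2) R => fun i j => γ i j)
    (hfin.subset ?_) ?_
  · rintro _ ⟨γ, hγ, rfl⟩
    exact key γ hγ
  · intro γ _ γ' _ h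
    apply Units.ext
    ext1 i j
    exact congrFun (congrFun h i) j

lemma finite_BB (x : GA) : {γ : GL (Fin 2) K | rf γ * x.1 ∈ Kf ∧ BB (ri γ * x.2)}.Finite := by
  obtain ⟨k₀, hk₀, e₀⟩ := bb_spec x.1
  refine ((finite_BB_R ((ri (bb x.1))⁻¹ * x.2)).image fun γ => rK γ * (bb x.1)⁻¹).subset ?_
  rintro γ ⟨h1, h2⟩
  have h3 : rf (γ * bb x.1) ∈ Kf := by
    have : rf (γ * bb x.1) = rf γ * x.1 * k₀⁻¹ := by
      rw [map_mul]
      nth_rewrite 2 [e₀]
      group
    rw [this]; exact mul_mem h1 (inv_mem hk₀)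
  obtain ⟨γ', h4⟩ := exists_of_Kf h3
  refine ⟨γ', ?_, ?_⟩
  · show BB (gR γ' * ((ri (bb x.1))⁻¹ * x.2))
    have : gR γ' * ((ri (bb x.1))⁻¹ * x.2) = ri γ * x.2 := by
      rw [← ri_map, h4, map_mul]; group
    rw [this]; exact h2
  · show rK γ' * (bb x.1)⁻¹ = γ
    rw [rK, h4]; group

/-! ### The Poincaré series -/

/-- `∑ S(γ x_f) f(γ x_∞)` -/
def PP (f : GF → ℂ) (x : GA) : ℂ := ∑ᶠ γ : GL (Fin 2) K, SS (rf γ * x.1) * f (ri γ * x.2)

lemma PP_supp {f : GF → ℂ} (hf : ∀ g, f g ≠ 0 → BB g) (x : GA) :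
    (Function.support fun γ : GL (Fin 2) K => SS (rf γ * x.1) * f (ri γ * x.2)).Finite := by
  refine (finite_BB x).subset fun γ hγ => ?_
  have hγ' : SS (rf γ * x.1) * f (ri γ * x.2) ≠ 0 := hγ
  exact ⟨SS_mem (left_ne_zero_of_mul hγ'), hf _ (right_ne_zero_of_mul hγ')⟩

lemma PP_left (f : GF → ℂ) (γ₀ : GL (Fin 2) K) (x : GA) : PP f (rat γ₀ * x) = PP f x := by
  have h := finsum_comp_equiv (Equiv.mulRight γ₀)
    (f := fun γ : GL (Fin 2) K => SS (rf γ * x.1) * f (ri γ * x.2))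
  rw [PP, PP, ← h]
  congr 1
  ext γ
  show SS (rf γ * (rf γ₀ * x.1)) * f (ri γ * (ri γ₀ * x.2)) =
    SS (rf (γ * γ₀) * x.1) * f (ri (γ * γ₀) * x.2)
  rw [map_mul, map_mul, mul_assoc, mul_assoc]

/-- Substitution `γ ↦ γ₀ γ`. -/
lemma PP_subst (f : GF → ℂ) (γ₀ : GL (Fin 2) K) (x : GA) :
    PP f x = ∑ᶠ γ : GL (Fin 2) K, SS (rf γ₀ * (rf γ * x.1)) * f (ri γ₀ * (ri γ * x.2)) := by
  have h := finsum_comp_equiv (Equiv.mulLeft γ₀)
    (f := fun γ : GL (Fin 2) K => SS (rf γ * x.1) * f (ri γ * x.2))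
  rw [PP, ← h]
  congr 1
  ext γ
  show SS (rf (γ₀ * γ) * x.1) * f (ri (γ₀ * γ) * x.2) = _
  rw [map_mul, map_mul, mul_assoc, mul_assoc]

lemma rho_mem : gR rho ∈ K0 := by
  have hle : ∀ (γ : GL (Fin 2) R), (∀ i j, γ i j = 0 ∨ γ i j = 1 ∨ γ i j = -1) →
      ∀ i j, Valued.v (gR γ i j) ≤ 1 := by
    intro γ h i j
    rw [gR_apply]
    rcases h i j with h | h | h <;> rw [h] <;> simp
  refine ⟨hle rho ?_, ?_⟩
  · refine forall_fin2 ?_ ?_ ?_ ?_ <;> simp [rho_00, rho_01, rho_10, rho_11]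
  · rw [← map_inv]
    refine hle _ ?_
    refine forall_fin2 (Or.inr (Or.inr rfl)) (Or.inr (Or.inl rfl)) (Or.inr (Or.inl rfl)) (Or.inl rfl)

/-- The first sum vanishes. -/
lemma PP_iK (x : GA) : PP iK x = 0 := by
  have hs := PP_supp (fun g => BB_of_iK) x
  have e1 := PP_subst iK (rK rho) x
  have e2 := PP_subst iK (rK rho * rK rho) x
  have hk : ∀ g, iK (ri (rK rho) * g) = iK g := fun g => by
    rw [ri_rK]; exact iK_left rho_mem g
  have hk2 : ∀ g, iK (ri (rK rho * rK rho) * g) = iK g := fun g => by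
    rw [map_mul, mul_assoc, hk, hk]
  simp only [hk] at e1
  simp only [hk2] at e2
  have hs1 : (Function.support fun γ : GL (Fin 2) K =>
      SS (rf (rK rho) * (rf γ * x.1)) * iK (ri γ * x.2)).Finite := by
    refine (finite_BB x).subset fun γ hγ => ?_
    have hγ' : SS (rf (rK rho) * (rf γ * x.1)) * iK (ri γ * x.2) ≠ 0 := hγ
    exact ⟨(Kf_mul_iff (rf_rK_mem rho)).mp (SS_mem (left_ne_zero_of_mul hγ')),
      BB_of_iK (right_ne_zero_of_mul hγ')⟩
  have hs2 : (Function.support fun γ : GL (Fin 2) K =>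
      SS (rf (rK rho * rK rho) * (rf γ * x.1)) * iK (ri γ * x.2)).Finite := by
    refine (finite_BB x).subset fun γ hγ => ?_
    have hγ' : SS (rf (rK rho * rK rho) * (rf γ * x.1)) * iK (ri γ * x.2) ≠ 0 := hγ
    rw [← map_mul rK] at hγ'
    exact ⟨(Kf_mul_iff (rf_rK_mem _)).mp (SS_mem (left_ne_zero_of_mul hγ')),
      BB_of_iK (right_ne_zero_of_mul hγ')⟩
  have h3 := finsum_add_distrib hs hs1
  have h4 := finsum_add_distrib (f := fun γ : GL (Fin 2) K => SS (rf γ * x.1) * iK (ri γ * x.2) +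
    SS (rf (rK rho) * (rf γ * x.1)) * iK (ri γ * x.2)) ((hs.union hs1).subset
      (Function.support_add _ _)) hs2
  rw [h3, ← e1, ← e2] at h4
  have h5 : (fun γ : GL (Fin 2) K => SS (rf γ * x.1) * iK (ri γ * x.2) +
      SS (rf (rK rho) * (rf γ * x.1)) * iK (ri γ * x.2) +
      SS (rf (rK rho * rK rho) * (rf γ * x.1)) * iK (ri γ * x.2)) = fun _ => 0 := by
    ext γ
    rw [map_mul rf, mul_assoc (rf (rK rho)) (rf (rK rho)), ← add_mul, ← add_mul, SS_rho, zero_mul]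
  rw [h5, finsum_zero] at h4
  have h6 : PP iK x = ∑ᶠ γ : GL (Fin 2) K, SS (rf γ * x.1) * iK (ri γ * x.2) := rfl
  rw [← h6] at h4
  linear_combination -h4 / 3

lemma om_nt_om : om⁻¹ * gR nt * om ∈ K0 := by
  have h : gR nt * om = om * lowA 1 := by
    apply gl_ext <;>
      simp [mul00, mul01, mul10, mul11, -Matrix.GeneralLinearGroup.coe_mul, om, dg, gR_apply, nt, tF]
  rw [mul_assoc, h, ← mul_assoc, inv_mul_cancel, one_mul]
  exact lowA_mem (by simp)

/-- The second sum vanishes. -/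
lemma PP_iK' (x : GA) : PP (fun g => iK (om⁻¹ * g)) x = 0 := by
  have e1 := PP_subst (fun g => iK (om⁻¹ * g)) (rK nt) x
  have hk : ∀ g, iK (om⁻¹ * (ri (rK nt) * g)) = iK (om⁻¹ * g) := fun g => by
    have : om⁻¹ * (ri (rK nt) * g) = (om⁻¹ * gR nt * om) * (om⁻¹ * g) := by
      rw [ri_rK]; group
    rw [this, iK_left om_nt_om]
  simp only [hk, SS_nt, neg_mul] at e1
  rw [finsum_neg_distrib] at e1
  have h6 : PP (fun g => iK (om⁻¹ * g)) x =
    ∑ᶠ γ : GL (Fin 2) K, SS (rf γ * x.1) * iK (om⁻¹ * (ri γ * x.2)) := rfl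
  rw [← h6] at e1
  linear_combination e1 / 2

/-- The cusp form. -/
def ph : GA → ℂ := PP th

lemma ph_left (γ : GL (Fin 2) K) (x : GA) : ph (rat γ * x) = ph x := PP_left th γ x

lemma ph_harm (x : GA) : Harm 0 fun g => ph (x * (1, g)) where
  iw i hi g := by
    show PP th (x * (1, g * i)) = PP th (x * (1, g))
    rw [PP, PP]
    congr 1; ext γ
    show SS (rf γ * (x.1 * 1)) * th (ri γ * (x.2 * (g * i))) =
      SS (rf γ * (x.1 * 1)) * th (ri γ * (x.2 * g))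
    have e : ri γ * (x.2 * (g * i)) = ri γ * (x.2 * g) * i := by group
    rw [e, th_right hi]
  om g := by
    show PP th (x * (1, g * om)) = -PP th (x * (1, g))
    rw [PP, PP, ← finsum_neg_distrib]
    congr 1; ext γ
    show SS (rf γ * (x.1 * 1)) * th (ri γ * (x.2 * (g * om))) =
      -(SS (rf γ * (x.1 * 1)) * th (ri γ * (x.2 * g)))
    have e : ri γ * (x.2 * (g * Pool.Agent.Y806.LL.om)) =
      ri γ * (x.2 * g) * Pool.Agent.Y806.LL.om := by group
    rw [e, th_om]; ring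
  sum g := by
    have hs : ∀ h : GF, (Function.support fun γ : GL (Fin 2) K =>
        SS (rf γ * x.1) * th (ri γ * (x.2 * h))).Finite := fun h =>
      PP_supp (fun g => BB_of_th) (x.1, x.2 * h)
    have e : ∀ h : GF, ph (x * (1, h)) = ∑ᶠ γ : GL (Fin 2) K, SS (rf γ * x.1) * th (ri γ * (x.2 * h)) := by
      intro h
      rw [ph, PP]
      congr 1; ext γ
      show SS (rf γ * (x.1 * 1)) * th (ri γ * (x.2 * h)) = _
      rw [mul_one]
    rw [e, e, e, ← finsum_add_distrib (hs _) (hs _), ← finsum_add_distrib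
      (((hs _).union (hs _)).subset (Function.support_add _ _)) (hs _)]
    have h1 := PP_iK (x.1, x.2 * g)
    have h2 := PP_iK' (x.1, x.2 * g)
    have h3 := finsum_sub_distrib (PP_supp (fun g => BB_of_iK) (x.1, x.2 * g))
      (PP_supp (f := fun g => iK (om⁻¹ * g)) (fun g => BB_of_iK') (x.1, x.2 * g))
    rw [PP] at h1 h2
    rw [h1, h2, sub_zero] at h3
    rw [← h3]
    congr 1; ext γ
    have h4 := th_sum (ri γ * (x.2 * g))
    simp only
    rw [← mul_sub, ← h4, mul_assoc (ri γ), mul_assoc (ri γ), mul_assoc x.2, mul_assoc x.2]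
    ring

lemma ph_Sm : ph ∈ Sm GA := by
  obtain ⟨U, hU, h⟩ := SS_Sm
  refine ⟨U.prod Iw, hU.prod isOpen_Iw, fun u hu x => ?_⟩
  rw [ph, PP, PP]
  congr 1; ext γ
  show SS (rf γ * (x.1 * u.1)) * th (ri γ * (x.2 * u.2)) = _
  rw [← mul_assoc, ← mul_assoc, h _ hu.1, th_right hu.2]

lemma ph_mem : ph ∈ LI ⊓ UA := ⟨ph_left, UA_of_harm ph_Sm ph_harm⟩

end

end Pool.Agent.Y806.LL
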