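import Pool.Agent.Y806.LL.Pi1

/-! # Residues at the places `t = 0` and `t = 1` -/

open IsDedekindDomain IsDedekindDomain.HeightOneSpectrum WithZero Topology

namespace Pool.Agent.Y806.LL

noncomputable section

section

variable {L : Type} [Field L] [hv : Valued L ℤᵐ⁰]

/-- The residue in `𝔽₂`. -/
def rs (x : L) : ZMod 2 := if Valued.v x < 1 then 0 else 1

/-- The residue field is `𝔽₂`, in characteristic two. -/
structure Two (L : Type) [Field L] [Valued L ℤᵐ⁰] : Prop where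
  two : (1 : L) + 1 = 0
  cases : ∀ x : L, Valued.v x ≤ 1 → Valued.v x < 1 ∨ Valued.v (x - 1) < 1

lemma rs_zero {x : L} (h : Valued.v x < 1) : rs x = 0 := if_pos h

lemma rs_one' {x : L} (h : ¬ Valued.v x < 1) : rs x = 1 := if_neg h

lemma rs_one {x : L} (h : Valued.v (x - 1) < 1) : rs x = 1 := by
  refine rs_one' fun h' => ?_
  have : Valued.v (x - (x - 1)) < 1 := (Valuation.map_sub _ _ _).trans_lt (max_lt h' h)
  rw [sub_sub_cancel, map_one] at this
  exact lt_irrefl _ this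

lemma Two.rs_cases (hL : Two L) {x : L} (hx : Valued.v x ≤ 1) :
    (rs x = 0 ∧ Valued.v x < 1) ∨ (rs x = 1 ∧ Valued.v (x - 1) < 1) := by
  rcases hL.cases x hx with h | h
  · exact Or.inl ⟨rs_zero h, h⟩
  · exact Or.inr ⟨rs_one h, h⟩

lemma Two.neg (hL : Two L) (x : L) : -x = x := by
  rw [neg_eq_iff_add_eq_zero]
  calc x + x = x * (1 + 1) := by ring
    _ = 0 := by rw [hL.two, mul_zero]

lemma Two.rs_add (hL : Two L) {x y : L} (hx : Valued.v x ≤ 1) (hy : Valued.v y ≤ 1) :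
    rs (x + y) = rs x + rs y := by
  rcases hL.rs_cases hx with ⟨h1, h1'⟩ | ⟨h1, h1'⟩ <;>
    rcases hL.rs_cases hy with ⟨h2, h2'⟩ | ⟨h2, h2'⟩ <;> rw [h1, h2]
  · rw [rs_zero (Valuation.map_add_lt _ h1' h2')]; rfl
  · rw [rs_one]; · rfl
    have : x + y - 1 = x + (y - 1) := by ring
    rw [this]; exact Valuation.map_add_lt _ h1' h2'
  · rw [rs_one]; · rfl
    have : x + y - 1 = (x - 1) + y := by ring
    rw [this]; exact Valuation.map_add_lt _ h1' h2'
  · rw [rs_zero]; · rfl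
    have : x + y = (x - 1) + (y - 1) + (1 + 1) := by ring
    rw [this, hL.two, add_zero]; exact Valuation.map_add_lt _ h1' h2'

lemma Two.rs_mul (hL : Two L) {x y : L} (hx : Valued.v x ≤ 1) (hy : Valued.v y ≤ 1) :
    rs (x * y) = rs x * rs y := by
  rcases hL.rs_cases hx with ⟨h1, h1'⟩ | ⟨h1, h1'⟩
  · rw [h1, zero_mul, rs_zero]
    rw [map_mul]; exact mul_lt_one_lt_le h1' hy
  · rcases hL.rs_cases hy with ⟨h2, h2'⟩ | ⟨h2, h2'⟩
    · rw [h2, mul_zero, rs_zero]
      rw [map_mul]; exact mul_lt_one_le_lt hx h2'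
    · rw [h1, h2, rs_one]; · rfl
      have : x * y - 1 = x * (y - 1) + (x - 1) := by ring
      rw [this]
      refine Valuation.map_add_lt _ ?_ h1'
      rw [map_mul]; exact mul_lt_one_le_lt hx h2'

lemma Two.rs_mul_entry (hL : Two L) {g h : GL (Fin 2) L} (hg : g ∈ maxc L) (hh : h ∈ maxc L)
    (i j : Fin 2) : rs ((g * h) i j) = rs (g i 0) * rs (h 0 j) + rs (g i 1) * rs (h 1 j) := by
  rw [mul_ij, hL.rs_add, hL.rs_mul (hg.1 _ _) (hh.1 _ _), hL.rs_mul (hg.1 _ _) (hh.1 _ _)]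
  · rw [map_mul]; exact mul_le_one' (hg.1 _ _) (hh.1 _ _)
  · rw [map_mul]; exact mul_le_one' (hg.1 _ _) (hh.1 _ _)

lemma Two.rs_det (hL : Two L) {g : GL (Fin 2) L} (hg : g ∈ maxc L) :
    rs (g 0 0) * rs (g 1 1) + rs (g 0 1) * rs (g 1 0) = 1 := by
  have h := (mem_maxc.mp hg).2
  rw [det2, sub_eq_add_neg, hL.neg] at h
  rw [← hL.rs_mul (hg.1 _ _) (hg.1 _ _), ← hL.rs_mul (hg.1 _ _) (hg.1 _ _), ← hL.rs_add]
  · refine rs_one' ?_
    rw [h]; exact lt_irrefl _
  · rw [map_mul]; exact mul_le_one' (hg.1 _ _) (hg.1 _ _)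
  · rw [map_mul]; exact mul_le_one' (hg.1 _ _) (hg.1 _ _)

end

/-! ### The two places -/

/-- The place `t = a`. -/
def pl (a : ZMod 2) : Pl where
  asIdeal := Ideal.span {Polynomial.X - Polynomial.C a}
  isPrime := (Ideal.span_singleton_prime (Polynomial.X_sub_C_ne_zero a)).mpr
    (Polynomial.prime_X_sub_C a)
  ne_bot := by
    rw [Ne, Ideal.span_singleton_eq_bot]
    exact Polynomial.X_sub_C_ne_zero a

lemma v_pl {a : ZMod 2} {r : R} (h : r.eval a = 0) : Valued.v (cK (pl a) (algebraMap R K r)) < 1 := by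
  rw [v_cK, valuation_lt_one_iff_mem]
  show r ∈ Ideal.span {Polynomial.X - Polynomial.C a}
  rw [Ideal.mem_span_singleton]
  exact Polynomial.dvd_iff_isRoot.mpr h

lemma two_pl (a : ZMod 2) : Two (Kv (pl a)) where
  two := by
    have h : (1 : R) + 1 = 0 := by
      have : (1 : Polynomial (ZMod 2)) + 1 = Polynomial.C (1 + 1) := by simp
      rw [this]; have : (1 : ZMod 2) + 1 = 0 := by decide
      rw [this, map_zero]
    have := congrArg (fun r => cK (pl a) (algebraMap R K r)) h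
    simpa using this
  cases x hx := by
    obtain ⟨r, hr⟩ := approx_int (pl a) x hx 1
    have hr' : Valued.v (x - cK (pl a) (algebraMap R K r)) < 1 := by
      refine lt_of_le_of_lt hr ?_
      rw [← exp_zero, exp_lt_exp]; norm_num
    rcases zmod2_cases (r.eval a) with h | h
    · left
      have : x = (x - cK (pl a) (algebraMap R K r)) + cK (pl a) (algebraMap R K r) := by ring
      rw [this]
      exact Valuation.map_add_lt _ hr' (v_pl h)
    · right
      have h1 : (r - 1).eval a = 0 := by simp [h]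
      have : x - 1 = (x - cK (pl a) (algebraMap R K r)) + cK (pl a) (algebraMap R K (r - 1)) := by
        rw [map_sub, map_sub, map_one, map_one]; ring
      rw [this]
      exact Valuation.map_add_lt _ hr' (v_pl h1)

lemma rs_pl (a : ZMod 2) (r : R) : rs (cK (pl a) (algebraMap R K r)) = r.eval a := by
  rcases zmod2_cases (r.eval a) with h | h
  · rw [h]; exact rs_zero (v_pl h)
  · rw [h]
    refine rs_one ?_
    have h1 : (r - 1).eval a = 0 := by simp [h]
    have h2 := v_pl h1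
    rw [map_sub, map_sub, map_one, map_one] at h2
    exact h2

/-! ### The function `S` -/

/-- The sign of `GL₂(𝔽₂)`. -/
def sg (a b c d : ZMod 2) : ℤ := if a + d = 1 ∨ (a = 1 ∧ b = 0 ∧ c = 0 ∧ d = 1) then 1 else -1

/-- A matrix coefficient of the two dimensional representation of `GL₂(𝔽₂)`. -/
def ps (a b c d : ZMod 2) : ℤ :=
  (if a = 1 ∧ b = 0 then 1 else 0) - (if a + c = 1 ∧ b + d = 0 then 1 else 0)

lemma sg_n : ∀ a b c d : ZMod 2, a * d + b * c = 1 → sg (a + c) (b + d) c d = -sg a b c d := by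
  decide

lemma sg_rho : ∀ a b c d : ZMod 2, a * d + b * c = 1 → sg c d (a + c) (b + d) = sg a b c d := by
  decide

lemma ps_n : ∀ a b c d : ZMod 2, ps (a + c) (b + d) c d = -ps a b c d := by
  decide

lemma ps_rho : ∀ a b c d : ZMod 2,
    ps a b c d + ps c d (a + c) (b + d) + ps (a + c) (b + d) (c + (a + c)) (d + (b + d)) = 0 := by
  decide

/-- Product of the two functions. -/
def sp (a b c d a' b' c' d' : ZMod 2) : ℂ := ((sg a b c d * ps a' b' c' d' : ℤ) : ℂ)

open Classical in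
/-- The function `S` on `GL₂` of the finite adeles. -/
def SS (g : GAf) : ℂ :=
  if g ∈ Kf then
    sp (rs (comp (pl 0) g 0 0)) (rs (comp (pl 0) g 0 1)) (rs (comp (pl 0) g 1 0))
      (rs (comp (pl 0) g 1 1)) (rs (comp (pl 1) g 0 0)) (rs (comp (pl 1) g 0 1))
      (rs (comp (pl 1) g 1 0)) (rs (comp (pl 1) g 1 1))
  else 0

/-- The embedding of `GL₂(R)` in `GL₂(K)`. -/
def rK : GL (Fin 2) R →* GL (Fin 2) K := Matrix.GeneralLinearGroup.map (algebraMap R K)

lemma ri_rK (γ : GL (Fin 2) R) : ri (rK γ) = gR γ := ri_map γ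

lemma comp_rK (v : Pl) (γ : GL (Fin 2) R) (i j : Fin 2) :
    comp v (rf (rK γ)) i j = cK v (algebraMap R K (γ i j)) := rfl

lemma rf_rK_mem (γ : GL (Fin 2) R) : rf (rK γ) ∈ Kf := by
  rw [mem_Kf]
  refine fun v => ⟨fun i j => ?_, fun i j => ?_⟩
  · rw [comp_rK, v_cK]; exact valuation_le_one v _
  · rw [← map_inv, ← map_inv, ← map_inv, comp_rK, v_cK]; exact valuation_le_one v _

lemma Kf_mul_iff {k g : GAf} (hk : k ∈ Kf) : k * g ∈ Kf ↔ g ∈ Kf := Subgroup.mul_mem_cancel_left _ hk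

/-- `(0, 1; 1, 1)` -/
def rho : GL (Fin 2) R where
  val := !![0, 1; 1, 1]
  inv := !![-1, 1; 1, 0]
  val_inv := by
    ext i j; fin_cases i <;> fin_cases j <;> simp [Matrix.mul_apply, Fin.sum_univ_two]
  inv_val := by
    ext i j; fin_cases i <;> fin_cases j <;> simp [Matrix.mul_apply, Fin.sum_univ_two]

/-- `(1, t; 0, 1)` -/
def nt : GL (Fin 2) R := upper 1 1 Polynomial.X

/-- `(1, 1; 0, 1)` -/
def nR : GL (Fin 2) R := upper 1 1 1

lemma rs_entry (a : ZMod 2) (γ : GL (Fin 2) R) {g : GAf} (hg : g ∈ Kf) (i j : Fin 2) :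
    rs (comp (pl a) (rf (rK γ) * g) i j) =
      (γ i 0).eval a * rs (comp (pl a) g 0 j) + (γ i 1).eval a * rs (comp (pl a) g 1 j) := by
  rw [map_mul, (two_pl a).rs_mul_entry (mem_Kf.mp (rf_rK_mem γ) _) (mem_Kf.mp hg _), comp_rK,
    comp_rK, rs_pl, rs_pl]

lemma rho_00 : rho 0 0 = 0 := rfl
lemma rho_01 : rho 0 1 = 1 := rfl
lemma rho_10 : rho 1 0 = 1 := rfl
lemma rho_11 : rho 1 1 = 1 := rfl

lemma SS_nR (g : GAf) : SS (rf (rK nR) * g) = SS g := by
  by_cases hg : g ∈ Kf
  · have hg' : rf (rK nR) * g ∈ Kf := (Kf_mul_iff (rf_rK_mem _)).mpr hg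
    rw [SS, SS, if_pos hg, if_pos hg']
    simp only [rs_entry _ _ hg, nR, upper_00, upper_01, upper_10, upper_11, Units.val_one,
      Polynomial.eval_one, Polynomial.eval_zero, one_mul, zero_mul, zero_add, sp]
    have h0 := (two_pl 0).rs_det (mem_Kf.mp hg (pl 0))
    rw [sg_n _ _ _ _ h0, ps_n]
    push_cast; ring
  · have hg' : rf (rK nR) * g ∉ Kf := fun h => hg ((Kf_mul_iff (rf_rK_mem _)).mp h)
    rw [SS, SS, if_neg hg, if_neg hg']

lemma SS_nt (g : GAf) : SS (rf (rK nt) * g) = -SS g := by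
  by_cases hg : g ∈ Kf
  · have hg' : rf (rK nt) * g ∈ Kf := (Kf_mul_iff (rf_rK_mem _)).mpr hg
    rw [SS, SS, if_pos hg, if_pos hg']
    simp only [rs_entry _ _ hg, nt, upper_00, upper_01, upper_10, upper_11, Units.val_one,
      Polynomial.eval_one, Polynomial.eval_zero, Polynomial.eval_X, one_mul, zero_mul, zero_add,
      add_zero, sp]
    rw [ps_n]
    push_cast; ring
  · have hg' : rf (rK nt) * g ∉ Kf := fun h => hg ((Kf_mul_iff (rf_rK_mem _)).mp h)
    rw [SS, SS, if_neg hg, if_neg hg', neg_zero]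

lemma SS_rho (g : GAf) : SS g + SS (rf (rK rho) * g) + SS (rf (rK rho) * (rf (rK rho) * g)) = 0 := by
  by_cases hg : g ∈ Kf
  · have hg' : rf (rK rho) * g ∈ Kf := (Kf_mul_iff (rf_rK_mem _)).mpr hg
    have hg'' : rf (rK rho) * (rf (rK rho) * g) ∈ Kf := (Kf_mul_iff (rf_rK_mem _)).mpr hg'
    rw [SS, SS, SS, if_pos hg, if_pos hg', if_pos hg'']
    simp only [rs_entry _ _ hg, rs_entry _ _ hg', rho_00, rho_01, rho_10, rho_11,
      Polynomial.eval_one, Polynomial.eval_zero, one_mul, zero_mul, zero_add, sp]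
    have h0 := (two_pl 0).rs_det (mem_Kf.mp hg (pl 0))
    have h1 := (two_pl 0).rs_det (mem_Kf.mp hg' (pl 0))
    simp only [rs_entry _ _ hg, rho_00, rho_01, rho_10, rho_11,
      Polynomial.eval_one, Polynomial.eval_zero, one_mul, zero_mul, zero_add] at h1
    rw [sg_rho _ _ _ _ h1, sg_rho _ _ _ _ h0, ← Int.cast_add, ← Int.cast_add, ← mul_add, ← mul_add,
      ps_rho, mul_zero, Int.cast_zero]
  · have hg' : rf (rK rho) * g ∉ Kf := fun h => hg ((Kf_mul_iff (rf_rK_mem _)).mp h)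
    have hg'' : rf (rK rho) * (rf (rK rho) * g) ∉ Kf :=
      fun h => hg' ((Kf_mul_iff (rf_rK_mem _)).mp h)
    rw [SS, SS, SS, if_neg hg, if_neg hg', if_neg hg'']; ring

lemma SS_mem {g : GAf} (h : SS g ≠ 0) : g ∈ Kf := by
  by_contra hg
  exact h (by rw [SS, if_neg hg])

lemma rs_zero_eq {L : Type} [Field L] [Valued L ℤᵐ⁰] : rs (0 : L) = 0 := rs_zero (by simp)
lemma rs_one_eq {L : Type} [Field L] [Valued L ℤᵐ⁰] : rs (1 : L) = 1 := rs_one (by simp)

lemma SS_one : SS 1 = 1 := by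
  rw [SS, if_pos (one_mem Kf)]
  have h : ∀ a, comp (pl a) 1 = 1 := fun a => map_one _
  simp only [h, Units.val_one, Matrix.one_apply_eq, ne_eq, zero_ne_one, one_ne_zero,
    not_false_eq_true, Matrix.one_apply_ne, rs_zero_eq, rs_one_eq]
  have : sg 1 0 0 1 * ps 1 0 0 1 = 1 := by decide
  rw [sp, this, Int.cast_one]

/-- `S` is right invariant under a neighbourhood of `1`. -/
lemma SS_right {u : GAf} (hu : u ∈ Kf)
    (h : ∀ a : ZMod 2, ∀ i j, Valued.v (comp (pl a) u i j - (1 : Matrix (Fin 2) (Fin 2) _) i j) < 1)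
    (g : GAf) : SS (g * u) = SS g := by
  by_cases hg : g ∈ Kf
  · have hg' : g * u ∈ Kf := mul_mem hg hu
    have key : ∀ a : ZMod 2, ∀ i j, rs (comp (pl a) (g * u) i j) = rs (comp (pl a) g i j) := by
      intro a i j
      have e00 : rs (comp (pl a) u 0 0) = 1 := rs_one (by simpa using h a 0 0)
      have e11 : rs (comp (pl a) u 1 1) = 1 := rs_one (by simpa using h a 1 1)
      have e01 : rs (comp (pl a) u 0 1) = 0 := rs_zero (by simpa using h a 0 1)
      have e10 : rs (comp (pl a) u 1 0) = 0 := rs_zero (by simpa using h a 1 0)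
      rw [map_mul, (two_pl a).rs_mul_entry (mem_Kf.mp hg _) (mem_Kf.mp hu _)]
      fin_cases j
      · show rs (comp (pl a) g i 0) * rs (comp (pl a) u 0 0) +
          rs (comp (pl a) g i 1) * rs (comp (pl a) u 1 0) = _
        rw [e00, e10, mul_one, mul_zero, add_zero]; rfl
      · show rs (comp (pl a) g i 0) * rs (comp (pl a) u 0 1) +
          rs (comp (pl a) g i 1) * rs (comp (pl a) u 1 1) = _
        rw [e01, e11, mul_one, mul_zero, zero_add]; rfl
    rw [SS, SS, if_pos hg, if_pos hg']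
    simp only [key]
  · have hg' : g * u ∉ Kf := fun h => hg ((Subgroup.mul_mem_cancel_right _ hu).mp h)
    rw [SS, SS, if_neg hg, if_neg hg']

lemma continuous_comp_entry (v : Pl) (i j : Fin 2) : Continuous fun g : GAf => comp v g i j := by
  have h : Continuous fun x : Af => x v := RestrictedProduct.continuous_eval v
  exact h.comp (continuous_entry i j)

lemma SS_Sm : SS ∈ Sm GAf := by
  let U : Subgroup GAf :=
    { carrier := {u | ∀ g, SS (g * u) = SS g}
      one_mem' := fun g => by rw [mul_one]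
      mul_mem' := fun {u v} hu hv g => by rw [← mul_assoc, hv, hu]
      inv_mem' := fun {u} hu g => by
        have := hu (g * u⁻¹)
        rw [inv_mul_cancel_right] at this
        exact this.symm }
  refine ⟨U, Subgroup.isOpen_of_mem_nhds U (g := 1) ?_, fun u hu x => hu x⟩
  have h1 : (Kf : Set GAf) ∈ 𝓝 (1 : GAf) := isOpen_Kf.mem_nhds (one_mem Kf)
  have h2 : ∀ a : ZMod 2, ∀ i j, {u : GAf |
      Valued.v (comp (pl a) u i j - (1 : Matrix (Fin 2) (Fin 2) _) i j) < 1} ∈ 𝓝 (1 : GAf) := by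
    intro a i j
    refine IsOpen.mem_nhds ?_ ?_
    · exact isOpen_lt_one.preimage ((continuous_comp_entry (pl a) i j).sub continuous_const)
    · show Valued.v (comp (pl a) 1 i j - (1 : Matrix (Fin 2) (Fin 2) _) i j) < 1
      rw [map_one]
      show Valued.v ((1 : Matrix (Fin 2) (Fin 2) (Kv (pl a))) i j -
        (1 : Matrix (Fin 2) (Fin 2) _) i j) < 1
      rw [sub_self, map_zero]; exact zero_lt_one
  have h3 : ∀ᶠ u : GAf in 𝓝 1, ∀ a : ZMod 2, ∀ i j,
      Valued.v (comp (pl a) u i j - (1 : Matrix (Fin 2) (Fin 2) _) i j) < 1 := by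
    rw [Filter.eventually_all]
    intro a
    rw [Filter.eventually_all]
    intro i
    rw [Filter.eventually_all]
    intro j
    exact h2 a i j
  filter_upwards [h1, h3] with u hu hu' g
  exact SS_right hu hu' g

end

end Pool.Agent.Y806.LL
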