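import Pool.Agent.Y806.LL.GInf

/-! # Topology of `GL₂` of a valued field -/

open WithZero Topology

namespace Pool.Agent.Y806.LL

noncomputable section

lemma exists_ball_pi {ι : Type} [Finite ι] {X : Type} [TopologicalSpace X] (B : ℤ → X → Set X)
    (mono : ∀ m m' x, m ≤ m' → B m x ⊆ B m' x) (h : ∀ x, ∀ s ∈ 𝓝 x, ∃ m, B m x ⊆ s)
    (x : ι → X) (s : Set (ι → X)) (hs : s ∈ 𝓝 x) :
    ∃ m, {y : ι → X | ∀ i, y i ∈ B m (x i)} ⊆ s := by
  rw [nhds_pi] at hs
  obtain ⟨I, -, t, ht, hts⟩ := Filter.mem_pi.mp hs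
  choose m hm using fun i => h (x i) (t i) (ht i)
  obtain ⟨M, hM⟩ := (Set.finite_range m).bddBelow
  refine ⟨M, fun y hy => hts fun i _ => hm i (mono _ _ _ (hM ⟨i, rfl⟩) (hy i))⟩

section field

variable {L : Type} [Field L] [hv : Valued L ℤᵐ⁰]

lemma exists_ball_matrix (A : Matrix (Fin 2) (Fin 2) L) {s : Set (Matrix (Fin 2) (Fin 2) L)}
    (hs : s ∈ 𝓝 A) :
    ∃ m : ℤ, ∀ B : Matrix (Fin 2) (Fin 2) L, (∀ i j, Valued.v (B i j - A i j) < exp m) → B ∈ s := by
  have h1 := exists_ball_pi (ι := Fin 2) (X := L) (fun m x => {y : L | Valued.v (y - x) < exp m})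
    (fun m m' x hm y hy => lt_of_lt_of_le hy (exp_le_exp.mpr hm))
    (fun x s hs => exists_ball hs)
  obtain ⟨m, hm⟩ := exists_ball_pi (ι := Fin 2) (X := Fin 2 → L)
    (fun m x => {y : Fin 2 → L | ∀ i, Valued.v (y i - x i) < exp m})
    (fun m m' x hm y hy i => lt_of_lt_of_le (hy i) (exp_le_exp.mpr hm)) h1 A s hs
  exact ⟨m, fun B hB => hm hB⟩

/-- Congruence subgroups form a basis of neighbourhoods of `1`. -/
lemma exists_congruence {U : Set (GL (Fin 2) L)} (hU : U ∈ 𝓝 (1 : GL (Fin 2) L)) :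
    ∃ m : ℤ, ∀ g : GL (Fin 2) L,
      (∀ i j, Valued.v (g i j - (1 : Matrix (Fin 2) (Fin 2) L) i j) < exp m) →
      (∀ i j, Valued.v ((g⁻¹) i j - (1 : Matrix (Fin 2) (Fin 2) L) i j) < exp m) → g ∈ U := by
  rw [Units.isInducing_embedProduct.nhds_eq_comap, Filter.mem_comap] at hU
  obtain ⟨s, hs, hsU⟩ := hU
  rw [nhds_prod_eq, Filter.mem_prod_iff] at hs
  obtain ⟨s₁, h₁, s₂, h₂, h₁₂⟩ := hs
  obtain ⟨m₁, hm₁⟩ := exists_ball_matrix _ h₁
  have h₂' : MulOpposite.op ⁻¹' s₂ ∈ 𝓝 (1 : Matrix (Fin 2) (Fin 2) L) := by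
    refine MulOpposite.continuous_op.continuousAt.preimage_mem_nhds ?_
    simpa using h₂
  obtain ⟨m₂, hm₂⟩ := exists_ball_matrix _ h₂'
  refine ⟨min m₁ m₂, fun g hg hg' => hsU (h₁₂ ⟨?_, ?_⟩)⟩
  · refine hm₁ _ fun i j => ?_
    exact lt_of_lt_of_le (hg i j) (exp_le_exp.mpr (min_le_left _ _))
  · refine hm₂ _ fun i j => ?_
    exact lt_of_lt_of_le (hg' i j) (exp_le_exp.mpr (min_le_right _ _))

lemma continuous_entry {A : Type} [CommRing A] [TopologicalSpace A] (i j : Fin 2) :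
    Continuous fun g : GL (Fin 2) A => g i j := by
  have h : Continuous fun M : Matrix (Fin 2) (Fin 2) A => M i j := continuous_apply_apply i j
  exact h.comp Units.continuous_val

lemma continuous_entry_inv {A : Type} [CommRing A] [TopologicalSpace A]
    (i j : Fin 2) : Continuous fun g : GL (Fin 2) A => (g⁻¹) i j := by
  have h : Continuous fun M : Matrix (Fin 2) (Fin 2) A => M i j := continuous_apply_apply i j
  exact h.comp Units.continuous_coe_inv

lemma isOpen_integers : IsOpen {x : L | Valued.v x ≤ 1} := Valued.isOpen_integer L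

lemma isOpen_maxc : IsOpen (maxc L : Set (GL (Fin 2) L)) := by
  have h : (maxc L : Set (GL (Fin 2) L)) =
      (⋂ i, ⋂ j, {g | Valued.v (g i j) ≤ 1}) ∩ ⋂ i, ⋂ j, {g | Valued.v ((g⁻¹) i j) ≤ 1} := by
    ext g
    simp only [Set.mem_inter_iff, Set.mem_iInter, Set.mem_ofPred_eq]
    rfl
  rw [h]
  refine IsOpen.inter ?_ ?_ <;> refine isOpen_iInter_of_finite fun i => isOpen_iInter_of_finite fun j => ?_
  · exact isOpen_integers.preimage (continuous_entry i j)
  · exact isOpen_integers.preimage (continuous_entry_inv i j)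

/-- The set of elements of `GL₂` with entries, and entries of the inverse, in a compact set. -/
lemma isCompact_gl {A : Type} [CommRing A] [TopologicalSpace A] [IsTopologicalRing A] [T2Space A]
    {O : Set A} (hO : IsCompact O) :
    IsCompact {g : GL (Fin 2) A | (∀ i j, g i j ∈ O) ∧ ∀ i j, (g⁻¹) i j ∈ O} := by
  have hM : IsCompact {B : Matrix (Fin 2) (Fin 2) A | ∀ i j, B i j ∈ O} := by
    have h1 : IsCompact (Set.univ.pi fun _ : Fin 2 => O) := isCompact_univ_pi fun _ => hO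
    have h2 : IsCompact (Set.univ.pi fun _ : Fin 2 => (Set.univ.pi fun _ : Fin 2 => O)) :=
      isCompact_univ_pi fun _ => h1
    have e : (Set.univ.pi fun _ : Fin 2 => (Set.univ.pi fun _ : Fin 2 => O)) =
        {B : Fin 2 → Fin 2 → A | ∀ i j, B i j ∈ O} := by
      ext B; simp
    rw [e] at h2
    exact h2
  have hM' := hM.image (MulOpposite.continuous_op)
  have h := (Units.isClosedEmbedding_embedProduct (α := Matrix (Fin 2) (Fin 2) A)).isCompact_preimage
    (hM.prod hM')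
  convert h using 1
  ext g
  simp only [Set.mem_ofPred_eq, Set.mem_preimage, Set.mem_prod, Units.embedProduct_apply,
    Set.mem_image, MulOpposite.op_inj]
  constructor
  · rintro ⟨h1, h2⟩
    exact ⟨h1, _, h2, rfl⟩
  · rintro ⟨h1, B, hB, hB'⟩
    refine ⟨h1, ?_⟩
    rw [hB'] at hB
    exact hB

lemma isCompact_maxc (h : IsCompact {x : L | Valued.v x ≤ 1}) :
    IsCompact (maxc L : Set (GL (Fin 2) L)) :=
  isCompact_gl h

end field

/-! ### The case of `F` -/

lemma isOpen_K0 : IsOpen (K0 : Set GF) := isOpen_maxc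

lemma isCompact_K0 : IsCompact (K0 : Set GF) := isCompact_maxc isCompact_OF

lemma isOpen_lt_one {L : Type} [Field L] [hv : Valued L ℤᵐ⁰] : IsOpen {x : L | Valued.v x < 1} := by
  refine isOpen_iff_mem_nhds.mpr ?_
  intro y hy
  have := ball_mem_nhds y (one_ne_zero (α := L))
  rw [map_one] at this
  filter_upwards [this] with z hz
  have : z = (z - y) + y := by ring
  show Valued.v z < 1
  rw [this]
  exact Valuation.map_add_lt _ hz hy

lemma isOpen_Iw : IsOpen (Iw : Set GF) :=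
  isOpen_K0.inter (isOpen_lt_one.preimage (continuous_entry 1 0))

lemma isCompact_of_le_K0 {U : Subgroup GF} (hU : IsOpen (U : Set GF)) (h : U ≤ K0) :
    IsCompact (U : Set GF) :=
  isCompact_K0.of_isClosed_subset (Subgroup.isClosed_of_isOpen U hU) h

instance : CompactSpace K0 := isCompact_iff_compactSpace.mp isCompact_K0

instance : CompactSpace Iw := isCompact_iff_compactSpace.mp (isCompact_of_le_K0 isOpen_Iw Iw_le)

end

end Pool.Agent.Y806.LL
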