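import Pool.Agent.Y806.LL.Hecke
import Pool.Agent.Y806.LL.Top
import Pool.Agent.Y806.LL.Avg

/-! # The Steinberg representation of `GL₂(F)` -/

open Topology

namespace Pool.Agent.Y806.LL

noncomputable section

/-! ### Generalities -/

lemma irreducible_of {G V : Type} [Group G] [AddCommGroup V] [Module ℂ V]
    (ρ : Representation ℂ G V) (hne : ∃ x : V, x ≠ 0)
    (h : ∀ W : Submodule ℂ V, (∀ g, ∀ x ∈ W, ρ g x ∈ W) → W = ⊥ ∨ W = ⊤) : ρ.IsIrreducible := by
  obtain ⟨x, hx⟩ := hne
  have : Nontrivial (Subrepresentation ρ) := by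
    refine ⟨⊥, ⊤, fun e => hx ?_⟩
    have h1 : x ∈ (⊤ : Subrepresentation ρ) := Submodule.mem_top
    rw [← e] at h1
    exact h1
  refine IsSimpleOrder.mk fun W => ?_
  rcases h W.toSubmodule (fun g x hx => W.apply_mem_toSubmodule g hx) with h1 | h1
  · exact Or.inl (Subrepresentation.toSubmodule_injective h1)
  · exact Or.inr (Subrepresentation.toSubmodule_injective h1)

lemma irr_submodule {G V : Type} [Group G] [AddCommGroup V] [Module ℂ V]
    {ρ : Representation ℂ G V} (h : ρ.IsIrreducible) (W : Submodule ℂ V)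
    (hW : ∀ g, ∀ x ∈ W, ρ g x ∈ W) : W = ⊥ ∨ W = ⊤ := by
  have h1 := h.eq_bot_or_eq_top (⟨W, fun g x hx => hW g x hx⟩ : Subrepresentation ρ)
  rcases h1 with h1 | h1
  · exact Or.inl (congrArg Subrepresentation.toSubmodule h1)
  · exact Or.inr (congrArg Subrepresentation.toSubmodule h1)

lemma irr_ne {G V : Type} [Group G] [AddCommGroup V] [Module ℂ V]
    {ρ : Representation ℂ G V} (h : ρ.IsIrreducible) : ∃ x : V, x ≠ 0 := by
  by_contra hcon
  push Not at hcon
  have := h.toNontrivial
  obtain ⟨a, b, hab⟩ := this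
  apply hab
  apply Subrepresentation.toSubmodule_injective
  ext x
  rw [hcon x]
  simp

/-- The subrepresentation generated by a vector. -/
def orb {G V : Type} [Group G] [AddCommGroup V] [Module ℂ V]
    (ρ : Representation ℂ G V) (v : V) : Subrepresentation ρ where
  toSubmodule := Submodule.span ℂ (Set.range fun g => ρ g v)
  apply_mem_toSubmodule g x hx := by
    induction hx using Submodule.span_induction with
    | mem x h =>
      obtain ⟨g', rfl⟩ := h
      refine Submodule.subset_span ⟨g * g', ?_⟩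
      show ρ (g * g') v = _
      rw [map_mul]; rfl
    | zero => rw [map_zero]; exact Submodule.zero_mem _
    | add x y _ _ hx hy => rw [map_add]; exact Submodule.add_mem _ hx hy
    | smul a x _ hx => rw [map_smul]; exact Submodule.smul_mem _ _ hx

lemma mem_orb {G V : Type} [Group G] [AddCommGroup V] [Module ℂ V]
    (ρ : Representation ℂ G V) (v : V) (g : G) : ρ g v ∈ (orb ρ v).toSubmodule :=
  Submodule.subset_span ⟨g, rfl⟩

/-! ### Averages of functionals -/

section avf

variable {G : Type} [Group G] [TopologicalSpace G] [IsTopologicalGroup G]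
  {V : Type} [AddCommGroup V] [Module ℂ V]

lemma continuous_coeff {ρ : Representation ℂ G V} (hρ : IsSmooth ρ) (l : V →ₗ[ℂ] ℂ) (z : V) :
    Continuous fun g => l (ρ g⁻¹ z) := by
  let S : Subgroup G :=
    { carrier := {g : G | ρ g z = z}
      one_mem' := by simp
      mul_mem' := by
        intro a b ha hb
        show ρ (a * b) z = z
        rw [map_mul, Module.End.mul_apply, hb, ha]
      inv_mem' := by
        intro a ha
        show ρ a⁻¹ z = z
        have h : ρ a⁻¹ (ρ a z) = z := by
          rw [← Module.End.mul_apply, ← map_mul]; simp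
        rwa [ha] at h }
  refine continuous_of_left (U := S) (hρ z) fun u hu x => ?_
  rw [mul_inv_rev, map_mul, Module.End.mul_apply, show ρ u⁻¹ z = z from inv_mem hu]

/-- The average of a functional over a compact subgroup. -/
def avf (C : Subgroup G) [CompactSpace C] {ρ : Representation ℂ G V} (hρ : IsSmooth ρ)
    (l : V →ₗ[ℂ] ℂ) : V →ₗ[ℂ] ℂ where
  toFun z := mean C fun i => l (ρ (i : G)⁻¹ z)
  map_add' x y := by
    rw [← mean_add]
    · simp
    · exact (continuous_coeff hρ l x).comp continuous_subtype_val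
    · exact (continuous_coeff hρ l y).comp continuous_subtype_val
  map_smul' a x := by
    simp only [map_smul, smul_eq_mul, mean_smul, RingHom.id_apply]

variable {C : Subgroup G} [CompactSpace C] {ρ : Representation ℂ G V} (hρ : IsSmooth ρ)
    (l : V →ₗ[ℂ] ℂ)

lemma avf_inv {j : G} (hj : j ∈ C) (z : V) : avf C hρ l (ρ j z) = avf C hρ l z := by
  have h := mean_mul_left (⟨j, hj⟩ : C)⁻¹ fun i : C => l (ρ (i : G)⁻¹ z)
  refine Eq.trans ?_ h
  show (mean C fun i : C => l (ρ (i : G)⁻¹ (ρ j z))) = _
  congr 1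
  ext i
  rw [← Module.End.mul_apply, ← map_mul]
  simp

lemma avf_fixed {z : V} (hz : ∀ j ∈ C, ρ j z = z) : avf C hρ l z = l z := by
  show (mean C fun i : C => l (ρ (i : G)⁻¹ z)) = _
  have : (fun i : C => l (ρ (i : G)⁻¹ z)) = fun _ => l z := by
    ext i
    rw [hz _ (inv_mem i.2)]
  rw [this, mean_const]

end avf

/-! ### The special function -/

lemma harm_of {f : GF → ℂ} (hK : ∀ k ∈ K0, ∀ g, f (g * k) = f g) (hz : ∀ g, f (g * zF) = f g)
    {c : ℂ} (hT : ∀ g, TT f g = 3 * f g + c) : Harm c (fun g => f (g * om) - f g) where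
  iw i hi g := by rw [right_om hK hi, hK i (Iw_le hi)]
  om g := by rw [mul_assoc, om_sq, hz]; ring
  sum g := by
    have h1 := hK _ wF_mem g
    have h2 := hK _ (mul_mem (Iw_le n1_mem) wF_mem) g
    have h3 := hT g
    rw [TT] at h3
    rw [h1, h2]
    have e1 : g * wA F * om = g * (wA F * om) := by group
    have e2 : g * (n1 * wA F) * om = g * (n1 * wA F * om) := by group
    rw [e1, e2]
    linear_combination h3

lemma Harm.mem_Sm {c : ℂ} {f : GF → ℂ} (hf : Harm c f) : f ∈ Sm GF :=
  ⟨Iw, isOpen_Iw, hf.iw⟩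

lemma Harm.mean {C : Subgroup GF} [CompactSpace C] {c : ℂ} {f : GF → ℂ} (hf : Harm c f) (h : GF) :
    Harm c (fun g => Pool.Agent.Y806.LL.mean C fun i => f (h * (i : GF)⁻¹ * g)) where
  iw i hi g := by
    congr 1; ext j
    rw [← mul_assoc, hf.iw i hi]
  om g := by
    have : (fun i : C => f (h * (i : GF)⁻¹ * (g * Pool.Agent.Y806.LL.om))) =
        fun i : C => (-1) * f (h * (i : GF)⁻¹ * g) := by
      ext j
      rw [← mul_assoc, hf.om]; ring
    rw [this, mean_smul]; ring
  sum g := by
    have hc : ∀ g, Continuous fun i : C => f (h * (i : GF)⁻¹ * g) := fun g =>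
      continuous_trans C (Sm_continuous hf.mem_Sm) h g
    have e2 := mean_add3 (hc g) (hc (g * wA F)) (hc (g * (n1 * wA F)))
    have : (fun i : C => f (h * (i : GF)⁻¹ * g) + f (h * (i : GF)⁻¹ * (g * wA F)) +
        f (h * (i : GF)⁻¹ * (g * (n1 * wA F)))) = fun _ => c := by
      ext i
      rw [← mul_assoc _ g, ← mul_assoc _ g]
      exact hf.sum _
    rw [this, mean_const] at e2
    exact e2.symm

lemma Harm.sub {c d : ℂ} {f g : GF → ℂ} (hf : Harm c f) (hg : Harm d g) :
    Harm (c - d) (fun x => f x - g x) where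
  iw i hi x := by rw [hf.iw i hi, hg.iw i hi]
  om x := by rw [hf.om, hg.om]; ring
  sum x := by linear_combination hf.sum x - hg.sum x

lemma Harm.smul {c : ℂ} {f : GF → ℂ} (hf : Harm c f) (a : ℂ) :
    Harm (a * c) (fun x => a * f x) where
  iw i hi x := by rw [hf.iw i hi]
  om x := by rw [hf.om]; ring
  sum x := by linear_combination a * hf.sum x

/-- The difference of `Ei` along edges. -/
def uF (g : GF) : ℂ := Ei (g * om) - Ei g

lemma uF_harm : Harm 3 uF := harm_of Ei_lev.right Ei_lev.z Ei_TT

lemma uF_one : uF 1 = 1 := by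
  have h0 : Ei (dg (0 : ℕ)) = ee 0 := by rw [Ei, ind_eq (Red.dg 0)]
  have h1 : Ei (dg (0 : ℕ) * om) = ee 1 := by rw [Ei, ind_eq (red_om 0)]
  rw [Nat.cast_zero, dg_zero] at h0 h1
  rw [uF, h0, h1]
  norm_num [ee]

/-- The function `c`. -/
def cS (g : GF) : ℂ :=
  1 / 2 * ((mean Iw fun i => uF (1 * (i : GF)⁻¹ * g)) - mean Iw fun i => uF (om * (i : GF)⁻¹ * g))

lemma cS_harm : Harm 0 cS := by
  have h := ((uF_harm.mean (C := Iw) 1).sub (uF_harm.mean (C := Iw) om)).smul (1 / 2)
  rw [sub_self, mul_zero] at h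
  exact h

lemma cS_left {j : GF} (hj : j ∈ Iw) (g : GF) : cS (j * g) = cS g := by
  have key : ∀ h : GF, (mean Iw fun i => uF (h * (i : GF)⁻¹ * (j * g))) =
      mean Iw fun i => uF (h * (i : GF)⁻¹ * g) := by
    intro h
    refine Eq.trans ?_ (mean_mul_left (⟨j, hj⟩ : Iw)⁻¹ fun i : Iw => uF (h * (i : GF)⁻¹ * g))
    congr 1; ext i
    congr 1
    simp [mul_assoc]
  rw [cS, key, key, cS]

lemma cS_one : cS 1 = 1 := by
  have h1 : (fun i : Iw => uF (1 * (i : GF)⁻¹ * 1)) = fun _ => 1 := by
    ext i
    rw [mul_one, uF_harm.iw _ (inv_mem i.2), uF_one]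
  have h2 : (fun i : Iw => uF (om * (i : GF)⁻¹ * 1)) = fun _ => -1 := by
    ext i
    rw [mul_one, uF_harm.iw _ (inv_mem i.2), ← one_mul om, uF_harm.om, uF_one]
  rw [cS, h1, h2, mean_const, mean_const]
  norm_num

/-- Uniqueness of `c`. -/
lemma Harm.eq_cS {f : GF → ℂ} (hf : Harm 0 f) (hl : ∀ i ∈ Iw, ∀ g, f (i * g) = f g) (g : GF) :
    f g = f 1 * cS g := by
  have h := hf.sub (cS_harm.smul (f 1))
  rw [mul_zero, sub_zero] at h
  have h1 := h.eq_zero (fun i hi g => by rw [hl i hi, cS_left hi]) (by rw [cS_one]; ring) g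
  linear_combination h1

/-! ### Steinberg vectors -/

/-- Vectors which transform as the function `c`. -/
structure StVec {V : Type} [AddCommGroup V] [Module ℂ V] (ρ : Representation ℂ GF V) (v : V) :
    Prop where
  iw : ∀ i ∈ Iw, ρ i v = v
  om : ρ om v = -v
  sum : v + ρ (wA F) v + ρ (n1 * wA F) v = 0

section

variable {V : Type} [AddCommGroup V] [Module ℂ V] {ρ : Representation ℂ GF V} {v : V}

lemma StVec.harm (hv : StVec ρ v) (l : V →ₗ[ℂ] ℂ) : Harm 0 (fun g => l (ρ g v)) where
  iw i hi g := by rw [map_mul, Module.End.mul_apply, hv.iw i hi]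
  om g := by rw [map_mul, Module.End.mul_apply, hv.om, map_neg, map_neg]
  sum g := by
    rw [map_mul, map_mul, Module.End.mul_apply, Module.End.mul_apply, ← map_add, ← map_add,
      ← map_add, ← map_add, hv.sum, map_zero, map_zero]

lemma StVec.avf (hv : StVec ρ v) (hρ : IsSmooth ρ) (l : V →ₗ[ℂ] ℂ) (g : GF) :
    Pool.Agent.Y806.LL.avf Iw hρ l (ρ g v) = l v * cS g := by
  have h := (hv.harm (Pool.Agent.Y806.LL.avf Iw hρ l)).eq_cS (fun i hi g => by
    rw [map_mul, Module.End.mul_apply, avf_inv hρ l hi]) g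
  rw [h]
  simp only [map_one, Module.End.one_apply]
  rw [avf_fixed hρ l hv.iw]

end

/-! ### The Steinberg representation -/

/-- The space of the Steinberg representation. -/
def StS : Subrepresentation (rt : Representation ℂ GF (GF → ℂ)) := orb rt cS

/-- The Steinberg representation. -/
def StR : Representation ℂ GF StS.toSubmodule := StS.toRepresentation

lemma StR_apply (g : GF) (x : StS.toSubmodule) (y : GF) : (StR g x).1 y = x.1 (y * g) := rfl

lemma StS_le : StS.toSubmodule ≤ Sm GF := by
  refine Submodule.span_le.mpr ?_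
  rintro _ ⟨g, rfl⟩
  exact rt_mem_Sm g cS_harm.mem_Sm

lemma StR_smooth : IsSmooth StR := by
  intro x
  have h := isOpen_stab (StS_le x.2)
  convert h using 1
  ext g
  exact Subtype.ext_iff

/-- The generator of the Steinberg representation. -/
def St0 : StS.toSubmodule := ⟨cS, by
  have := mem_orb (rt : Representation ℂ GF (GF → ℂ)) cS 1
  rwa [map_one] at this⟩

lemma St0_vec : StVec StR St0 where
  iw i hi := by
    apply Subtype.ext; ext g
    exact cS_harm.iw i hi g
  om := by
    apply Subtype.ext; ext g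
    exact cS_harm.om g
  sum := by
    apply Subtype.ext; ext g
    exact cS_harm.sum g

lemma St0_ne : St0 ≠ 0 := by
  intro h
  have := congrFun (congrArg Subtype.val h) 1
  change cS 1 = 0 at this
  rw [cS_one] at this
  exact one_ne_zero this

/-- The Steinberg representation is generated by `c`. -/
lemma St_span (x : StS.toSubmodule) : x ∈ Submodule.span ℂ (Set.range fun g => StR g St0) := by
  obtain ⟨x, hx⟩ := x
  have key : ∀ x ∈ StS.toSubmodule, ∀ hx : x ∈ StS.toSubmodule,
      (⟨x, hx⟩ : StS.toSubmodule) ∈ Submodule.span ℂ (Set.range fun g => StR g St0) := by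
    intro x hx'
    refine Submodule.span_induction (p := fun x _ => ∀ hx : x ∈ StS.toSubmodule,
      (⟨x, hx⟩ : StS.toSubmodule) ∈ Submodule.span ℂ (Set.range fun g => StR g St0)) ?_ ?_ ?_ ?_ hx'
    · rintro _ ⟨g, rfl⟩ h
      exact Submodule.subset_span ⟨g, rfl⟩
    · intro h
      exact Submodule.zero_mem _
    · intro x y hx hy hx1 hy1 h
      exact Submodule.add_mem _ (hx1 hx) (hy1 hy)
    · intro a x hx hx1 h
      exact Submodule.smul_mem _ a (hx1 hx)
  exact key x hx hx

/-- Evaluation at `1`. -/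
def evS : StS.toSubmodule →ₗ[ℂ] ℂ where
  toFun x := x.1 1
  map_add' _ _ := rfl
  map_smul' _ _ := rfl

lemma evS_apply (g : GF) (x : StS.toSubmodule) : evS (StR g x) = x.1 g := by
  show x.1 (1 * g) = _
  rw [one_mul]

lemma StR_irreducible : StR.IsIrreducible := by
  refine irreducible_of StR ⟨St0, St0_ne⟩ fun W hW => ?_
  by_cases h0 : St0 ∈ W
  · right
    rw [eq_top_iff]
    intro x _
    refine (Submodule.span_le (p := W)).mpr ?_ (St_span x)
    rintro _ ⟨g, rfl⟩
    exact hW g _ h0
  · left
    -- a functional which vanishes on `W` but not at `St0`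
    obtain ⟨l, hl, hlW⟩ := Submodule.exists_le_ker_of_notMem h0
    set m := avf Iw StR_smooth l with hm
    -- it is a multiple of the evaluation
    have h1 : m = (l St0) • evS := by
      refine LinearMap.ext_on (s := Set.range fun g => StR g St0) ?_ ?_
      · rw [eq_top_iff]; intro x _; exact St_span x
      · rintro _ ⟨g, rfl⟩
        show m (StR g St0) = l St0 * evS (StR g St0)
        rw [hm, St0_vec.avf StR_smooth l g, evS_apply]; rfl
    have h2 : ∀ z ∈ W, m z = 0 := by
      intro z hz
      show (mean Iw fun i => l (StR (i : GF)⁻¹ z)) = 0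
      have : (fun i : Iw => l (StR (i : GF)⁻¹ z)) = fun _ => 0 := by
        ext i
        exact hlW (hW _ _ hz)
      rw [this, mean_const]
    rw [eq_bot_iff]
    intro z hz
    rw [Submodule.mem_bot]
    apply Subtype.ext
    ext g
    have h3 := h2 _ (hW g z hz)
    rw [h1] at h3
    have h4 : l St0 * evS (StR g z) = 0 := h3
    rw [evS_apply] at h4
    exact (mul_eq_zero.mp h4).resolve_left hl

/-- The Steinberg representation is not unramified. -/
lemma StR_no_fixed {x : StS.toSubmodule} (hx : ∀ k ∈ K0, StR k x = x) : x = 0 := by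
  apply Subtype.ext
  ext g₀
  show x.1 g₀ = 0
  set l : StS.toSubmodule →ₗ[ℂ] ℂ := evS ∘ₗ StR g₀ with hl
  have h1 : ∀ g, avf K0 StR_smooth l (StR g St0) = 0 :=
    (St0_vec.harm (avf K0 StR_smooth l)).eq_zero_of_K0 fun i hi g => by
      rw [map_mul, Module.End.mul_apply, avf_inv StR_smooth l hi]
  have h2 : avf K0 StR_smooth l = 0 := by
    refine LinearMap.ext_on (s := Set.range fun g => StR g St0) ?_ ?_
    · rw [eq_top_iff]; intro x _; exact St_span x
    · rintro _ ⟨g, rfl⟩
      exact h1 g
  have h3 := avf_fixed StR_smooth l hx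
  rw [h2] at h3
  have h4 : l x = x.1 g₀ := evS_apply g₀ x
  rw [← h4, ← h3]; rfl

/-- The Steinberg representation as an irreducible smooth representation. -/
def StI : SmoothIrrep GF where
  V := StS.toSubmodule
  ρ := StR
  smooth := StR_smooth
  irreducible := StR_irreducible

end

end Pool.Agent.Y806.LL
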