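import Pool.Agent.Y806.LL.Pi2

/-! # Uniqueness of the component at infinity; the main theorem -/

open WithZero Topology

namespace Pool.Agent.Y806.LL

noncomputable section

lemma cls_of_equiv {G : Type} [Group G] [TopologicalSpace G] (σ τ : SmoothIrrep G)
    (e : τ.V →ₗ[ℂ] σ.V) (hne : e ≠ 0) (he : ∀ g x, e (τ.ρ g x) = σ.ρ g (e x)) :
    σ.cls = τ.cls := by
  have hinj : Function.Injective e := inj_of τ e hne fun g x hx => by rw [he, hx, map_zero]
  have hsurj : Function.Surjective e := by
    rw [← LinearMap.range_eq_top]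
    rcases irr_submodule σ.irreducible (LinearMap.range e) (fun g x hx => by
      obtain ⟨y, rfl⟩ := hx
      exact ⟨τ.ρ g y, he g y⟩) with h | h
    · exact absurd (LinearMap.range_eq_bot.mp h) hne
    · exact h
  exact (Quotient.sound (s := SmoothIrrep.setoid G)
    ⟨LinearEquiv.ofBijective e ⟨hinj, hsurj⟩, he⟩ : τ.cls = σ.cls).symm

/-- The component at infinity of an irreducible representation is unique. -/
theorem component_unique (π : SmoothIrrep GA) (σ τ : SmoothIrrep GF) (hσ : IsComponentAtInfty σ π)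
    (hτ : IsComponentAtInfty τ π) : σ.cls = τ.cls := by
  classical
  obtain ⟨T, hT, hT'⟩ := hσ
  obtain ⟨S, hS, hS'⟩ := hτ
  have hSinj : Function.Injective S := inj_of τ S hS fun g x hx => by rw [hS', hx, map_zero]
  -- the translates of `T`
  let Tg : GAf → (σ.V →ₗ[ℂ] π.V) := fun g => π.ρ (g, 1) ∘ₗ T
  have hTg : ∀ g h x, Tg g (σ.ρ h x) = π.ρ (1, h) (Tg g x) := by
    intro g h x
    show π.ρ (g, 1) (T (σ.ρ h x)) = π.ρ (1, h) (π.ρ (g, 1) (T x))
    rw [hT', ← Module.End.mul_apply, ← map_mul, ← Module.End.mul_apply, ← map_mul]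
    congr 2
    ext <;> simp
  have htop : (⨆ g, LinearMap.range (Tg g)) = ⊤ := by
    rcases irr_submodule π.irreducible (⨆ g, LinearMap.range (Tg g)) (fun h x hx => by
      have hle : (⨆ g, LinearMap.range (Tg g)) ≤ (⨆ g, LinearMap.range (Tg g)).comap (π.ρ h) := by
        refine iSup_le fun g => ?_
        rintro _ ⟨y, rfl⟩
        refine Submodule.mem_iSup_of_mem (h.1 * g) ⟨σ.ρ h.2 y, ?_⟩
        rw [hTg]
        show π.ρ (1, h.2) (π.ρ (h.1 * g, 1) (T y)) = π.ρ h (π.ρ (g, 1) (T y))
        rw [← Module.End.mul_apply, ← map_mul, ← Module.End.mul_apply, ← map_mul]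
        congr 2
        ext <;> simp
      exact hle hx) with h | h
    · exfalso
      apply hT
      ext x
      have h1 : Tg 1 x ∈ (⨆ g, LinearMap.range (Tg g)) := Submodule.mem_iSup_of_mem 1 ⟨x, rfl⟩
      rw [h, Submodule.mem_bot] at h1
      have h2 : Tg 1 x = T x := by
        show π.ρ (1, 1) (T x) = T x
        have : ((1, 1) : GA) = 1 := rfl
        rw [this, map_one]; rfl
      rw [← h2, h1]; rfl
    · exact h
  have key : ∀ s : Finset GAf, (∃ y : τ.V, y ≠ 0 ∧ S y ∈ ⨆ g ∈ s, LinearMap.range (Tg g)) →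
      σ.cls = τ.cls := by
    intro s
    induction s using Finset.induction_on with
    | empty =>
      rintro ⟨y, hy, h⟩
      simp only [Finset.notMem_empty, iSup_false, iSup_bot, Submodule.mem_bot] at h
      exact absurd (hSinj (by rw [h, map_zero])) hy
    | insert a s _ ih =>
      rintro ⟨y, hy, h⟩
      by_cases hcase : ∃ y : τ.V, y ≠ 0 ∧ S y ∈ ⨆ g ∈ s, LinearMap.range (Tg g)
      · exact ih hcase
      push Not at hcase
      set Y : Submodule ℂ π.V := ⨆ g ∈ s, LinearMap.range (Tg g) with hY
      have hYinv : ∀ h : GF, ∀ x ∈ Y, π.ρ (1, h) x ∈ Y := by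
        intro h x hx
        have hle : Y ≤ Y.comap (π.ρ (1, h)) := by
          refine iSup_le fun g => iSup_le fun hg => ?_
          rintro _ ⟨y, rfl⟩
          refine Submodule.mem_iSup_of_mem g (Submodule.mem_iSup_of_mem hg ⟨σ.ρ h y, ?_⟩)
          exact hTg g h y
        exact hle hx
      rw [Finset.iSup_insert] at h
      -- the image of `S` is contained in the sum
      have hall : ∀ z : τ.V, S z ∈ LinearMap.range (Tg a) ⊔ Y := by
        have hinv : ∀ g : GF, ∀ x ∈ (LinearMap.range (Tg a) ⊔ Y).comap S,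
            τ.ρ g x ∈ (LinearMap.range (Tg a) ⊔ Y).comap S := by
          intro g x hx
          show S (τ.ρ g x) ∈ LinearMap.range (Tg a) ⊔ Y
          rw [hS']
          obtain ⟨p, hp, q, hq, e⟩ := Submodule.mem_sup.mp hx
          rw [← e, map_add]
          refine Submodule.add_mem_sup ?_ (hYinv g q hq)
          obtain ⟨p', rfl⟩ := hp
          exact ⟨σ.ρ g p', hTg a g p'⟩
        rcases irr_submodule τ.irreducible _ hinv with h1 | h1
        · exfalso
          have : y ∈ (LinearMap.range (Tg a) ⊔ Y).comap S := h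
          rw [h1] at this
          exact hy this
        · intro z
          have : z ∈ (LinearMap.range (Tg a) ⊔ Y).comap S := by rw [h1]; trivial
          exact this
      -- modulo `Y`
      let A : σ.V →ₗ[ℂ] π.V ⧸ Y := Y.mkQ ∘ₗ Tg a
      let B : τ.V →ₗ[ℂ] π.V ⧸ Y := Y.mkQ ∘ₗ S
      have hBA : ∀ z, B z ∈ LinearMap.range A := by
        intro z
        obtain ⟨p, ⟨p', rfl⟩, q, hq, e⟩ := Submodule.mem_sup.mp (hall z)
        refine ⟨p', ?_⟩
        show Y.mkQ (Tg a p') = Y.mkQ (S z)
        rw [← e, map_add, show Y.mkQ q = 0 from (Submodule.Quotient.mk_eq_zero Y).mpr hq, add_zero]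
      have hB : ∀ z, B z = 0 → z = 0 := by
        intro z hz
        by_contra hne
        exact hcase z hne ((Submodule.Quotient.mk_eq_zero Y).mp hz)
      have hAne : A ≠ 0 := by
        intro h0
        apply hy
        apply hB
        obtain ⟨x, hx⟩ := hBA y
        rw [← hx, h0]; rfl
      have hAinj : Function.Injective A := inj_of σ A hAne fun g x hx => by
        have h1 : Tg a x ∈ Y := (Submodule.Quotient.mk_eq_zero Y).mp hx
        refine (Submodule.Quotient.mk_eq_zero Y).mpr ?_
        show Tg a (σ.ρ g x) ∈ Y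
        rw [hTg]; exact hYinv g _ h1
      let E := LinearEquiv.ofInjective A hAinj
      let e : τ.V →ₗ[ℂ] σ.V := E.symm.toLinearMap ∘ₗ B.codRestrict (LinearMap.range A) hBA
      have hAe : ∀ z, A (e z) = B z := by
        intro z
        have h1 := E.apply_symm_apply (B.codRestrict (LinearMap.range A) hBA z)
        have h2 := congrArg Subtype.val h1
        exact h2
      refine cls_of_equiv σ τ e (fun h0 => ?_) fun g z => ?_
      · apply hy
        apply hB
        rw [← hAe, h0]
        simp
      · apply hAinj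
        rw [hAe]
        show Y.mkQ (S (τ.ρ g z)) = Y.mkQ (Tg a (σ.ρ g (e z)))
        rw [hS', hTg]
        have h1 : Tg a (e z) - S z ∈ Y := by
          rw [← Submodule.Quotient.mk_eq_zero Y, Submodule.Quotient.mk_sub, sub_eq_zero]
          exact hAe z
        have h2 := hYinv g _ h1
        rw [map_sub, ← Submodule.Quotient.mk_eq_zero Y, Submodule.Quotient.mk_sub, sub_eq_zero] at h2
        exact h2.symm
  obtain ⟨y, hy⟩ := irr_ne τ.irreducible
  have h1 : S y ∈ ⨆ g, LinearMap.range (Tg g) := by rw [htop]; trivial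
  obtain ⟨s, hs⟩ := Submodule.mem_iSup_iff_exists_finset.mp h1
  exact key s ⟨y, hy, hs⟩

/-- No map of isomorphism classes of representations of `GL₂(F)` predicts the components at
infinity of global liftings. -/
theorem no_local_lifting : ¬ ∃ l : Irr GF → Irr GF, ∀ π P : SmoothIrrep GA,
    IsAutomorphic π → IsIsobaric P → IsGlobalLifting π P →
      ∀ σ τ : SmoothIrrep GF, IsComponentAtInfty σ π → IsComponentAtInfty τ P →
        l σ.cls = τ.cls := by
  rintro ⟨l, hl⟩
  obtain ⟨π, hcusp, haut, hcomp⟩ := exists_cuspidal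
  have h1 := hl Pi1 (triv GA) Pi1_automorphic triv_isobaric Pi1_lifting StI (triv GF)
    Pi1_component triv_component
  have h2 := hl π π haut (Or.inl hcusp) ⟨fun _ _ h _ => h, fun _ h _ => h⟩ StI StI hcomp hcomp
  exact StI_ne (h2.symm.trans h1)

end

end Pool.Agent.Y806.LL
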